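import Mathlib
import Pool.Agent.Helper278.RGVN

set_option autoImplicit false

open scoped InnerProductSpace ComplexOrder BoundedContinuousFunction ComplexConjugate
open Filter Topology

namespace Pool.Agent.Helper463.BC

open Pool.Agent.Helper278 Pool.Agent.Helper278.RG

universe v w

/-- the unitaries of type I -/
def TypeI (G : Type v) [Group G] (L : G → ℕ) : Prop :=
  ∀ (T : Finset G) (c s : ℝ), c ^ 2 + s ^ 2 = 1 →
    ∃ v v' : MonoidAlgebra ℂ G, (∀ g, v'.coeff g = (starRingEnd ℂ) (v.coeff g⁻¹)) ∧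
      v' * v = 1 ∧ v * v' = 1 ∧ ∀ g ∈ T, ∀ g' ∈ T,
        (v' * MonoidAlgebra.single g 1 * v).coeff g' =
          open Classical in if g' = g then ((c ^ (2 * L g) : ℝ) : ℂ) else 0

/-- the unitaries of type II -/
def TypeII (G : Type v) [Group G] (L : G → ℕ) : Prop :=
  ∀ (F₀ : Finset G) (M : ℕ), ∃ S : Finset G, ∀ T : Finset G, ∃ κ : G,
    (∀ f ∈ F₀, κ * f = f * κ) ∧ ∀ g ∈ T, g ∉ S → L g ≤ M → κ * g * κ⁻¹ ∉ T

section

variable {G : Type v} [Group G] {K : Type w} [NormedAddCommGroup K] [InnerProductSpace ℂ K]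
  [CompleteSpace K] (b : HilbertBasis G ℂ K)

/-- the coefficients of an element of `L(G)` -/
noncomputable def cf (x : Elt (LK b)) (g : G) : ℂ := ⟪b g, (x : K →L[ℂ] K) (b 1)⟫_ℂ

theorem cf_sub (x y : Elt (LK b)) (g : G) : cf b (x - y) g = cf b x g - cf b y g :=
  inner_sub_right _ _ _

theorem cf_Lop (v : MonoidAlgebra ℂ G) (g : G) : cf b (Lop b v) g = v.coeff g := coef_vec b v g

theorem hasSum_cf (x : Elt (LK b)) : HasSum (fun g => ‖cf b x g‖ ^ 2) (N2 b x ^ 2) := by
  have h2 := b.hasSum_inner_mul_inner ((x : K →L[ℂ] K) (b 1)) ((x : K →L[ℂ] K) (b 1))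
  have h3 := Complex.hasSum_re h2
  have h4 : (⟪(x : K →L[ℂ] K) (b 1), (x : K →L[ℂ] K) (b 1)⟫_ℂ).re = N2 b x ^ 2 := by
    rw [inner_self_eq_norm_sq_to_K]
    unfold N2
    norm_cast
  rw [h4] at h3
  refine h3.congr_fun ?_
  intro g
  unfold cf
  rw [← inner_conj_symm ((x : K →L[ℂ] K) (b 1)) (b g), ← Complex.normSq_eq_conj_mul_self,
    Complex.normSq_eq_norm_sq, Complex.ofReal_re]

theorem sum_cf_le (x : Elt (LK b)) (A : Finset G) : ∑ g ∈ A, ‖cf b x g‖ ^ 2 ≤ N2 b x ^ 2 :=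
  sum_le_hasSum A (fun _ _ => sq_nonneg _) (hasSum_cf b x)

/-- the truncation of an element of `L(G)` to a finite set -/
noncomputable def trunc (S : Finset G) (x : Elt (LK b)) : MonoidAlgebra ℂ G :=
  ∑ g ∈ S, MonoidAlgebra.single g (cf b x g)

open Classical in
theorem coeff_trunc (S : Finset G) (x : Elt (LK b)) (g : G) :
    (trunc b S x).coeff g = if g ∈ S then cf b x g else 0 := by
  unfold trunc
  rw [MonoidAlgebra.coeff_sum, Finsupp.finsetSum_apply]
  by_cases hg : g ∈ S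
  · rw [Finset.sum_eq_single g]
    · rw [MonoidAlgebra.coeff_single, Finsupp.single_apply, if_pos rfl, if_pos hg]
    · intro h _ hne
      rw [MonoidAlgebra.coeff_single, Finsupp.single_apply, if_neg hne]
    · exact fun h => absurd hg h
  · rw [if_neg hg]
    refine Finset.sum_eq_zero fun h hh => ?_
    rw [MonoidAlgebra.coeff_single, Finsupp.single_apply, if_neg]
    rintro rfl
    exact hg hh

/-- the 2-norm of the part of `x` outside a finite set -/
noncomputable def tail (S : Finset G) (x : Elt (LK b)) : ℝ := N2 b (x - Lop b (trunc b S x))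

theorem tail_nonneg (S : Finset G) (x : Elt (LK b)) : 0 ≤ tail b S x := norm_nonneg _

open Classical in
theorem cf_tail (S : Finset G) (x : Elt (LK b)) (g : G) :
    cf b (x - Lop b (trunc b S x)) g = if g ∈ S then 0 else cf b x g := by
  rw [cf_sub, cf_Lop, coeff_trunc]
  split_ifs <;> simp

theorem tail_sq (S : Finset G) (x : Elt (LK b)) :
    tail b S x ^ 2 = N2 b x ^ 2 - ∑ g ∈ S, ‖cf b x g‖ ^ 2 := by
  classical
  have h1 := hasSum_cf b (x - Lop b (trunc b S x))
  have h2 := hasSum_cf b x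
  have h3 : HasSum (fun g => if g ∈ S then ‖cf b x g‖ ^ 2 else 0)
      (∑ g ∈ S, ‖cf b x g‖ ^ 2) := by
    have : HasSum (fun g => if g ∈ S then ‖cf b x g‖ ^ 2 else 0)
        (∑ g ∈ S, if g ∈ S then ‖cf b x g‖ ^ 2 else 0) :=
      hasSum_sum_of_ne_finset_zero (fun g hg => if_neg hg)
    rwa [Finset.sum_congr rfl (fun g hg => if_pos hg :
      ∀ g ∈ S, (if g ∈ S then ‖cf b x g‖ ^ 2 else 0) = ‖cf b x g‖ ^ 2)] at this
  refine h1.unique ((h2.sub h3).congr_fun ?_)
  intro g
  rw [cf_tail]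
  split_ifs <;> simp

theorem exists_tail (S : Finset G) (x : Elt (LK b)) (δ : ℝ) (hδ : 0 < δ) :
    ∃ T : Finset G, S ⊆ T ∧ tail b T x ≤ δ := by
  have h1 := hasSum_cf b x
  have h2 : ∀ᶠ T : Finset G in atTop, N2 b x ^ 2 - δ ^ 2 < ∑ g ∈ T, ‖cf b x g‖ ^ 2 :=
    (tendsto_order.1 h1).1 _ (by nlinarith [sq_pos_of_pos hδ])
  obtain ⟨T, h3, h4⟩ := (h2.and (eventually_ge_atTop S)).exists
  refine ⟨T, h4, ?_⟩
  have h5 := tail_sq b T x
  have h6 : tail b T x ^ 2 ≤ δ ^ 2 := by rw [h5]; linarith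
  exact (pow_le_pow_iff_left₀ (tail_nonneg b T x) hδ.le two_ne_zero).1 h6

theorem sum_disj_le (T : Finset G) (x : Elt (LK b)) (A : Finset G) (hA : Disjoint A T) :
    ∑ g ∈ A, ‖cf b x g‖ ^ 2 ≤ tail b T x ^ 2 := by
  classical
  refine le_trans (le_of_eq ?_) (sum_cf_le b (x - Lop b (trunc b T x)) A)
  refine Finset.sum_congr rfl fun g hg => ?_
  rw [cf_tail, if_neg (Finset.disjoint_left.1 hA hg)]

theorem N2_unit_left (a z : Elt (LK b)) (ha : star a * a = 1) : N2 b (a * z) = N2 b z := by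
  have h1 := trG_star_mul b (a * z)
  have h2 := trG_star_mul b z
  rw [star_mul, mul_assoc, ← mul_assoc (star a), ha, one_mul, h2] at h1
  have h3 : N2 b z ^ 2 = N2 b (a * z) ^ 2 := by exact_mod_cast h1
  exact ((pow_left_inj₀ (norm_nonneg _) (norm_nonneg _) two_ne_zero).1 h3).symm

theorem N2_unit_right (a z : Elt (LK b)) (ha : a * star a = 1) : N2 b (z * a) = N2 b z := by
  rw [← N2_star b (z * a), star_mul, N2_unit_left b (star a) (star z) (by rw [star_star]; exact ha),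
    N2_star]

theorem N2_La (g : G) : N2 b (La b g) = 1 := by
  unfold N2
  show ‖lamK b g (b 1)‖ = 1
  rw [lamK_basis]
  exact b.orthonormal.1 _

theorem N2_one : N2 b 1 = 1 := by
  unfold N2
  exact b.orthonormal.1 _

theorem Lop_single (g : G) : Lop b (MonoidAlgebra.single g 1) = La b g := by
  rw [Lop_apply, MonoidAlgebra.coeff_single, Finsupp.sum_single_index]
  · rw [one_smul]
  · rw [zero_smul]

theorem N2_sub_mul_le (a x y : Elt (LK b)) (h1 : star a * a = 1) (h2 : a * star a = 1) :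
    N2 b (a * y - y * a) ≤ N2 b (a * x - x * a) + 2 * N2 b (x - y) := by
  have h3 : a * y - y * a = (a * x - x * a) + (-(a * (x - y)) + (x - y) * a) := by
    noncomm_ring
  rw [h3]
  refine (N2_add b _ _).trans ?_
  have h4 := N2_add b (-(a * (x - y))) ((x - y) * a)
  have h5 : N2 b (-(a * (x - y))) = N2 b (x - y) := by
    have : N2 b (-(a * (x - y))) = N2 b (a * (x - y)) := by
      unfold N2
      show ‖-(((a * (x - y) : Elt (LK b)) : K →L[ℂ] K) (b 1))‖ = _
      rw [norm_neg]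
    rw [this, N2_unit_left b a _ h1]
  rw [h5, N2_unit_right b a _ h2] at h4
  linarith

end

end Pool.Agent.Helper463.BC
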