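import Mathlib

set_option autoImplicit false

namespace Pool.Agent.Helper463.BC

theorem cs_aux {B : Type*} [Ring B] [StarRing B] [Algebra ℂ B] [StarModule ℂ B]
    (ω : B →ₗ[ℂ] ℂ)
    (hpos : ∀ x, 0 ≤ (ω (star x * x)).re ∧ (ω (star x * x)).im = 0) (x y : B) :
    ‖ω (star x * y)‖ ^ 2 ≤ (ω (star x * x)).re * (ω (star y * y)).re := by
  have hexp : ∀ t : ℂ, ω (star (x - t • y) * (x - t • y)) =
      ω (star x * x) - t * ω (star x * y) - (starRingEnd ℂ) t * ω (star y * x) +
        (starRingEnd ℂ) t * t * ω (star y * y) := by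
    intro t
    have h1 : star (x - t • y) * (x - t • y) = star x * x - t • (star x * y) -
        (starRingEnd ℂ t) • (star y * x) + ((starRingEnd ℂ t) * t) • (star y * y) := by
      rw [star_sub, star_smul, sub_mul, mul_sub, mul_sub, mul_smul_comm, smul_mul_assoc,
        smul_mul_assoc, mul_smul_comm, smul_smul]
      simp only [RCLike.star_def]
      abel
    rw [h1, map_add, map_sub, map_sub, map_smul, map_smul, map_smul]
    simp only [smul_eq_mul]
  obtain ⟨a, ha⟩ : ∃ a, a = ω (star x * x) := ⟨_, rfl⟩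
  obtain ⟨b, hb⟩ : ∃ b, b = ω (star y * y) := ⟨_, rfl⟩
  obtain ⟨z, hz⟩ : ∃ z, z = ω (star x * y) := ⟨_, rfl⟩
  obtain ⟨z', hz'⟩ : ∃ z', z' = ω (star y * x) := ⟨_, rfl⟩
  simp only [← ha, ← hb, ← hz, ← hz'] at hexp
  have ha0 := hpos x
  have hb0 := hpos y
  rw [← ha] at ha0
  rw [← hb] at hb0
  rw [← ha, ← hb, ← hz]
  have hherm : z' = (starRingEnd ℂ) z := by
    have e1 := (hpos (x - (-1 : ℂ) • y)).2
    have e2 := (hpos (x - Complex.I • y)).2
    rw [hexp] at e1 e2
    simp only [map_neg, map_one, Complex.conj_I] at e1 e2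
    apply Complex.ext
    · simp at e2
      rw [Complex.conj_re]
      have := ha0.2
      have := hb0.2
      linarith
    · simp at e1
      rw [Complex.conj_im]
      have := ha0.2
      have := hb0.2
      linarith
  have hn : ‖z‖ ^ 2 = z.re ^ 2 + z.im ^ 2 := by
    rw [Complex.sq_norm, Complex.normSq_apply]
    ring
  have hs : ∀ s : ℝ, 0 ≤ a.re - 2 * s * ‖z‖ ^ 2 + s ^ 2 * ‖z‖ ^ 2 * b.re := by
    intro s
    have h1 := (hpos (x - ((s : ℂ) * (starRingEnd ℂ) z) • y)).1
    rw [hexp, hherm] at h1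
    have h2 : (a - (s : ℂ) * (starRingEnd ℂ) z * z -
        (starRingEnd ℂ) ((s : ℂ) * (starRingEnd ℂ) z) * (starRingEnd ℂ) z +
        (starRingEnd ℂ) ((s : ℂ) * (starRingEnd ℂ) z) * ((s : ℂ) * (starRingEnd ℂ) z) * b).re =
        a.re - 2 * s * ‖z‖ ^ 2 + s ^ 2 * ‖z‖ ^ 2 * b.re := by
      rw [hn]
      simp
      ring
    rw [h2] at h1
    exact h1
  rcases hb0.1.lt_or_eq with hbp | hb00
  · have h1 := hs (1 / b.re)
    have h2 : a.re - 2 * (1 / b.re) * ‖z‖ ^ 2 + (1 / b.re) ^ 2 * ‖z‖ ^ 2 * b.re =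
        a.re - ‖z‖ ^ 2 / b.re := by
      field_simp
      ring
    rw [h2, sub_nonneg, div_le_iff₀ hbp] at h1
    exact h1
  · rw [← hb00, mul_zero]
    by_contra hcon
    push Not at hcon
    have h1 := hs ((a.re + 1) / (2 * ‖z‖ ^ 2))
    rw [← hb00, mul_zero, add_zero] at h1
    have hz1 : ‖z‖ ≠ 0 := by
      intro h0
      rw [h0] at hcon
      norm_num at hcon
    have h2 : 2 * ((a.re + 1) / (2 * ‖z‖ ^ 2)) * ‖z‖ ^ 2 = a.re + 1 := by
      field_simp
    rw [h2] at h1
    linarith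

theorem state_invariance {B : Type*} [Ring B] [StarRing B] [Algebra ℂ B] [StarModule ℂ B]
    (ω : B →ₗ[ℂ] ℂ) (h1 : ω 1 = 1)
    (hpos : ∀ x, 0 ≤ (ω (star x * x)).re ∧ (ω (star x * x)).im = 0) (l w p : B)
    (hl : star l * l = 1) (hw : star w * w = 1) (hp : star p = p) (hpp : p * p = p) (c : ℝ)
    (hc0 : 0 ≤ c) (hc : (ω (star (l - w) * (l - w))).re ≤ c ^ 2) :
    ‖ω (star l * p * l) - ω (star w * p * w)‖ ≤ 2 * c := by
  have hle : ∀ v : B, star v * v = 1 → (ω (star (p * v) * (p * v))).re ≤ 1 := by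
    intro v hv
    have e1 : star (p * v) * (p * v) + star ((1 - p) * v) * ((1 - p) * v) = 1 := by
      rw [star_mul, star_mul, star_sub, star_one, hp]
      have e2 : star v * p * (p * v) = star v * p * v := by
        rw [← mul_assoc, mul_assoc (star v) p p, hpp]
      have e3 : star v * (1 - p) * ((1 - p) * v) = star v * v - star v * p * v := by
        have : (1 - p) * (1 - p) = 1 - p := by
          rw [mul_sub, sub_mul, sub_mul, one_mul, mul_one, one_mul, hpp, sub_self, sub_zero]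
        rw [← mul_assoc, mul_assoc (star v) (1 - p) (1 - p), this, mul_sub, mul_one, sub_mul]
      rw [e2, e3, hv]
      abel
    have e4 := congrArg ω e1
    rw [map_add, h1] at e4
    have e5 := congrArg Complex.re e4
    rw [Complex.add_re, Complex.one_re] at e5
    have e6 := (hpos ((1 - p) * v)).1
    linarith
  have hdec : ω (star l * p * l) - ω (star w * p * w) =
      ω (star (l - w) * (p * l)) + ω (star (p * w) * (l - w)) := by
    rw [← map_sub, ← map_add]
    congr 1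
    rw [star_mul, star_sub, hp]
    noncomm_ring
  have hb1 : ‖ω (star (l - w) * (p * l))‖ ≤ c := by
    have h2 := cs_aux ω hpos (l - w) (p * l)
    have h3 : ‖ω (star (l - w) * (p * l))‖ ^ 2 ≤ c ^ 2 := by
      refine h2.trans ?_
      calc _ ≤ c ^ 2 * 1 := mul_le_mul hc (hle l hl) (hpos _).1 (sq_nonneg c)
        _ = c ^ 2 := mul_one _
    exact le_of_sq_le_sq h3 hc0
  have hb2 : ‖ω (star (p * w) * (l - w))‖ ≤ c := by
    have h2 := cs_aux ω hpos (p * w) (l - w)
    have h3 : ‖ω (star (p * w) * (l - w))‖ ^ 2 ≤ c ^ 2 := by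
      refine h2.trans ?_
      calc _ ≤ 1 * c ^ 2 := mul_le_mul (hle w hw) hc (hpos _).1 zero_le_one
        _ = c ^ 2 := one_mul _
    exact le_of_sq_le_sq h3 hc0
  rw [hdec]
  calc _ ≤ _ := norm_add_le _ _
    _ ≤ c + c := add_le_add hb1 hb2
    _ = 2 * c := by ring

end Pool.Agent.Helper463.BC
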