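import Mathlib

set_option autoImplicit false

namespace Pool.Agent.Helper463.BC

/-- a countable `F₂`-set `W` exhausted by finite invariant sets, with finite sets `A` such that
`|A \ γ A| = |γ|` on arbitrarily large balls -/
structure WD where
  W : Type
  Φ : FreeGroup Bool →* Equiv.Perm W
  blk : ℕ → Finset W
  mono : Monotone blk
  exh : ∀ w, ∃ m, w ∈ blk m
  inv : ∀ m γ w, w ∈ blk m → Φ γ w ∈ blk m
  wall : ∀ R : ℕ, ∃ A : Finset W, ∀ γ : FreeGroup Bool, γ.norm ≤ R →
    ((A : Set W) \ (Φ γ '' (A : Set W))).ncard = γ.norm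

/-- the set `Ω = W × ℕ` -/
abbrev Om (d : WD) : Type := d.W × ℕ

/-- the action of `F₂` on `Ω` -/
def act (d : WD) : FreeGroup Bool →* Equiv.Perm (Om d) where
  toFun γ := Equiv.prodCongr (d.Φ γ) (Equiv.refl ℕ)
  map_one' := by
    ext x
    · simp
    · rfl
  map_mul' γ δ := by
    ext x
    · simp
    · rfl

theorem act_apply (d : WD) (γ : FreeGroup Bool) (x : Om d) : act d γ x = (d.Φ γ x.1, x.2) := rfl

/-- the group `G` of all pairs `(p, γ)`, `p` a permutation of `Ω` which agrees with `γ` outside a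
finite set -/
def GG (d : WD) : Subgroup (Equiv.Perm (Om d) × FreeGroup Bool) where
  carrier := {g | {x | g.1 x ≠ act d g.2 x}.Finite}
  one_mem' := by
    show {x : Om d | (1 : Equiv.Perm (Om d)) x ≠ act d 1 x}.Finite
    rw [map_one]
    simp
  mul_mem' := by
    intro g h hg hh
    have hg' : {x | g.1 x ≠ act d g.2 x}.Finite := hg
    have hh' : {x | h.1 x ≠ act d h.2 x}.Finite := hh
    show {x | (g * h).1 x ≠ act d (g * h).2 x}.Finite
    refine (hh'.union (hg'.preimage (f := h.1) h.1.injective.injOn)).subset ?_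
    intro x hx
    by_contra hcon
    simp only [Set.mem_union, Set.mem_ofPred_eq, Set.mem_preimage, not_or, not_not] at hcon
    apply hx
    show g.1 (h.1 x) = act d (g.2 * h.2) x
    rw [hcon.2, map_mul, Equiv.Perm.mul_apply, hcon.1]
  inv_mem' := by
    intro g hg
    have hg' : {x | g.1 x ≠ act d g.2 x}.Finite := hg
    show {x | (g⁻¹).1 x ≠ act d (g⁻¹).2 x}.Finite
    refine (hg'.preimage (f := act d g.2⁻¹) (act d g.2⁻¹).injective.injOn).subset ?_
    intro x hx
    by_contra hcon
    simp only [Set.mem_ofPred_eq, Set.mem_preimage, not_not] at hcon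
    apply hx
    show g.1⁻¹ x = act d g.2⁻¹ x
    rw [Equiv.Perm.inv_eq_iff_eq, hcon, ← Equiv.Perm.mul_apply, ← map_mul, mul_inv_cancel, map_one]
    rfl

/-- the support of `(p, γ)`: the points where `p` differs from `γ` -/
def sp (d : WD) (g : GG d) : Set (Om d) := {x | g.1.1 x ≠ act d g.1.2 x}

/-- the finite invariant sets `D_m` -/
def DD (d : WD) (m : ℕ) : Finset (Om d) := d.blk m ×ˢ Finset.range m

/-- the length of `(p, γ)` is the word length of `γ` -/
def LL (d : WD) (g : GG d) : ℕ := g.1.2.norm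

end Pool.Agent.Helper463.BC
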