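import Mathlib
import Pool.Agent.Helper463.BCAna

set_option autoImplicit false

open scoped InnerProductSpace ComplexOrder BoundedContinuousFunction ComplexConjugate
open Filter Topology

namespace Pool.Agent.Helper463.BC

open Pool.Agent.Helper278 Pool.Agent.Helper278.RG

universe v w

section

variable {G : Type v} [Group G] {K : Type w} [NormedAddCommGroup K] [InnerProductSpace ℂ K]
  [CompleteSpace K] (b : HilbertBasis G ℂ K)

/-- the dichotomy: an element with a large part far away from a finite set is moved by a unitary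
which almost commutes with a given finite set -/
def Dich : Prop :=
  ∀ (F₀ : Finset G) (ε : ℝ), 0 < ε → ∃ S : Finset G, ∀ (η : ℝ) (x : Elt (LK b)), 0 < η →
    η < tail b S x → ∃ a : Elt (LK b), star a * a = 1 ∧ a * star a = 1 ∧
      (∀ f ∈ F₀, N2 b (a * La b f - La b f * a) ≤ ε) ∧ η / 20 ≤ N2 b (a * x - x * a)

theorem exists_cos (C : ℕ) (ε : ℝ) (hε : 0 < ε) :
    ∃ c s : ℝ, c ^ 2 + s ^ 2 = 1 ∧ 0 < c ∧ c < 1 ∧ 2 - 2 * c ^ (2 * C) ≤ ε ^ 2 := by
  have h1 : Tendsto (fun c : ℝ => 2 - 2 * c ^ (2 * C)) (𝓝[<] 1) (𝓝 (2 - 2 * 1 ^ (2 * C))) := by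
    refine (Continuous.tendsto ?_ 1).mono_left nhdsWithin_le_nhds
    fun_prop
  have h2 : ∀ᶠ c : ℝ in 𝓝[<] 1, 2 - 2 * c ^ (2 * C) < ε ^ 2 := by
    refine (tendsto_order.1 h1).2 _ ?_
    rw [one_pow]
    have := sq_pos_of_pos hε
    linarith
  have h3 : ∀ᶠ c : ℝ in 𝓝[<] 1, 0 < c :=
    (lt_mem_nhds one_pos).filter_mono nhdsWithin_le_nhds
  obtain ⟨c, hc1, hc2, hc3⟩ := (h2.and (h3.and self_mem_nhdsWithin)).exists
  have hc3' : c < 1 := hc3
  refine ⟨c, Real.sqrt (1 - c ^ 2), ?_, hc2, hc3', hc1.le⟩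
  rw [Real.sq_sqrt (by nlinarith)]
  ring

theorem exists_M (c : ℝ) (h0 : 0 < c) (h1 : c < 1) : ∃ M : ℕ, ∀ l : ℕ, M < l →
    c ^ (2 * l) ≤ 1 / 2 := by
  obtain ⟨M, hM⟩ := exists_pow_lt_of_lt_one (show (0 : ℝ) < 1 / 2 by norm_num) h1
  refine ⟨M, fun l hl => ?_⟩
  refine le_trans ?_ hM.le
  exact pow_le_pow_of_le_one h0.le h1.le (by omega)

theorem cf_La_mul (g : G) (x : Elt (LK b)) (k : G) : cf b (La b g * x) k = cf b x (g⁻¹ * k) := by
  unfold cf
  show ⟪b k, lamK b g ((x : K →L[ℂ] K) (b 1))⟫_ℂ = _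
  unfold lamK
  rw [coef_permK]
  rfl

theorem cf_mul_La (g : G) (x : Elt (LK b)) (k : G) : cf b (x * La b g) k = cf b x (k * g⁻¹) := by
  unfold cf
  show ⟪b k, (x : K →L[ℂ] K) (lamK b g (b 1))⟫_ℂ = _
  rw [lamK_basis, mul_one, coef_apply b x x.2]

theorem dich {L : G → ℕ} (hI : TypeI G L) (hII : TypeII G L) : Dich b := by
  classical
  intro F₀ ε hε
  obtain ⟨c, s, hcs, hc0, hc1, hcε⟩ := exists_cos (F₀.sup L) ε hε
  obtain ⟨M, hM⟩ := exists_M c hc0 hc1
  obtain ⟨S, hS⟩ := hII F₀ M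
  refine ⟨S, fun η x hη hx => ?_⟩
  obtain ⟨T, hST, hT⟩ := exists_tail b (S ∪ F₀) x (η / 100) (by positivity)
  have hT0 := tail_nonneg b T x
  have hT2 : tail b T x ^ 2 ≤ (η / 100) ^ 2 := pow_le_pow_left₀ hT0 hT 2
  have hS2 : η ^ 2 ≤ tail b S x ^ 2 := pow_le_pow_left₀ hη.le hx.le 2
  have hsum : η ^ 2 - (η / 100) ^ 2 ≤ ∑ g ∈ T \ S, ‖cf b x g‖ ^ 2 := by
    have h1 := tail_sq b T x
    have h2 := tail_sq b S x
    have h3 := Finset.sum_sdiff (f := fun g => ‖cf b x g‖ ^ 2)
      (Finset.union_subset_left hST)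
    linarith
  rw [← Finset.sum_filter_add_sum_filter_not (T \ S) (fun g => M < L g)] at hsum
  by_cases hcase : 49 / 100 * η ^ 2 ≤ ∑ g ∈ (T \ S).filter (fun g => M < L g), ‖cf b x g‖ ^ 2
  · -- type I
    obtain ⟨v, v', hv, h1, h2, h3⟩ := hI T c s hcs
    have hst : st v = v' := by
      apply MonoidAlgebra.ext
      apply Finsupp.ext
      intro g
      rw [coeff_st, hv]
    have ha1 : star (Lop b v) * Lop b v = 1 := by
      rw [star_Lop, hst, ← map_mul, h1, map_one]
    have ha2 : Lop b v * star (Lop b v) = 1 := by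
      rw [star_Lop, hst, ← map_mul, h2, map_one]
    refine ⟨Lop b v, ha1, ha2, ?_, ?_⟩
    · intro f hf
      have hfT : f ∈ T := hST (Finset.mem_union_right _ hf)
      rw [← N2_unit_left b (star (Lop b v)) _ (by rw [star_star]; exact ha2)]
      have h4 : star (Lop b v) * (Lop b v * La b f - La b f * Lop b v) =
          La b f - star (Lop b v) * La b f * Lop b v := by
        rw [mul_sub, ← mul_assoc, ha1, one_mul, mul_assoc]
      rw [h4]
      have h5 : N2 b (star (Lop b v) * La b f * Lop b v) = 1 := by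
        rw [N2_unit_right b _ _ ha2, N2_unit_left b _ _ (by rw [star_star]; exact ha2), N2_La]
      have h6 : cf b (star (Lop b v) * La b f * Lop b v) f = ((c ^ (2 * L f) : ℝ) : ℂ) := by
        rw [star_Lop, hst, ← Lop_single, ← map_mul, ← map_mul, cf_Lop, h3 f hfT f hfT, if_pos rfl]
      have h7 : N2 b (La b f - star (Lop b v) * La b f * Lop b v) ^ 2 = 2 - 2 * c ^ (2 * L f) := by
        have h8 := norm_sub_sq (𝕜 := ℂ) (((La b f : Elt (LK b)) : K →L[ℂ] K) (b 1))
          (((star (Lop b v) * La b f * Lop b v : Elt (LK b)) : K →L[ℂ] K) (b 1))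
        have h9 : ((La b f : Elt (LK b)) : K →L[ℂ] K) (b 1) = b f := by
          show lamK b f (b 1) = b f
          rw [lamK_basis, mul_one]
        have h10 : ‖((La b f : Elt (LK b)) : K →L[ℂ] K) (b 1)‖ = 1 := N2_La b f
        have h11 : ‖((star (Lop b v) * La b f * Lop b v : Elt (LK b)) : K →L[ℂ] K) (b 1)‖ = 1 := h5
        have h12 : ⟪((La b f : Elt (LK b)) : K →L[ℂ] K) (b 1),
            ((star (Lop b v) * La b f * Lop b v : Elt (LK b)) : K →L[ℂ] K) (b 1)⟫_ℂ =
              ((c ^ (2 * L f) : ℝ) : ℂ) := by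
          rw [h9]
          exact h6
        rw [h10, h11, h12] at h8
        have h13 : RCLike.re (((c ^ (2 * L f) : ℝ) : ℂ)) = c ^ (2 * L f) := Complex.ofReal_re _
        rw [h13] at h8
        have h14 : N2 b (La b f - star (Lop b v) * La b f * Lop b v) =
          ‖((La b f : Elt (LK b)) : K →L[ℂ] K) (b 1) -
            ((star (Lop b v) * La b f * Lop b v : Elt (LK b)) : K →L[ℂ] K) (b 1)‖ := rfl
        rw [h14, h8]
        ring
      have h15 : c ^ (2 * F₀.sup L) ≤ c ^ (2 * L f) :=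
        pow_le_pow_of_le_one hc0.le hc1.le (Nat.mul_le_mul_left 2 (Finset.le_sup hf))
      have h16 : N2 b (La b f - star (Lop b v) * La b f * Lop b v) ^ 2 ≤ ε ^ 2 := by
        rw [h7]
        linarith
      exact (pow_le_pow_iff_left₀ (norm_nonneg _) hε.le two_ne_zero).1 h16
    · -- lower bound
      set y : Elt (LK b) := Lop b (trunc b T x) with hy
      have h4 := N2_sub_mul_le b (Lop b v) x y ha1 ha2
      have h5 : N2 b (x - y) = tail b T x := rfl
      have h6 : N2 b (Lop b v * y - y * Lop b v) = N2 b (y - star (Lop b v) * y * Lop b v) := by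
        rw [← N2_unit_left b (star (Lop b v)) _ (by rw [star_star]; exact ha2)]
        congr 1
        rw [mul_sub, ← mul_assoc, ha1, one_mul, mul_assoc]
      have h7 : ∀ g ∈ T, cf b (y - star (Lop b v) * y * Lop b v) g =
          cf b x g * ((1 - c ^ (2 * L g) : ℝ) : ℂ) := by
        intro g hg
        rw [cf_sub, hy, cf_Lop, star_Lop, hst, ← map_mul, ← map_mul, cf_Lop, coeff_trunc, if_pos hg]
        have h8 : v' * trunc b T x * v = ∑ g' ∈ T, (cf b x g') • (v' * MonoidAlgebra.single g' 1 * v) := by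
          unfold trunc
          rw [Finset.mul_sum, Finset.sum_mul]
          refine Finset.sum_congr rfl fun g' _ => ?_
          rw [← smul_mul_assoc, ← mul_smul_comm]
          congr 2
          apply MonoidAlgebra.ext
          apply Finsupp.ext
          intro k
          rw [MonoidAlgebra.coeff_smul, Finsupp.smul_apply, MonoidAlgebra.coeff_single,
            MonoidAlgebra.coeff_single, Finsupp.single_apply, Finsupp.single_apply]
          split_ifs <;> simp
        rw [h8, MonoidAlgebra.coeff_sum, Finsupp.finsetSum_apply, Finset.sum_eq_single g]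
        · rw [MonoidAlgebra.coeff_smul, Finsupp.smul_apply, h3 g hg g hg, if_pos rfl, smul_eq_mul]
          push_cast
          ring
        · intro g' hg' hne
          rw [MonoidAlgebra.coeff_smul, Finsupp.smul_apply, h3 g' hg' g hg, if_neg (Ne.symm hne),
            smul_zero]
        · exact fun h => absurd hg h
      have h8 := sum_cf_le b (y - star (Lop b v) * y * Lop b v)
        ((T \ S).filter (fun g => M < L g))
      have h9 : 1 / 4 * ∑ g ∈ (T \ S).filter (fun g => M < L g), ‖cf b x g‖ ^ 2 ≤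
          ∑ g ∈ (T \ S).filter (fun g => M < L g),
            ‖cf b (y - star (Lop b v) * y * Lop b v) g‖ ^ 2 := by
        rw [Finset.mul_sum]
        refine Finset.sum_le_sum fun g hg => ?_
        rw [Finset.mem_filter, Finset.mem_sdiff] at hg
        rw [h7 g hg.1.1, norm_mul, mul_pow]
        have h10 := hM (L g) hg.2
        have h11 : ‖((1 - c ^ (2 * L g) : ℝ) : ℂ)‖ ^ 2 = (1 - c ^ (2 * L g)) ^ 2 := by
          rw [Complex.norm_real, Real.norm_eq_abs, sq_abs]
        rw [h11]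
        have h12 : 1 / 4 ≤ (1 - c ^ (2 * L g)) ^ 2 := by nlinarith
        nlinarith [sq_nonneg ‖cf b x g‖]
      have h10 : (34 / 100 * η) ^ 2 ≤ N2 b (y - star (Lop b v) * y * Lop b v) ^ 2 := by
        refine le_trans ?_ (h9.trans h8)
        nlinarith [sq_nonneg η]
      have h11 : 34 / 100 * η ≤ N2 b (y - star (Lop b v) * y * Lop b v) :=
        (pow_le_pow_iff_left₀ (by positivity) (norm_nonneg _) two_ne_zero).1 h10
      rw [h5] at h4
      rw [h6] at h4
      linarith
  · -- type II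
    push Not at hcase
    obtain ⟨κ, hκ1, hκ2⟩ := hS T
    have ha1 : star (La b κ) * La b κ = 1 := by
      rw [star_La, La_mul, inv_mul_cancel, La_one]
    have ha2 : La b κ * star (La b κ) = 1 := by
      rw [star_La, La_mul, mul_inv_cancel, La_one]
    refine ⟨La b κ, ha1, ha2, ?_, ?_⟩
    · intro f hf
      rw [La_mul, La_mul, hκ1 f hf, sub_self]
      unfold N2
      show ‖((0 : K →L[ℂ] K)) (b 1)‖ ≤ ε
      simpa using hε.le
    · set A := (T \ S).filter (fun g => ¬ M < L g) with hA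
      have hA2 : 5 / 10 * η ^ 2 ≤ ∑ g ∈ A, ‖cf b x g‖ ^ 2 := by nlinarith
      have hAm : ∀ g ∈ A, g ∈ T ∧ g ∉ S ∧ L g ≤ M := by
        intro g hg
        rw [hA, Finset.mem_filter, Finset.mem_sdiff] at hg
        exact ⟨hg.1.1, hg.1.2, not_lt.1 hg.2⟩
      have h4 : N2 b (La b κ * x - x * La b κ) = N2 b (x - star (La b κ) * x * La b κ) := by
        rw [← N2_unit_left b (star (La b κ)) _ (by rw [star_star]; exact ha2)]
        congr 1
        rw [mul_sub, ← mul_assoc, ha1, one_mul, mul_assoc]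
      have h5 : ∀ g, cf b (x - star (La b κ) * x * La b κ) g = cf b x g - cf b x (κ * g * κ⁻¹) := by
        intro g
        rw [cf_sub, star_La, cf_mul_La, cf_La_mul, inv_inv, mul_assoc]
      have h6 := sum_cf_le b (x - star (La b κ) * x * La b κ) A
      have h7 : ∑ g ∈ A, ‖cf b x (κ * g * κ⁻¹)‖ ^ 2 ≤ tail b T x ^ 2 := by
        have h8 := sum_disj_le b T x (A.map (MulAut.conj κ).toEquiv.toEmbedding) (by
          rw [Finset.disjoint_left]
          intro g hg hgT
          rw [Finset.mem_map] at hg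
          obtain ⟨g', hg', rfl⟩ := hg
          obtain ⟨h1, h2, h3⟩ := hAm g' hg'
          exact hκ2 g' h1 h2 h3 hgT)
        rw [Finset.sum_map] at h8
        exact h8
      have h8 : ∑ g ∈ A, (1 / 2 * ‖cf b x g‖ ^ 2 - ‖cf b x (κ * g * κ⁻¹)‖ ^ 2) ≤
          ∑ g ∈ A, ‖cf b (x - star (La b κ) * x * La b κ) g‖ ^ 2 := by
        refine Finset.sum_le_sum fun g _ => ?_
        rw [h5]
        have h9 : ‖cf b x g‖ ≤ ‖cf b x g - cf b x (κ * g * κ⁻¹)‖ + ‖cf b x (κ * g * κ⁻¹)‖ := by
          have := norm_add_le (cf b x g - cf b x (κ * g * κ⁻¹)) (cf b x (κ * g * κ⁻¹))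
          rwa [sub_add_cancel] at this
        nlinarith [norm_nonneg (cf b x g), norm_nonneg (cf b x g - cf b x (κ * g * κ⁻¹)),
          norm_nonneg (cf b x (κ * g * κ⁻¹)),
          sq_nonneg (‖cf b x g - cf b x (κ * g * κ⁻¹)‖ - ‖cf b x (κ * g * κ⁻¹)‖)]
      rw [Finset.sum_sub_distrib, ← Finset.mul_sum] at h8
      have h9 : (η / 20) ^ 2 ≤ N2 b (x - star (La b κ) * x * La b κ) ^ 2 := by
        refine le_trans ?_ h6
        nlinarith [sq_nonneg η]
      rw [h4]
      exact (pow_le_pow_iff_left₀ (by positivity) (norm_nonneg _) two_ne_zero).1 h9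

end

end Pool.Agent.Helper463.BC
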