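import Mathlib
import Pool.Agent.Helper463.BCDefs

set_option autoImplicit false

namespace Pool.Agent.Helper463.BC


theorem bc_ball (M : ℕ) : {γ : FreeGroup Bool | γ.norm ≤ M}.Finite :=
  (List.finite_length_le (Bool × Bool) M).preimage (FreeGroup.toWord_injective.injOn)

theorem bc_inv (d : WD) (m : ℕ) (γ : FreeGroup Bool) (x : Om d) (hx : x ∈ DD d m) :
    act d γ x ∈ DD d m := by
  rw [act_apply]
  unfold DD at hx ⊢
  rw [Finset.mem_product] at hx ⊢
  exact ⟨d.inv m γ x.1 hx.1, hx.2⟩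

theorem bc_maps (d : WD) (m : ℕ) (g : GG d) (hg : sp d g ⊆ (DD d m : Set (Om d))) (x : Om d)
    (hx : x ∈ DD d m) : g.1.1 x ∈ DD d m := by
  by_contra hy
  have e : act d g.1.2 (act d g.1.2⁻¹ (g.1.1 x)) = g.1.1 x := by
    rw [← Equiv.Perm.mul_apply, ← map_mul, mul_inv_cancel, map_one]
    rfl
  have hz : act d g.1.2⁻¹ (g.1.1 x) ∉ DD d m := by
    intro hz
    have := bc_inv d m g.1.2 _ hz
    rw [e] at this
    exact hy this
  have h1 : g.1.1 (act d g.1.2⁻¹ (g.1.1 x)) = act d g.1.2 (act d g.1.2⁻¹ (g.1.1 x)) := by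
    by_contra hcon
    exact hz (hg hcon)
  rw [e] at h1
  have h2 := g.1.1.injective h1
  rw [h2] at hz
  exact hz hx

/-- only finitely many elements have length at most `M` and support in `D_m` -/
theorem finite_K (d : WD) (M m : ℕ) :
    {g : GG d | LL d g ≤ M ∧ sp d g ⊆ (DD d m : Set (Om d))}.Finite := by
  refine Set.Finite.of_finite_image
    (f := fun g : GG d => (g.1.2, fun x : {x // x ∈ DD d m} => g.1.1 x.1)) ?_ ?_
  · refine Set.Finite.subset ((bc_ball M).prod (Set.Finite.pi'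
      (fun _ : {x // x ∈ DD d m} => (DD d m).finite_toSet))) ?_
    rintro _ ⟨g, ⟨hg1, hg2⟩, rfl⟩
    exact ⟨hg1, fun x => bc_maps d m g hg2 x.1 x.2⟩
  · rintro g ⟨hg1, hg2⟩ g' ⟨hg1', hg2'⟩ h
    have h1 : g.1.2 = g'.1.2 := congrArg Prod.fst h
    have h2 := congrArg Prod.snd h
    apply Subtype.ext
    apply Prod.ext _ h1
    apply Equiv.ext
    intro x
    by_cases hx : x ∈ DD d m
    · exact congrFun h2 ⟨x, hx⟩
    · have e1 : g.1.1 x = act d g.1.2 x := by
        by_contra hcon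
        exact hx (hg2 hcon)
      have e2 : g'.1.1 x = act d g'.1.2 x := by
        by_contra hcon
        exact hx (hg2' hcon)
      rw [e1, e2, h1]

theorem bc_DD_mono (d : WD) {m m' : ℕ} (h : m ≤ m') : DD d m ⊆ DD d m' := by
  unfold DD
  exact Finset.product_subset_product (d.mono h) (Finset.range_mono h)

theorem bc_exh (d : WD) (x : Om d) : ∃ m, x ∈ DD d m := by
  obtain ⟨m, hm⟩ := d.exh x.1
  refine ⟨max m (x.2 + 1), ?_⟩
  unfold DD
  rw [Finset.mem_product]
  refine ⟨d.mono (le_max_left _ _) hm, ?_⟩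
  rw [Finset.mem_range]
  exact lt_of_lt_of_le (Nat.lt_succ_self _) (le_max_right _ _)

theorem bc_supp (d : WD) (T : Finset (GG d)) (m₀ : ℕ) :
    ∃ m, m₀ ≤ m ∧ ∀ g ∈ T, sp d g ⊆ (DD d m : Set (Om d)) := by
  classical
  have hU : (⋃ g ∈ (T : Set (GG d)), sp d g).Finite :=
    Set.Finite.biUnion T.finite_toSet (fun g _ => g.2)
  choose f hf using bc_exh d
  refine ⟨max m₀ (hU.toFinset.sup f), le_max_left _ _, ?_⟩
  intro g hg x hx
  have hxU : x ∈ hU.toFinset := by
    rw [Set.Finite.mem_toFinset]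
    exact Set.mem_biUnion (by exact_mod_cast hg) hx
  exact bc_DD_mono d (le_trans (Finset.le_sup (f := f) hxU) (le_max_right _ _)) (hf x)

/-- `G` is countable -/
theorem countable_GG (d : WD) : Countable (GG d) := by
  rw [← Set.countable_univ_iff]
  have h : (Set.univ : Set (GG d)) ⊆ ⋃ M : ℕ, ⋃ m : ℕ,
      {g : GG d | LL d g ≤ M ∧ sp d g ⊆ (DD d m : Set (Om d))} := by
    intro g _
    obtain ⟨m, -, hm⟩ := bc_supp d {g} 0
    rw [Set.mem_iUnion]
    refine ⟨LL d g, ?_⟩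
    rw [Set.mem_iUnion]
    exact ⟨m, le_rfl, hm g (Finset.mem_singleton_self g)⟩
  exact (Set.countable_iUnion fun M => Set.countable_iUnion fun m => (finite_K d M m).countable).mono h

/-- every finite subset of `G` is supported in some `D_m` -/
theorem exists_supp (d : WD) (T : Finset (GG d)) (m₀ : ℕ) :
    ∃ m, m₀ ≤ m ∧ ∀ g ∈ T, sp d g ⊆ (DD d m : Set (Om d)) :=
  bc_supp d T m₀

end Pool.Agent.Helper463.BC
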