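import Mathlib

set_option autoImplicit false

namespace Pool.Agent.Helper463.BC


theorem exists_ball_rep_fin (R : ℕ) : Finite {x : FreeGroup Bool // x.norm ≤ R} := by
  have h : Set.Finite {x : FreeGroup Bool | x.norm ≤ R} :=
    (List.finite_length_le (Bool × Bool) R).preimage FreeGroup.toWord_injective.injOn
  exact h.to_subtype

/-- the partial injection given by a generator -/
def exists_ball_rep_e (R : ℕ) (s : Bool) :
    {x : {x : FreeGroup Bool // x.norm ≤ R} // (FreeGroup.of s * x.1).norm ≤ R} ≃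
    {y : {x : FreeGroup Bool // x.norm ≤ R} // ((FreeGroup.of s)⁻¹ * y.1).norm ≤ R} where
  toFun x := ⟨⟨FreeGroup.of s * x.1.1, x.2⟩, by
    show ((FreeGroup.of s)⁻¹ * (FreeGroup.of s * x.1.1)).norm ≤ R
    rw [inv_mul_cancel_left]; exact x.1.2⟩
  invFun y := ⟨⟨(FreeGroup.of s)⁻¹ * y.1.1, y.2⟩, by
    show (FreeGroup.of s * ((FreeGroup.of s)⁻¹ * y.1.1)).norm ≤ R
    rw [mul_inv_cancel_left]; exact y.1.2⟩
  left_inv x := by
    apply Subtype.ext; apply Subtype.ext
    show (FreeGroup.of s)⁻¹ * (FreeGroup.of s * x.1.1) = x.1.1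
    rw [inv_mul_cancel_left]
  right_inv y := by
    apply Subtype.ext; apply Subtype.ext
    show FreeGroup.of s * ((FreeGroup.of s)⁻¹ * y.1.1) = y.1.1
    rw [mul_inv_cancel_left]

/-- a finite permutation representation of the free group on two generators which is injective on
the ball of radius `R` (orbit map of a base point) -/
theorem exists_ball_rep (R : ℕ) : ∃ (B : Type) (_ : Fintype B) (_ : DecidableEq B) (v₀ : B)
    (π : FreeGroup Bool →* Equiv.Perm B), ∀ x y : FreeGroup Bool, x.norm ≤ R → y.norm ≤ R →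
      π x v₀ = π y v₀ → x = y := by
  classical
  haveI := exists_ball_rep_fin R
  letI : Fintype {x : FreeGroup Bool // x.norm ≤ R} := Fintype.ofFinite _
  let v₀ : {x : FreeGroup Bool // x.norm ≤ R} := ⟨1, by simp⟩
  let σ : Bool → Equiv.Perm {x : FreeGroup Bool // x.norm ≤ R} := fun s =>
    (exists_ball_rep_e R s).extendSubtype
  have hσ : ∀ (s : Bool) (x : {x : FreeGroup Bool // x.norm ≤ R})
      (hx : (FreeGroup.of s * x.1).norm ≤ R), σ s x = ⟨FreeGroup.of s * x.1, hx⟩ := by
    intro s x hx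
    exact (exists_ball_rep_e R s).extendSubtype_apply_of_mem x hx
  have hσ' : ∀ (s : Bool) (x : {x : FreeGroup Bool // x.norm ≤ R})
      (hx : ((FreeGroup.of s)⁻¹ * x.1).norm ≤ R), (σ s)⁻¹ x = ⟨(FreeGroup.of s)⁻¹ * x.1, hx⟩ := by
    intro s x hx
    rw [Equiv.Perm.inv_eq_iff_eq]
    rw [hσ s ⟨(FreeGroup.of s)⁻¹ * x.1, hx⟩ (by
      show (FreeGroup.of s * ((FreeGroup.of s)⁻¹ * x.1)).norm ≤ R
      rw [mul_inv_cancel_left]; exact x.2)]
    apply Subtype.ext
    show x.1 = FreeGroup.of s * ((FreeGroup.of s)⁻¹ * x.1)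
    rw [mul_inv_cancel_left]
  have key : ∀ L : List (Bool × Bool), L.length ≤ R →
      ((FreeGroup.lift σ (FreeGroup.mk L)) v₀).1 = FreeGroup.mk L := by
    intro L
    induction L with
    | nil =>
      intro _
      rw [← FreeGroup.one_eq_mk, map_one]
      rfl
    | cons a L ih =>
      intro hL
      obtain ⟨s, b⟩ := a
      have hL' : L.length ≤ R := by simp at hL; omega
      have h1 := ih hL'
      have h2 : FreeGroup.mk ((s, b) :: L) = FreeGroup.mk [(s, b)] * FreeGroup.mk L := by
        rw [FreeGroup.mul_mk]; rfl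
      have h3 : (FreeGroup.mk ((s, b) :: L)).norm ≤ R := FreeGroup.norm_mk_le.trans hL
      rw [h2] at h3 ⊢
      rw [map_mul, Equiv.Perm.mul_apply]
      cases b with
      | true =>
        have h4 : FreeGroup.mk [(s, true)] = FreeGroup.of s := rfl
        rw [h4] at h3 ⊢
        rw [FreeGroup.lift_apply_of, hσ s _ (by rw [h1]; exact h3)]
        exact congrArg (fun z => FreeGroup.of s * z) h1
      | false =>
        have h4 : FreeGroup.mk [(s, false)] = (FreeGroup.of s)⁻¹ := rfl
        rw [h4] at h3 ⊢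
        rw [map_inv, FreeGroup.lift_apply_of, hσ' s _ (by rw [h1]; exact h3)]
        exact congrArg (fun z => (FreeGroup.of s)⁻¹ * z) h1
  refine ⟨{x : FreeGroup Bool // x.norm ≤ R}, inferInstance, inferInstance, v₀,
    FreeGroup.lift σ, ?_⟩
  intro x y hx hy hxy
  have h1 := key x.toWord hx
  have h2 := key y.toWord hy
  rw [FreeGroup.mk_toWord] at h1 h2
  rw [← h1, ← h2, hxy]


end Pool.Agent.Helper463.BC
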