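import Mathlib
import Pool.Agent.Helper463.BCDefs

set_option autoImplicit false

namespace Pool.Agent.Helper463.BC


/-- a transposition -/
def icc_sw (d : WD) [DecidableEq (Om d)] (x y : Om d) : GG d :=
  ⟨(Equiv.swap x y, 1), by
    show {z | Equiv.swap x y z ≠ act d 1 z}.Finite
    refine (Set.toFinite {x, y}).subset ?_
    intro z hz
    by_contra hcon
    simp only [Set.mem_insert_iff, Set.mem_singleton_iff, not_or] at hcon
    apply hz
    rw [Equiv.swap_apply_of_ne_of_ne hcon.1 hcon.2, map_one]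
    rfl⟩

theorem icc_ne (d : WD) : Nonempty d.W := by
  obtain ⟨A, hA⟩ := d.wall 1
  have h1 : (FreeGroup.of true).norm = 1 := FreeGroup.norm_of true
  have h := hA (FreeGroup.of true) (by rw [h1])
  rw [h1] at h
  have h2 : ((A : Set d.W) \ (d.Φ (FreeGroup.of true) '' (A : Set d.W))).Nonempty := by
    rw [Set.nonempty_iff_ne_empty]
    intro h0
    rw [h0, Set.ncard_empty] at h
    exact absurd h (by norm_num)
  exact ⟨h2.some⟩


theorem infinite_GG (d : WD) : Infinite (GG d) := by
  classical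
  obtain ⟨w⟩ := icc_ne d
  refine Infinite.of_injective (fun n : ℕ => icc_sw d (w, 0) (w, n + 1)) ?_
  intro m n hmn
  have h1 : (icc_sw d (w, 0) (w, m + 1)).1.1 (w, 0) = (icc_sw d (w, 0) (w, n + 1)).1.1 (w, 0) := by
    simp only at hmn
    rw [hmn]
  have h2 : Equiv.swap ((w, 0) : Om d) (w, m + 1) (w, 0) = Equiv.swap ((w, 0) : Om d) (w, n + 1) (w, 0) := h1
  rw [Equiv.swap_apply_left, Equiv.swap_apply_left] at h2
  have h3 := congrArg Prod.snd h2
  simp only at h3
  omega

/-- `G` has infinite conjugacy classes -/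
theorem icc_GG (d : WD) (g : GG d) (hg : g ≠ 1) :
    (Set.range fun h : GG d => h * g * h⁻¹).Infinite := by
  classical
  obtain ⟨⟨p, γ⟩, hp⟩ := g
  have hfin : {x | p x ≠ act d γ x}.Finite := hp
  obtain ⟨N, hN⟩ : ∃ N : ℕ, ∀ z : Om d, N ≤ z.2 → p z = act d γ z := by
    obtain ⟨B, hB⟩ := (hfin.image Prod.snd).bddAbove
    refine ⟨B + 1, fun z hz => ?_⟩
    by_contra hcon
    have := hB ⟨z, hcon, rfl⟩
    omega
  have hconj : ∀ (x y : Om d) (z : Om d),
      (icc_sw d x y * ⟨(p, γ), hp⟩ * (icc_sw d x y)⁻¹ : GG d).1.1 z =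
        Equiv.swap x y (p (Equiv.swap x y z)) := by
    intro x y z
    have e : (icc_sw d x y * ⟨(p, γ), hp⟩ * (icc_sw d x y)⁻¹ : GG d).1.1 =
        Equiv.swap x y * p * (Equiv.swap x y)⁻¹ := rfl
    rw [e, Equiv.swap_inv]
    rfl
  by_cases hγ : γ = 1
  · subst hγ
    obtain ⟨w⟩ := icc_ne d
    have hpne : p ≠ 1 := by
      intro h
      apply hg
      subst h
      rfl
    have hN1 : ∀ z : Om d, N ≤ z.2 → p z = z := by
      intro z hz
      rw [hN z hz, map_one]
      rfl
    obtain ⟨x, hx⟩ : ∃ x, p x ≠ x := by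
      by_contra hcon
      push Not at hcon
      exact hpne (Equiv.ext hcon)
    have hxy : ∀ n : ℕ, x ≠ ((w, N + n) : Om d) := by
      intro n h
      apply hx
      rw [h]
      exact hN1 _ (Nat.le_add_right _ _)
    have hpxy : ∀ n : ℕ, p x ≠ ((w, N + n) : Om d) := by
      intro n h
      have h1 : p ((w, N + n) : Om d) = (w, N + n) := hN1 _ (Nat.le_add_right _ _)
      rw [← h1] at h
      exact hxy n (p.injective h)
    refine Set.infinite_of_injective_forall_mem
      (f := fun n : ℕ => (icc_sw d x (w, N + n) * ⟨(p, 1), hp⟩ * (icc_sw d x (w, N + n))⁻¹ : GG d)) ?_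
      (fun n => ⟨_, rfl⟩)
    intro m n hmn
    by_contra hne
    have h1 := congrArg (fun q : GG d => q.1.1 ((w, N + n) : Om d)) hmn
    simp only at h1
    rw [hconj, hconj] at h1
    rw [Equiv.swap_apply_right, Equiv.swap_apply_of_ne_of_ne hx (hpxy n),
      Equiv.swap_apply_of_ne_of_ne (a := x) (b := ((w, N + m) : Om d)) (x := ((w, N + n) : Om d))
        (Ne.symm (hxy n)) (by
          intro h
          have := congrArg Prod.snd h
          simp only at this
          omega),
      hN1 _ (Nat.le_add_right _ _),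
      Equiv.swap_apply_of_ne_of_ne (a := x) (b := ((w, N + m) : Om d)) (x := ((w, N + n) : Om d))
        (Ne.symm (hxy n)) (by
          intro h
          have := congrArg Prod.snd h
          simp only at this
          omega)] at h1
    exact hpxy n h1.symm
  · obtain ⟨w, hw⟩ : ∃ w, d.Φ γ w ≠ w := by
      obtain ⟨A, hA⟩ := d.wall γ.norm
      have h := hA γ le_rfl
      have hpos : γ.norm ≠ 0 := by
        rw [Ne, FreeGroup.norm_eq_zero]
        exact hγ
      have h2 : ((A : Set d.W) \ (d.Φ γ '' (A : Set d.W))).Nonempty := by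
        rw [Set.nonempty_iff_ne_empty]
        intro h0
        rw [h0, Set.ncard_empty] at h
        exact hpos h.symm
      obtain ⟨w, hw1, hw2⟩ := h2
      exact ⟨w, fun h => hw2 ⟨w, hw1, h⟩⟩
    have hlev : ∀ k : ℕ, N ≤ k → p ((w, k) : Om d) = (d.Φ γ w, k) := by
      intro k hk
      rw [hN _ hk]
      rfl
    refine Set.infinite_of_injective_forall_mem
      (f := fun n : ℕ => (icc_sw d (w, N + 2 * n) (w, N + 2 * n + 1) * ⟨(p, γ), hp⟩ *
        (icc_sw d (w, N + 2 * n) (w, N + 2 * n + 1))⁻¹ : GG d)) ?_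
      (fun n => ⟨_, rfl⟩)
    intro m n hmn
    by_contra hne
    have h1 := congrArg (fun q : GG d => q.1.1 ((w, N + 2 * n) : Om d)) hmn
    simp only at h1
    rw [hconj, hconj] at h1
    have hfix : ∀ (k a b : ℕ), Equiv.swap ((w, a) : Om d) (w, b) (d.Φ γ w, k) = (d.Φ γ w, k) := by
      intro k a b
      refine Equiv.swap_apply_of_ne_of_ne ?_ ?_
      · intro h; exact hw (congrArg Prod.fst h)
      · intro h; exact hw (congrArg Prod.fst h)
    have hR : Equiv.swap ((w, N + 2 * n) : Om d) (w, N + 2 * n + 1) (p (Equiv.swap ((w, N + 2 * n) : Om d) (w, N + 2 * n + 1) (w, N + 2 * n))) = (d.Φ γ w, N + 2 * n + 1) := by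
      rw [Equiv.swap_apply_left, hlev _ (by omega), hfix]
    have hL : Equiv.swap ((w, N + 2 * m) : Om d) (w, N + 2 * m + 1) (p (Equiv.swap ((w, N + 2 * m) : Om d) (w, N + 2 * m + 1) (w, N + 2 * n))) = (d.Φ γ w, N + 2 * n) := by
      rw [Equiv.swap_apply_of_ne_of_ne (a := ((w, N + 2 * m) : Om d)) (b := ((w, N + 2 * m + 1) : Om d)) (x := ((w, N + 2 * n) : Om d)), hlev _ (by omega), hfix]
      · intro h
        have := congrArg Prod.snd h
        simp only at this
        omega
      · intro h
        have := congrArg Prod.snd h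
        simp only at this
        omega
    rw [hR, hL] at h1
    have h2 := congrArg Prod.snd h1
    simp only at h2
    omega

end Pool.Agent.Helper463.BC
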