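import Mathlib
import Pool.Agent.Helper463.BCDefs

set_option autoImplicit false

namespace Pool.Agent.Helper463.BC


/-- the swap of two levels -/
def tau_25880 (n : ℕ) (a : ZMod 2) : Equiv.Perm ℕ := if a = 0 then 1 else Equiv.swap n (n + 1)

theorem tau_zero_25880 (n : ℕ) : tau_25880 n 0 = 1 := if_pos rfl

theorem tau_add_25880 (n : ℕ) (a b : ZMod 2) :
    tau_25880 n (a + b) = tau_25880 n a * tau_25880 n b := by
  have h : ∀ a : ZMod 2, a = 0 ∨ a = 1 := by decide
  have h10 : ¬ (1 : ZMod 2) = 0 := by decide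
  have h11 : (1 : ZMod 2) + 1 = 0 := by decide
  rcases h a with rfl | rfl <;> rcases h b with rfl | rfl
  · rw [add_zero, tau_zero_25880, mul_one]
  · rw [zero_add, tau_zero_25880, one_mul]
  · rw [add_zero, tau_zero_25880, mul_one]
  · rw [h11, tau_zero_25880]
    unfold tau_25880
    rw [if_neg h10, Equiv.swap_mul_self]

theorem tau_ne_25880 (n : ℕ) {a : ZMod 2} (ha : a ≠ 0) : tau_25880 n a n = n + 1 := by
  unfold tau_25880
  rw [if_neg ha, Equiv.swap_apply_left]

theorem tau_fix_25880 (n : ℕ) (a : ZMod 2) {i : ℕ} (h1 : i ≠ n) (h2 : i ≠ n + 1) :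
    tau_25880 n a i = i := by
  unfold tau_25880
  split_ifs with h
  · rfl
  · exact Equiv.swap_apply_of_ne_of_ne h1 h2

theorem tau_lev_25880 (n : ℕ) (a : ZMod 2) {i : ℕ} (h : i = n ∨ i = n + 1) :
    tau_25880 n a i = n ∨ tau_25880 n a i = n + 1 := by
  unfold tau_25880
  split_ifs with h0
  · exact h
  · rcases h with rfl | rfl
    · right
      rw [Equiv.swap_apply_left]
    · left
      rw [Equiv.swap_apply_right]

/-- the permutation swapping levels over the support of `h` -/
def ph_25880 (d : WD) (n : ℕ) (h : d.W →₀ ZMod 2) : Equiv.Perm (Om d) :=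
  Equiv.prodShear (Equiv.refl d.W) (fun w => tau_25880 n (h w))

theorem ph_apply_25880 (d : WD) (n : ℕ) (h : d.W →₀ ZMod 2) (x : Om d) :
    ph_25880 d n h x = (x.1, tau_25880 n (h x.1) x.2) := rfl

theorem ph_zero_25880 (d : WD) (n : ℕ) : ph_25880 d n 0 = 1 := by
  apply Equiv.ext
  intro x
  rw [ph_apply_25880, Finsupp.zero_apply, tau_zero_25880]
  rfl

theorem ph_add_25880 (d : WD) (n : ℕ) (h h' : d.W →₀ ZMod 2) :
    ph_25880 d n (h + h') = ph_25880 d n h * ph_25880 d n h' := by
  apply Equiv.ext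
  intro x
  rw [Equiv.Perm.mul_apply, ph_apply_25880, ph_apply_25880, ph_apply_25880, Finsupp.add_apply,
    tau_add_25880]
  rfl

theorem ph_mem_25880 (d : WD) (n : ℕ) (h : d.W →₀ ZMod 2) :
    ((ph_25880 d n h, 1) : Equiv.Perm (Om d) × FreeGroup Bool) ∈ GG d := by
  classical
  show {x : Om d | ph_25880 d n h x ≠ act d 1 x}.Finite
  refine (Finset.finite_toSet (h.support ×ˢ ({n, n + 1} : Finset ℕ))).subset ?_
  intro x hx
  have hx' : ph_25880 d n h x ≠ act d 1 x := hx
  rw [map_one, Equiv.Perm.one_apply, ph_apply_25880] at hx'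
  rw [Finset.mem_coe, Finset.mem_product, Finsupp.mem_support_iff, Finset.mem_insert,
    Finset.mem_singleton]
  refine ⟨?_, ?_⟩
  · intro h0
    apply hx'
    rw [h0, tau_zero_25880]
    rfl
  · by_contra hcon
    rw [not_or] at hcon
    apply hx'
    rw [tau_fix_25880 n _ hcon.1 hcon.2]

/-- the homomorphism -/
def io_25880 (d : WD) (n : ℕ) : Multiplicative (d.W →₀ ZMod 2) →* GG d where
  toFun h := ⟨(ph_25880 d n (Multiplicative.toAdd h), 1), ph_mem_25880 d n _⟩
  map_one' := by
    apply Subtype.ext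
    show ((ph_25880 d n 0, 1) : Equiv.Perm (Om d) × FreeGroup Bool) = 1
    rw [ph_zero_25880]
    rfl
  map_mul' h h' := by
    apply Subtype.ext
    show ((ph_25880 d n (Multiplicative.toAdd h + Multiplicative.toAdd h'), 1) :
      Equiv.Perm (Om d) × FreeGroup Bool) =
      (ph_25880 d n (Multiplicative.toAdd h) * ph_25880 d n (Multiplicative.toAdd h'), 1 * 1)
    rw [ph_add_25880, mul_one]

theorem out_25880 (d : WD) (n : ℕ) (g : GG d) (hg : sp d g ⊆ (DD d n : Set (Om d))) (x : Om d)
    (hx : n ≤ x.2) : g.1.1 x = act d g.1.2 x := by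
  by_contra hcon
  have h1 : x ∈ (DD d n : Set (Om d)) := hg hcon
  rw [Finset.mem_coe, DD, Finset.mem_product, Finset.mem_range] at h1
  omega

/-- the elementary abelian group of swaps of the levels `n` and `n+1` -/
theorem exists_iota (d : WD) (n : ℕ) : ∃ ι : Multiplicative (d.W →₀ ZMod 2) →* GG d,
    (∀ g : GG d, sp d g ⊆ (DD d n : Set (Om d)) → ∀ w,
      g * ι (Multiplicative.ofAdd (Finsupp.single w 1)) =
        ι (Multiplicative.ofAdd (Finsupp.single (d.Φ g.1.2 w) 1)) * g) ∧
    ∀ g g' : GG d, sp d g ⊆ (DD d n : Set (Om d)) → sp d g' ⊆ (DD d n : Set (Om d)) →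
      ∀ h, ι h * g = g' → h = 1 := by
  classical
  refine ⟨io_25880 d n, ?_, ?_⟩
  · intro g hg w
    apply Subtype.ext
    apply Prod.ext
    · show g.1.1 * ph_25880 d n (Finsupp.single w 1) =
        ph_25880 d n (Finsupp.single (d.Φ g.1.2 w) 1) * g.1.1
      apply Equiv.ext
      intro x
      rw [Equiv.Perm.mul_apply, Equiv.Perm.mul_apply]
      by_cases hx : x.2 = n ∨ x.2 = n + 1
      · have h1 : g.1.1 x = act d g.1.2 x := out_25880 d n g hg x (by omega)
        have h2 : tau_25880 n ((Finsupp.single w (1 : ZMod 2)) x.1) x.2 = n ∨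
            tau_25880 n ((Finsupp.single w (1 : ZMod 2)) x.1) x.2 = n + 1 :=
          tau_lev_25880 n _ hx
        have h3 : g.1.1 (ph_25880 d n (Finsupp.single w 1) x) =
            act d g.1.2 (ph_25880 d n (Finsupp.single w 1) x) := by
          apply out_25880 d n g hg
          rw [ph_apply_25880]
          show n ≤ tau_25880 n ((Finsupp.single w (1 : ZMod 2)) x.1) x.2
          omega
        rw [h3, h1, act_apply, act_apply, ph_apply_25880, ph_apply_25880]
        have h4 : (Finsupp.single (d.Φ g.1.2 w) (1 : ZMod 2)) (d.Φ g.1.2 x.1) =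
            (Finsupp.single w (1 : ZMod 2)) x.1 := by
          rw [Finsupp.single_apply, Finsupp.single_apply]
          by_cases h5 : w = x.1
          · rw [if_pos h5, if_pos (by rw [h5])]
          · rw [if_neg h5, if_neg (fun h6 => h5 ((d.Φ g.1.2).injective h6))]
        show (d.Φ g.1.2 x.1, tau_25880 n ((Finsupp.single w (1 : ZMod 2)) x.1) x.2) =
          (d.Φ g.1.2 x.1, tau_25880 n ((Finsupp.single (d.Φ g.1.2 w) (1 : ZMod 2))
            (d.Φ g.1.2 x.1)) x.2)
        rw [h4]
      · rw [not_or] at hx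
        have h1 : ph_25880 d n (Finsupp.single w 1) x = x := by
          rw [ph_apply_25880, tau_fix_25880 n _ hx.1 hx.2]
        rw [h1]
        have h2 : ∀ j, (j = n ∨ j = n + 1) → (g.1.1 x).2 ≠ j := by
          intro j hj hcon
          have h3 : g.1.1 ((d.Φ g.1.2)⁻¹ (g.1.1 x).1, j) = g.1.1 x := by
            rw [out_25880 d n g hg _ (by show n ≤ j; omega), act_apply]
            apply Prod.ext
            · show d.Φ g.1.2 ((d.Φ g.1.2)⁻¹ (g.1.1 x).1) = (g.1.1 x).1
              exact Equiv.apply_symm_apply _ _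
            · exact hcon.symm
          have h4 := g.1.1.injective h3
          have h5 : x.2 = j := by rw [← h4]
          rcases hj with hj | hj
          · exact hx.1 (h5.trans hj)
          · exact hx.2 (h5.trans hj)
        rw [ph_apply_25880, tau_fix_25880 n _ (h2 n (Or.inl rfl)) (h2 (n + 1) (Or.inr rfl))]
    · show g.1.2 * 1 = 1 * g.1.2
      rw [mul_one, one_mul]
  · intro g g' hg hg' h hh
    have h1 : (Multiplicative.toAdd h) = 0 := by
      by_contra hne
      obtain ⟨w, hw⟩ := Finsupp.ne_iff.mp hne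
      rw [Finsupp.zero_apply] at hw
      have h2 := congrArg (fun z : GG d => z.1.2) hh
      have h2' : 1 * g.1.2 = g'.1.2 := h2
      rw [one_mul] at h2'
      have h3 := congrArg (fun z : GG d => z.1.1) hh
      have h3' : ph_25880 d n (Multiplicative.toAdd h) * g.1.1 = g'.1.1 := h3
      have h4 := congrArg (fun z : Equiv.Perm (Om d) => z ((d.Φ g.1.2)⁻¹ w, n)) h3'
      have h4' : ph_25880 d n (Multiplicative.toAdd h) (g.1.1 ((d.Φ g.1.2)⁻¹ w, n)) =
        g'.1.1 ((d.Φ g.1.2)⁻¹ w, n) := h4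
      rw [out_25880 d n g hg _ (le_refl n), out_25880 d n g' hg' _ (le_refl n), ← h2',
        act_apply] at h4'
      have h5 : d.Φ g.1.2 ((d.Φ g.1.2)⁻¹ w) = w := Equiv.apply_symm_apply _ _
      have h6 : ph_25880 d n (Multiplicative.toAdd h) (w, n) = (w, n) := by
        have h7 : (((d.Φ g.1.2) ((d.Φ g.1.2)⁻¹ w), n) : Om d) = (w, n) := by rw [h5]
        rw [← h7]
        exact h4'
      rw [ph_apply_25880] at h6
      have h8 := congrArg Prod.snd h6
      have h9 : tau_25880 n ((Multiplicative.toAdd h) w) n = n := h8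
      rw [tau_ne_25880 n hw] at h9
      omega
    exact h1

end Pool.Agent.Helper463.BC

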