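import Mathlib
import Pool.Agent.Helper463.BCDefs

set_option autoImplicit false

namespace Pool.Agent.Helper463.BC


theorem mem_DD (d : WD) (m : ℕ) (x : Om d) : x ∈ DD d m ↔ x.1 ∈ d.blk m ∧ x.2 < m := by
  unfold DD
  rw [Finset.mem_product, Finset.mem_range]

theorem blk_iff (d : WD) (m : ℕ) (γ : FreeGroup Bool) (w : d.W) :
    d.Φ γ w ∈ d.blk m ↔ w ∈ d.blk m := by
  constructor
  · intro h
    have h1 := d.inv m γ⁻¹ _ h
    rwa [← Equiv.Perm.mul_apply, ← map_mul, inv_mul_cancel, map_one, Equiv.Perm.one_apply] at h1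
  · exact d.inv m γ w

theorem act_mem_DD (d : WD) (m : ℕ) (γ : FreeGroup Bool) (x : Om d) :
    act d γ x ∈ DD d m ↔ x ∈ DD d m := by
  rw [mem_DD, mem_DD, act_apply, blk_iff]

/-- membership in the shell -/
def inS (d : WD) (m n : ℕ) (x : Om d) : Prop := x ∈ DD d n ∧ x ∉ DD d m

open Classical in
/-- the involution -/
noncomputable def kf (d : WD) (m n : ℕ) (x : Om d) : Om d :=
  if inS d m n x then (x.1, x.2 + n)
  else if n ≤ x.2 ∧ inS d m n (x.1, x.2 - n) then (x.1, x.2 - n) else x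

theorem inS_lt (d : WD) (m n : ℕ) (x : Om d) (h : inS d m n x) : x.2 < n :=
  ((mem_DD d n x).1 h.1).2

theorem inS_act (d : WD) (m n : ℕ) (γ : FreeGroup Bool) (x : Om d) :
    inS d m n (act d γ x) ↔ inS d m n x := by
  unfold inS
  rw [act_mem_DD, act_mem_DD]

theorem kf_inS (d : WD) (m n : ℕ) (x : Om d) (h : inS d m n x) :
    kf d m n x = (x.1, x.2 + n) := by
  unfold kf
  rw [if_pos h]

theorem kf_back (d : WD) (m n : ℕ) (x : Om d) (h1 : n ≤ x.2)
    (h2 : inS d m n (x.1, x.2 - n)) : kf d m n x = (x.1, x.2 - n) := by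
  unfold kf
  rw [if_neg (fun h => absurd (inS_lt d m n x h) (not_lt.2 h1)), if_pos ⟨h1, h2⟩]

theorem kf_else (d : WD) (m n : ℕ) (x : Om d) (h1 : ¬ inS d m n x)
    (h2 : ¬ (n ≤ x.2 ∧ inS d m n (x.1, x.2 - n))) : kf d m n x = x := by
  unfold kf
  rw [if_neg h1, if_neg h2]

theorem kf_kf (d : WD) (m n : ℕ) (x : Om d) : kf d m n (kf d m n x) = x := by
  by_cases h1 : inS d m n x
  · rw [kf_inS d m n x h1, kf_back d m n _ (Nat.le_add_left n x.2) (by simpa using h1)]
    simp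
  · by_cases h2 : n ≤ x.2 ∧ inS d m n (x.1, x.2 - n)
    · rw [kf_back d m n x h2.1 h2.2, kf_inS d m n _ h2.2]
      simp [Nat.sub_add_cancel h2.1]
    · rw [kf_else d m n x h1 h2, kf_else d m n x h1 h2]

/-- the involution as a permutation -/
noncomputable def kp (d : WD) (m n : ℕ) : Equiv.Perm (Om d) where
  toFun := kf d m n
  invFun := kf d m n
  left_inv := kf_kf d m n
  right_inv := kf_kf d m n

theorem kf_act (d : WD) (m n : ℕ) (γ : FreeGroup Bool) (x : Om d) :
    kf d m n (act d γ x) = act d γ (kf d m n x) := by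
  by_cases h1 : inS d m n x
  · rw [kf_inS d m n x h1, kf_inS d m n _ ((inS_act d m n γ x).2 h1)]
    rfl
  · have h1' : ¬ inS d m n (act d γ x) := fun h => h1 ((inS_act d m n γ x).1 h)
    have e : inS d m n ((act d γ x).1, (act d γ x).2 - n) ↔ inS d m n (x.1, x.2 - n) :=
      inS_act d m n γ (x.1, x.2 - n)
    by_cases h2 : n ≤ x.2 ∧ inS d m n (x.1, x.2 - n)
    · rw [kf_back d m n x h2.1 h2.2, kf_back d m n (act d γ x) h2.1 (e.2 h2.2)]
      rfl
    · rw [kf_else d m n x h1 h2, kf_else d m n (act d γ x) h1' (fun h => h2 ⟨h.1, e.1 h.2⟩)]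

theorem kf_id (d : WD) (m n : ℕ) (hmn : m ≤ n) (x : Om d) (hx : x ∈ DD d m) :
    kf d m n x = x := by
  have h := ((mem_DD d m x).1 hx).2
  exact kf_else d m n x (fun h' => h'.2 hx) (fun h' => absurd h'.1 (by omega))

theorem kf_notMem (d : WD) (m n : ℕ) (hmn : m ≤ n) (x : Om d) (hx : x ∉ DD d m) :
    kf d m n x ∉ DD d m := by
  intro h
  have h1 := kf_id d m n hmn _ h
  rw [kf_kf] at h1
  rw [← h1] at h
  exact hx h

theorem kp_mem (d : WD) (m n : ℕ) : (kp d m n, (1 : FreeGroup Bool)) ∈ GG d := by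
  show {x | kf d m n x ≠ act d 1 x}.Finite
  refine (((DD d n : Set (Om d)).toFinite).union
    ((DD d n : Set (Om d)).toFinite.image (fun x : Om d => (x.1, x.2 + n)))).subset ?_
  intro x hx
  have hx' : kf d m n x ≠ x := by
    intro e
    apply hx
    rw [e, map_one]
    rfl
  by_cases h1 : inS d m n x
  · exact Or.inl h1.1
  · by_cases h2 : n ≤ x.2 ∧ inS d m n (x.1, x.2 - n)
    · refine Or.inr ⟨(x.1, x.2 - n), h2.2.1, ?_⟩
      show (x.1, x.2 - n + n) = x
      rw [Nat.sub_add_cancel h2.1]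
    · exact absurd (kf_else d m n x h1 h2) hx'

/-- an involution that commutes with everything supported in `D_m` and moves everything supported in
`D_n` but not in `D_m` out of `D_n` -/
theorem exists_kappa (d : WD) (m n : ℕ) (hmn : m ≤ n) : ∃ κ : GG d,
    (∀ f : GG d, sp d f ⊆ (DD d m : Set (Om d)) → κ * f = f * κ) ∧
    ∀ g : GG d, sp d g ⊆ (DD d n : Set (Om d)) → ¬ sp d g ⊆ (DD d m : Set (Om d)) →
      ¬ sp d (κ * g * κ⁻¹) ⊆ (DD d n : Set (Om d)) := by
  refine ⟨⟨(kp d m n, 1), kp_mem d m n⟩, ?_, ?_⟩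
  · rintro ⟨⟨p, γ⟩, hf⟩ hsp
    have hoff : ∀ x, x ∉ DD d m → p x = act d γ x := by
      intro x hx
      by_contra hne
      exact hx (hsp (show x ∈ sp d ⟨(p, γ), hf⟩ from hne))
    have hon : ∀ x, x ∈ DD d m → p x ∈ DD d m := by
      intro x hx
      by_contra hn
      obtain ⟨y, hy⟩ : ∃ y, act d γ y = p x := ⟨(act d γ)⁻¹ (p x), by simp⟩
      have hyn : y ∉ DD d m := by
        intro h
        apply hn
        rw [← hy, act_mem_DD]
        exact h
      have h1 : p y = p x := by rw [hoff y hyn, hy]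
      rw [p.injective h1] at hyn
      exact hyn hx
    apply Subtype.ext
    refine Prod.ext ?_ ?_
    · show kp d m n * p = p * kp d m n
      apply Equiv.ext
      intro x
      show kf d m n (p x) = p (kf d m n x)
      by_cases hx : x ∈ DD d m
      · rw [kf_id d m n hmn x hx, kf_id d m n hmn _ (hon x hx)]
      · rw [hoff x hx, hoff _ (kf_notMem d m n hmn x hx), kf_act]
    · show 1 * γ = γ * 1
      rw [one_mul, mul_one]
  · rintro ⟨⟨p, γ⟩, hg⟩ hsp hnsp hcon
    rw [Set.not_subset] at hnsp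
    obtain ⟨x, hx, hxm⟩ := hnsp
    have hxn := hsp hx
    have hS : inS d m n x := ⟨hxn, hxm⟩
    have hne : p x ≠ act d γ x := hx
    have hy : kf d m n x ∈ sp d
        (⟨(kp d m n, 1), kp_mem d m n⟩ * ⟨(p, γ), hg⟩ * (⟨(kp d m n, 1), kp_mem d m n⟩ : GG d)⁻¹) := by
      show kf d m n (p (kf d m n (kf d m n x))) ≠ act d (1 * γ * 1⁻¹) (kf d m n x)
      rw [kf_kf, inv_one, mul_one, one_mul, ← kf_act]
      exact fun h => hne ((kp d m n).injective h)
    have h1 := hcon hy
    have h2 : kf d m n x ∈ DD d n := h1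
    rw [kf_inS d m n x hS, mem_DD] at h2
    exact absurd h2.2 (by simp)

end Pool.Agent.Helper463.BC
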