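import Mathlib

set_option autoImplicit false

namespace Pool.Agent.Helper463.BC

/-- the elementary abelian 2-group -/
abbrev EW (W : Type) := Multiplicative (W →₀ ZMod 2)

/-- the generators -/
noncomputable def ew {W : Type} (w : W) : EW W := Multiplicative.ofAdd (Finsupp.single w 1)

theorem ew_sq {W : Type} (h : EW W) : h * h = 1 := by
  change Multiplicative.ofAdd (Multiplicative.toAdd h + Multiplicative.toAdd h) =
    Multiplicative.ofAdd 0
  congr 1
  ext w
  rw [Finsupp.add_apply, Finsupp.zero_apply]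
  exact CharTwo.add_self_eq_zero _

/-- the factors -/
noncomputable def fac {W : Type} (c z : ℂ) (w : W) : MonoidAlgebra ℂ (EW W) :=
  MonoidAlgebra.single 1 c + MonoidAlgebra.single (ew w) z

theorem fac_mul {W : Type} (c z : ℂ) (w : W) (h : c ^ 2 - z ^ 2 = 1) :
    fac c (-z) w * fac c z w = 1 := by
  unfold fac
  rw [add_mul, mul_add, mul_add, MonoidAlgebra.single_mul_single, MonoidAlgebra.single_mul_single,
    MonoidAlgebra.single_mul_single, MonoidAlgebra.single_mul_single, ew_sq (ew w), one_mul,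
    one_mul, mul_one]
  have h1 : ∀ a b d e : MonoidAlgebra ℂ (EW W), a + b + (d + e) = (a + e) + (b + d) := by
    intro a b d e
    abel
  rw [h1, ← MonoidAlgebra.single_add, ← MonoidAlgebra.single_add]
  have h2 : c * c + -z * z = 1 := by linear_combination h
  have h3 : c * z + -z * c = 0 := by ring
  rw [h2, h3, MonoidAlgebra.single_zero, add_zero]
  rfl

theorem map_coeff {G W : Type} [Group G] (ι : EW W →* G) (x : MonoidAlgebra ℂ (EW W)) (g : G) :
    (MonoidAlgebra.mapDomainRingHom ℂ ι x).coeff g =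
      x.coeff.sum (fun h a => open Classical in if ι h = g then a else 0) := by
  classical
  change (Finsupp.mapDomain ι x.coeff) g = _
  rw [Finsupp.mapDomain, Finsupp.sum_apply]
  apply Finsupp.sum_congr
  intro h _
  rw [Finsupp.single_apply]

theorem prod_coeff {W : Type} (c : ℂ) (z : W → ℂ) (D : Finset W) :
    (∏ w ∈ D, fac c (z w) w).coeff 1 = c ^ D.card ∧
      ∀ (h : EW W) (w : W), w ∉ D → (∏ w ∈ D, fac c (z w) w).coeff h ≠ 0 →
        (Multiplicative.toAdd h) w = 0 := by
  classical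
  induction D using Finset.induction_on with
  | empty =>
    refine ⟨by simp, ?_⟩
    intro h w _ hh
    rw [Finset.prod_empty, MonoidAlgebra.one_def, MonoidAlgebra.coeff_single_apply] at hh
    by_cases h1 : (1 : EW W) = h
    · rw [← h1]
      rfl
    · rw [if_neg h1] at hh
      exact absurd rfl hh
  | insert a D ha ih =>
    obtain ⟨ih1, ih2⟩ := ih
    have key : ∀ h : EW W, (∏ w ∈ insert a D, fac c (z w) w).coeff h =
        c * (∏ w ∈ D, fac c (z w) w).coeff h +
          z a * (∏ w ∈ D, fac c (z w) w).coeff ((ew a)⁻¹ * h) := by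
      intro h
      rw [Finset.prod_insert ha]
      conv_lhs => rw [fac]
      rw [add_mul, MonoidAlgebra.coeff_add, Finsupp.add_apply,
        MonoidAlgebra.coeff_single_mul_apply, MonoidAlgebra.coeff_single_mul_apply, inv_one,
        one_mul]
    constructor
    · rw [key, ih1, Finset.card_insert_of_notMem ha]
      have h0 : (∏ w ∈ D, fac c (z w) w).coeff ((ew a)⁻¹ * 1) = 0 := by
        by_contra hne
        have h1 := ih2 _ a ha hne
        have h2 : (Multiplicative.toAdd ((ew a)⁻¹ * 1 : EW W)) a = (-1 : ZMod 2) := by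
          simp [ew]
        rw [h2] at h1
        exact absurd h1 (by decide)
      rw [h0]
      ring
    · intro h w hw hne
      rw [Finset.mem_insert, not_or] at hw
      rw [key] at hne
      by_cases h1 : (∏ w ∈ D, fac c (z w) w).coeff h = 0
      · have h2 : (∏ w ∈ D, fac c (z w) w).coeff ((ew a)⁻¹ * h) ≠ 0 := by
          intro h3
          rw [h1, h3] at hne
          simp at hne
        have h4 := ih2 _ w hw.2 h2
        have h5 : (Multiplicative.toAdd ((ew a)⁻¹ * h : EW W)) w =
            (Multiplicative.toAdd h) w := by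
          simp [ew, Finsupp.single_eq_of_ne hw.1]
        rw [h5] at h4
        exact h4
      · exact ih2 h w hw.2 h1

theorem semi_prod {G W : Type} [Group G] (ι : EW W →* G) (c z : ℂ) (g : G) (σ : Equiv.Perm W)
    (hσ : ∀ w, g * ι (ew w) = ι (ew (σ w)) * g) (A : Finset W) :
    MonoidAlgebra.single g 1 * MonoidAlgebra.mapDomainRingHom ℂ ι (∏ w ∈ A, fac c z w) =
      MonoidAlgebra.mapDomainRingHom ℂ ι (∏ w ∈ A, fac c z (σ w)) * MonoidAlgebra.single g 1 := by
  classical
  induction A using Finset.induction_on with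
  | empty => simp
  | insert a A ha ih =>
    rw [Finset.prod_insert ha, Finset.prod_insert ha, map_mul, map_mul]
    have h1 : MonoidAlgebra.single g 1 * MonoidAlgebra.mapDomainRingHom ℂ ι (fac c z a) =
        MonoidAlgebra.mapDomainRingHom ℂ ι (fac c z (σ a)) * MonoidAlgebra.single g (1 : ℂ) := by
      unfold fac
      rw [map_add, map_add, MonoidAlgebra.mapDomainRingHom_apply,
        MonoidAlgebra.mapDomainRingHom_apply, MonoidAlgebra.mapDomainRingHom_apply,
        MonoidAlgebra.mapDomain_single, MonoidAlgebra.mapDomain_single,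
        MonoidAlgebra.mapDomain_single, mul_add, add_mul, MonoidAlgebra.single_mul_single,
        MonoidAlgebra.single_mul_single, MonoidAlgebra.single_mul_single,
        MonoidAlgebra.single_mul_single, hσ a, map_one, mul_one, one_mul, mul_one, one_mul,
        mul_one, one_mul]
    rw [← mul_assoc, h1, mul_assoc, ih, mul_assoc]

theorem beta_coeff {W : Type} [DecidableEq W] (c z : ℂ) (hcz : c ^ 2 - z ^ 2 = 1)
    (A : Finset W) (σ : Equiv.Perm W) :
    ((∏ w ∈ A, fac c (-z) w) * (∏ w ∈ A, fac c z (σ w))).coeff 1 =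
      c ^ (2 * ((A : Set W) \ (σ '' (A : Set W))).ncard) := by
  obtain ⟨A', hA'⟩ : ∃ A' : Finset W, A' = A.map σ.toEmbedding := ⟨_, rfl⟩
  have h1 : ∏ w ∈ A, fac c z (σ w) = ∏ w ∈ A', fac c z w := by
    rw [hA', Finset.prod_map]
    rfl
  have h2 : ∏ w ∈ A, fac c (-z) w = (∏ w ∈ A \ A', fac c (-z) w) *
      ∏ w ∈ A ∩ A', fac c (-z) w := by
    rw [← Finset.prod_union (Finset.disjoint_sdiff_inter A A'), Finset.sdiff_union_inter]
  have h3 : ∏ w ∈ A', fac c z w = (∏ w ∈ A' \ A, fac c z w) *
      ∏ w ∈ A ∩ A', fac c z w := by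
    rw [Finset.inter_comm, ← Finset.prod_union (Finset.disjoint_sdiff_inter A' A),
      Finset.sdiff_union_inter]
  have h4 : (∏ w ∈ A ∩ A', fac c (-z) w) * ∏ w ∈ A ∩ A', fac c z w = 1 := by
    rw [← Finset.prod_mul_distrib]
    exact Finset.prod_eq_one (fun w _ => fac_mul c z w hcz)
  have hdisj : Disjoint (A \ A') (A' \ A) := by
    rw [Finset.disjoint_left]
    intro w hw hw'
    rw [Finset.mem_sdiff] at hw hw'
    exact hw.2 hw'.1
  have h5 : (∏ w ∈ A, fac c (-z) w) * (∏ w ∈ A, fac c z (σ w)) =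
      ∏ w ∈ (A \ A') ∪ (A' \ A), fac c ((fun w => if w ∈ A then -z else z) w) w := by
    rw [h1, h2, h3, Finset.prod_union hdisj]
    have e1 : ∏ w ∈ A \ A', fac c ((fun w => if w ∈ A then -z else z) w) w =
        ∏ w ∈ A \ A', fac c (-z) w := by
      apply Finset.prod_congr rfl
      intro w hw
      rw [Finset.mem_sdiff] at hw
      simp only [if_pos hw.1]
    have e2 : ∏ w ∈ A' \ A, fac c ((fun w => if w ∈ A then -z else z) w) w =
        ∏ w ∈ A' \ A, fac c z w := by
      apply Finset.prod_congr rfl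
      intro w hw
      rw [Finset.mem_sdiff] at hw
      simp only [if_neg hw.2]
    rw [e1, e2]
    linear_combination ((∏ w ∈ A \ A', fac c (-z) w) * ∏ w ∈ A' \ A, fac c z w) * h4
  rw [h5, (prod_coeff c _ _).1, Finset.card_union_of_disjoint hdisj]
  have hcard : A.card = A'.card := by rw [hA', Finset.card_map]
  have h6 : (A' \ A).card = (A \ A').card := (Finset.card_sdiff_comm hcard).symm
  have h7 : ((A : Set W) \ (σ '' (A : Set W))) = ((A \ A' : Finset W) : Set W) := by
    rw [Finset.coe_sdiff, hA', Finset.coe_map]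
    rfl
  rw [h7, Set.ncard_coe_finset, h6]
  congr 1
  ring

/-- the unitary `∏_{w ∈ A} (c + i s e_w)` of the group algebra and its conjugates -/
theorem exists_unitary {G : Type} [Group G] {W : Type}
    (ι : Multiplicative (W →₀ ZMod 2) →* G) (T : Finset G) (σ : G → Equiv.Perm W) (L : G → ℕ)
    (A : Finset W)
    (hσ : ∀ g ∈ T, ∀ w, g * ι (Multiplicative.ofAdd (Finsupp.single w 1)) =
      ι (Multiplicative.ofAdd (Finsupp.single (σ g w) 1)) * g)
    (hA : ∀ g ∈ T, ((A : Set W) \ (σ g '' (A : Set W))).ncard = L g)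
    (hι : ∀ g ∈ T, ∀ g' ∈ T, ∀ h, ι h * g = g' → h = 1)
    (c s : ℝ) (hcs : c ^ 2 + s ^ 2 = 1) :
    ∃ v v' : MonoidAlgebra ℂ G, (∀ g, v'.coeff g = (starRingEnd ℂ) (v.coeff g⁻¹)) ∧
      v' * v = 1 ∧ v * v' = 1 ∧ ∀ g ∈ T, ∀ g' ∈ T,
        (v' * MonoidAlgebra.single g 1 * v).coeff g' =
          open Classical in if g' = g then ((c ^ (2 * L g) : ℝ) : ℂ) else 0 := by
  classical
  obtain ⟨z, hz⟩ : ∃ z : ℂ, z = Complex.I * (s : ℂ) := ⟨_, rfl⟩
  have hcz : (c : ℂ) ^ 2 - z ^ 2 = 1 := by
    have h1 : ((c : ℂ)) ^ 2 + (s : ℂ) ^ 2 = 1 := by exact_mod_cast hcs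
    rw [hz, mul_pow, Complex.I_sq]
    linear_combination h1
  have hconjz : (starRingEnd ℂ) z = -z := by
    rw [hz, map_mul, Complex.conj_I, Complex.conj_ofReal]
    ring
  obtain ⟨u, hu⟩ : ∃ u : MonoidAlgebra ℂ (EW W), u = ∏ w ∈ A, fac (c : ℂ) z w := ⟨_, rfl⟩
  obtain ⟨u', hu'⟩ : ∃ u' : MonoidAlgebra ℂ (EW W), u' = ∏ w ∈ A, fac (c : ℂ) (-z) w := ⟨_, rfl⟩
  have huu : u' * u = 1 := by
    rw [hu, hu', ← Finset.prod_mul_distrib]
    exact Finset.prod_eq_one (fun w _ => fac_mul _ z w hcz)
  have hstar : u' = MonoidAlgebra.mapRingHom (EW W) (starRingEnd ℂ) u := by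
    rw [hu, hu', map_prod]
    apply Finset.prod_congr rfl
    intro w _
    unfold fac
    rw [map_add, MonoidAlgebra.mapRingHom_single, MonoidAlgebra.mapRingHom_single, hconjz,
      Complex.conj_ofReal]
  refine ⟨MonoidAlgebra.mapDomainRingHom ℂ ι u, MonoidAlgebra.mapDomainRingHom ℂ ι u',
    ?_, ?_, ?_, ?_⟩
  · intro g
    have h1 : MonoidAlgebra.mapDomainRingHom ℂ ι u' =
        MonoidAlgebra.mapRingHom G (starRingEnd ℂ) (MonoidAlgebra.mapDomainRingHom ℂ ι u) := by
      rw [hstar]
      exact (DFunLike.congr_fun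
        (MonoidAlgebra.mapRingHom_comp_mapDomainRingHom (starRingEnd ℂ) ι) u).symm
    rw [h1, MonoidAlgebra.coeff_mapRingHom, map_coeff, map_coeff]
    congr 1
    apply Finsupp.sum_congr
    intro h _
    have h2 : ι h = g ↔ ι h = g⁻¹ := by
      have h3 : ι h * ι h = 1 := by rw [← map_mul, ew_sq, map_one]
      rw [← inv_eq_iff_eq_inv, eq_comm (a := (ι h)⁻¹), ← eq_inv_of_mul_eq_one_left h3, eq_comm]
    simp only [h2]
  · rw [← map_mul, huu, map_one]
  · rw [← map_mul, mul_comm, huu, map_one]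
  · intro g hg g' hg'
    have h1 : MonoidAlgebra.mapDomainRingHom ℂ ι u' * MonoidAlgebra.single g 1 *
        MonoidAlgebra.mapDomainRingHom ℂ ι u =
        MonoidAlgebra.mapDomainRingHom ℂ ι (u' * ∏ w ∈ A, fac (c : ℂ) z (σ g w)) *
          MonoidAlgebra.single g 1 := by
      rw [mul_assoc, hu, semi_prod ι c z g (σ g) (fun w => hσ g hg w) A, map_mul, mul_assoc]
    rw [h1, MonoidAlgebra.coeff_mul_single_apply, mul_one, map_coeff]
    by_cases hgg : g' = g
    · subst hgg
      rw [if_pos rfl]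
      rw [Finsupp.sum, Finset.sum_eq_single 1]
      · rw [map_one, mul_inv_cancel, if_pos rfl, hu', beta_coeff _ _ hcz, hA g' hg]
        push_cast
        rfl
      · intro h _ hh
        rw [if_neg]
        intro h2
        exact hh (hι g' hg g' hg h (by rw [h2]; group))
      · intro h2
        rw [Finsupp.notMem_support_iff] at h2
        simp [h2]
    · rw [if_neg hgg]
      rw [Finsupp.sum]
      apply Finset.sum_eq_zero
      intro h _
      rw [if_neg]
      intro h2
      have h3 := hι g hg g' hg' h (by rw [h2]; group)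
      rw [h3, map_one, eq_comm, mul_inv_eq_one] at h2
      exact hgg h2

end Pool.Agent.Helper463.BC
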