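import Mathlib

set_option autoImplicit false

namespace Pool.Agent.Helper463.BC


namespace W25806

variable {B : Type} [DecidableEq B]

omit [DecidableEq B] in
theorem perm_ia (e : Equiv.Perm B) (x : B) : e⁻¹ (e x) = x := e.symm_apply_apply x

omit [DecidableEq B] in
theorem perm_ai (e : Equiv.Perm B) (x : B) : e (e⁻¹ x) = x := e.apply_symm_apply x

/-- the action of a generator -/
def gen (v₀ : B) (π : FreeGroup Bool →* Equiv.Perm B) (s : Bool) :
    Equiv.Perm (B × Bool × ZMod 2) where
  toFun p := (π (FreeGroup.of s) p.1, p.2.1, p.2.2 + if (π (FreeGroup.of s) p.1 = v₀ ∧ p.2.1 = s) then 1 else 0)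
  invFun p := ((π (FreeGroup.of s))⁻¹ p.1, p.2.1, p.2.2 - if (p.1 = v₀ ∧ p.2.1 = s) then 1 else 0)
  left_inv p := by simp
  right_inv p := by simp

/-- the representation -/
def phi (v₀ : B) (π : FreeGroup Bool →* Equiv.Perm B) :
    FreeGroup Bool →* Equiv.Perm (B × Bool × ZMod 2) := FreeGroup.lift (gen v₀ π)

/-- the cocycle -/
def cc (v₀ : B) (π : FreeGroup Bool →* Equiv.Perm B) (g : FreeGroup Bool) (w : B) (t : Bool) :
    ZMod 2 := (phi v₀ π g ((π g)⁻¹ w, t, 0)).2.2

theorem phi_of (v₀ : B) (π : FreeGroup Bool →* Equiv.Perm B) (s : Bool) :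
    phi v₀ π (FreeGroup.of s) = gen v₀ π s := by
  simp [phi]

theorem gen_inv_apply (v₀ : B) (π : FreeGroup Bool →* Equiv.Perm B) (s : Bool) (v : B) (t : Bool)
    (i : ZMod 2) : (gen v₀ π s)⁻¹ (v, t, i) =
      ((π (FreeGroup.of s))⁻¹ v, t, i - if (v = v₀ ∧ t = s) then 1 else 0) := rfl

theorem phi_key (v₀ : B) (π : FreeGroup Bool →* Equiv.Perm B) (g : FreeGroup Bool) :
    ∀ (v : B) (t : Bool) (i : ZMod 2), phi v₀ π g (v, t, i) =
      (π g v, t, i + (phi v₀ π g (v, t, 0)).2.2) := by
  induction g using FreeGroup.induction_on with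
  | C1 => intro v t i; simp
  | of s =>
    intro v t i
    rw [phi_of]
    simp [gen]
  | inv_of s _ =>
    intro v t i
    rw [map_inv, phi_of, map_inv, gen_inv_apply, gen_inv_apply]
    simp [sub_eq_add_neg]
  | mul x y hx hy =>
    intro v t i
    rw [map_mul, Equiv.Perm.mul_apply, Equiv.Perm.mul_apply, hy v t i, hy v t 0, hx, hx _ _ (0 + _),
      map_mul, Equiv.Perm.mul_apply]
    simp only [zero_add, Prod.mk.injEq, true_and]
    ring

theorem phi_apply (v₀ : B) (π : FreeGroup Bool →* Equiv.Perm B) (g : FreeGroup Bool)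
    (v : B) (t : Bool) (i : ZMod 2) :
    phi v₀ π g (v, t, i) = (π g v, t, i + cc v₀ π g (π g v) t) := by
  rw [phi_key]
  unfold cc
  rw [perm_ia]

theorem cc_one (v₀ : B) (π : FreeGroup Bool →* Equiv.Perm B) (w : B) (t : Bool) :
    cc v₀ π 1 w t = 0 := by
  simp [cc]

theorem cc_mul (v₀ : B) (π : FreeGroup Bool →* Equiv.Perm B) (g h : FreeGroup Bool)
    (w : B) (t : Bool) :
    cc v₀ π (g * h) w t = cc v₀ π g w t + cc v₀ π h ((π g)⁻¹ w) t := by
  have h1 := phi_apply v₀ π (g * h) ((π (g * h))⁻¹ w) t 0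
  rw [map_mul, Equiv.Perm.mul_apply, phi_apply, phi_apply] at h1
  have h2 := congrArg (fun p => p.2.2) h1
  simp only [zero_add] at h2
  rw [perm_ai] at h2
  rw [← h2, map_mul, mul_inv_rev, Equiv.Perm.mul_apply, perm_ai,
    perm_ai, add_comm]

theorem cc_of (v₀ : B) (π : FreeGroup Bool →* Equiv.Perm B) (s : Bool) (w : B) (t : Bool) :
    cc v₀ π (FreeGroup.of s) w t = if (w = v₀ ∧ t = s) then 1 else 0 := by
  unfold cc
  rw [phi_of]
  simp [gen]

theorem cc_inv_of (v₀ : B) (π : FreeGroup Bool →* Equiv.Perm B) (s : Bool) (w : B) (t : Bool) :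
    cc v₀ π (FreeGroup.of s)⁻¹ w t = if (π (FreeGroup.of s) w = v₀ ∧ t = s) then 1 else 0 := by
  have h := cc_mul v₀ π (FreeGroup.of s) (FreeGroup.of s)⁻¹ (π (FreeGroup.of s) w) t
  rw [mul_inv_cancel, cc_one, cc_of, perm_ia] at h
  have h2 : cc v₀ π (FreeGroup.of s)⁻¹ w t = - (if (π (FreeGroup.of s) w = v₀ ∧ t = s) then 1 else 0) := by
    rw [eq_neg_iff_add_eq_zero, add_comm]
    exact h.symm
  rw [h2]
  split_ifs
  · decide
  · decide

theorem last_letter (g : FreeGroup Bool) (n : ℕ) (hn : g.norm = n + 1) :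
    ∃ (g' : FreeGroup Bool) (s : Bool), g'.norm = n ∧ (g = g' * FreeGroup.of s ∨ g = g' * (FreeGroup.of s)⁻¹) := by
  have hlen : g.toWord.length = n + 1 := hn
  have hne : g.toWord ≠ [] := by
    intro h
    rw [h] at hlen
    simp at hlen
  have hd := List.dropLast_append_getLast hne
  set L := g.toWord.dropLast with hL
  set a := g.toWord.getLast hne with ha
  have hg : g = FreeGroup.mk L * FreeGroup.mk [a] := by
    rw [FreeGroup.mul_mk, hd, FreeGroup.mk_toWord]
  have hLlen : L.length = n := by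
    rw [hL, List.length_dropLast, hlen]
    rfl
  have h1 : (FreeGroup.mk L).norm ≤ n := by
    rw [← hLlen]
    exact FreeGroup.norm_mk_le
  have h2 : g.norm ≤ (FreeGroup.mk L).norm + (FreeGroup.mk [a]).norm := by
    conv_lhs => rw [hg]
    exact FreeGroup.norm_mul_le _ _
  have h3 : (FreeGroup.mk [a]).norm ≤ 1 := FreeGroup.norm_mk_le
  refine ⟨FreeGroup.mk L, a.1, by omega, ?_⟩
  obtain ⟨s, b⟩ := a
  cases b
  · right
    exact hg
  · left
    exact hg

theorem edges (v₀ : B) (π : FreeGroup Bool →* Equiv.Perm B) (n : ℕ) :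
    ∀ g : FreeGroup Bool, g.norm = n → ∃ S : Finset (FreeGroup Bool × Bool), S.card = n ∧
      (∀ p ∈ S, p.1.norm ≤ n ∧ (p.1 * FreeGroup.of p.2).norm ≤ n) ∧
      ∀ (w : B) (t : Bool), cc v₀ π g w t =
        ∑ p ∈ S, if (π p.1 v₀ = w ∧ p.2 = t) then (1 : ZMod 2) else 0 := by
  induction n with
  | zero =>
    intro g hg
    have hg1 : g = 1 := FreeGroup.norm_eq_zero.mp hg
    refine ⟨∅, rfl, by simp, ?_⟩
    intro w t
    rw [hg1, cc_one, Finset.sum_empty]
  | succ n ih =>
    intro g hg
    obtain ⟨g', s, hg', hgs⟩ := last_letter g n hg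
    obtain ⟨S, hcard, hS, hc⟩ := ih g' hg'
    rcases hgs with hgs | hgs
    · have hnot : (g', s) ∉ S := by
        intro hmem
        have h1 := (hS _ hmem).2
        simp only at h1
        rw [← hgs, hg] at h1
        omega
      refine ⟨insert (g', s) S, ?_, ?_, ?_⟩
      · rw [Finset.card_insert_of_notMem hnot, hcard]
      · intro p hp
        rcases Finset.mem_insert.mp hp with rfl | hp
        · refine ⟨by simp only; omega, ?_⟩
          simp only
          rw [← hgs, hg]
        · have := hS p hp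
          exact ⟨by omega, by omega⟩
      · intro w t
        rw [Finset.sum_insert hnot, hgs, cc_mul, hc, cc_of, add_comm]
        congr 1
        apply if_congr _ rfl rfl
        constructor
        · rintro ⟨h1, h2⟩
          exact ⟨by rw [← h1, perm_ai], h2.symm⟩
        · rintro ⟨h1, h2⟩
          exact ⟨by rw [← h1, perm_ia], h2.symm⟩
    · have hnot : (g, s) ∉ S := by
        intro hmem
        have h1 := (hS _ hmem).1
        simp only at h1
        omega
      refine ⟨insert (g, s) S, ?_, ?_, ?_⟩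
      · rw [Finset.card_insert_of_notMem hnot, hcard]
      · intro p hp
        rcases Finset.mem_insert.mp hp with rfl | hp
        · refine ⟨by simp only; omega, ?_⟩
          simp only
          rw [hgs, inv_mul_cancel_right, hg']
          omega
        · have := hS p hp
          exact ⟨by omega, by omega⟩
      · intro w t
        rw [Finset.sum_insert hnot]
        conv_lhs => rw [hgs, cc_mul, hc, cc_inv_of, add_comm]
        congr 1
        apply if_congr _ rfl rfl
        rw [hgs, map_mul, map_inv, Equiv.Perm.mul_apply]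
        constructor
        · rintro ⟨h1, h2⟩
          exact ⟨by rw [← h1, perm_ia, perm_ai], h2.symm⟩
        · rintro ⟨h1, h2⟩
          exact ⟨by rw [← h1, perm_ia, perm_ai], h2.symm⟩

end W25806

/-- from a finite permutation representation injective on a ball build a finite permutation
representation with a finite set `A` such that `|A \ γ A| = |γ|` on the ball -/
theorem exists_wall (R : ℕ) (B : Type) [Fintype B] [DecidableEq B] (v₀ : B)
    (π : FreeGroup Bool →* Equiv.Perm B)
    (hinj : ∀ x y : FreeGroup Bool, x.norm ≤ R → y.norm ≤ R → π x v₀ = π y v₀ → x = y) :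
    ∃ (φ : FreeGroup Bool →* Equiv.Perm (B × Bool × ZMod 2)) (A : Finset (B × Bool × ZMod 2)),
      ∀ g : FreeGroup Bool, g.norm ≤ R → (A \ A.map (φ g).toEmbedding).card = g.norm := by
  classical
  refine ⟨W25806.phi v₀ π, Finset.univ.filter (fun p => p.2.2 = 0), ?_⟩
  intro g hg
  obtain ⟨S, hcard, hS, hc⟩ := W25806.edges v₀ π g.norm g rfl
  have hinjS : Set.InjOn (fun p : FreeGroup Bool × Bool => ((π p.1 v₀, p.2, 0) : B × Bool × ZMod 2))
      (S : Set (FreeGroup Bool × Bool)) := by
    intro p hp q hq hpq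
    simp only [Prod.mk.injEq, and_true] at hpq
    have h1 := hinj p.1 q.1 ((hS p hp).1.trans hg) ((hS q hq).1.trans hg) hpq.1
    exact Prod.ext h1 hpq.2
  rw [← hcard]
  conv_rhs => rw [← Finset.card_image_of_injOn hinjS]
  congr 1
  ext ⟨w, t, j⟩
  simp only [Finset.mem_sdiff, Finset.mem_filter, Finset.mem_univ, true_and, Finset.mem_map,
    Finset.mem_image, Prod.mk.injEq, Equiv.coe_toEmbedding, Prod.exists]
  constructor
  · rintro ⟨hj, hnot⟩
    by_contra hcon
    apply hnot
    refine ⟨(π g)⁻¹ w, t, 0, rfl, ?_⟩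
    rw [W25806.phi_apply, W25806.perm_ai, hc, hj, Finset.sum_eq_zero]
    · simp
    · intro p hp
      rw [if_neg]
      rintro ⟨h1, h2⟩
      exact hcon ⟨p.1, p.2, hp, h1, h2, hj.symm⟩
  · rintro ⟨x, s, hxs, h1, h2, h3⟩
    refine ⟨h3.symm, ?_⟩
    rintro ⟨v, t', i, hi, hv⟩
    rw [W25806.phi_apply] at hv
    simp only [Prod.mk.injEq] at hv
    obtain ⟨hv1, hv2, hv3⟩ := hv
    rw [hi, zero_add, hv1, hv2, ← h3, hc] at hv3
    rw [Finset.sum_eq_single (x, s)] at hv3
    · rw [if_pos ⟨h1, h2⟩] at hv3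
      exact one_ne_zero hv3
    · intro q hq hne
      rw [if_neg]
      rintro ⟨h4, h5⟩
      apply hne
      apply hinjS hq hxs
      simp only [Prod.mk.injEq, and_true]
      exact ⟨h4.trans h1.symm, h5.trans h2.symm⟩
    · intro hno
      exact absurd hxs hno

end Pool.Agent.Helper463.BC
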