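import Mathlib
import Pool.Agent.Helper463.BCAna
import Pool.Agent.Helper463.BCFin
import Pool.Agent.Helper463.BCKappa
import Pool.Agent.Helper463.BCIota
import Pool.Agent.Helper463.BCIcc
import Pool.Agent.Helper463.BCFree
import Pool.Agent.Helper463.BCWall
import Pool.Agent.Helper463.BCUnit

set_option autoImplicit false

namespace Pool.Agent.Helper463.BC

/-- the wall data exist -/
theorem nonempty_WD : Nonempty WD := by
  classical
  choose B hB1 hB2 v₀ π hπ using exists_ball_rep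
  choose φ A hA using fun R : ℕ => @exists_wall R (B R) (hB1 R) (hB2 R) (v₀ R) (π R) (hπ R)
  have hfin : ∀ R, Fintype (B R × Bool × ZMod 2) := fun R => by
    have := hB1 R
    infer_instance
  refine ⟨{ W := Σ R : ℕ, (B R × Bool × ZMod 2)
            Φ := (Equiv.Perm.sigmaCongrRightHom fun R : ℕ => B R × Bool × ZMod 2).comp
              (MonoidHom.pi fun R => φ R)
            blk := fun m => (Finset.range m).sigma fun R => (hfin R).elems
            mono := ?_
            exh := ?_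
            inv := ?_
            wall := ?_ }⟩
  · intro m n hmn x hx
    rw [Finset.mem_sigma] at hx ⊢
    exact ⟨Finset.range_mono hmn hx.1, hx.2⟩
  · intro w
    refine ⟨w.1 + 1, ?_⟩
    rw [Finset.mem_sigma]
    exact ⟨Finset.self_mem_range_succ _, (hfin w.1).complete _⟩
  · intro m γ w hw
    rw [Finset.mem_sigma] at hw ⊢
    exact ⟨hw.1, (hfin _).complete _⟩
  · intro R
    refine ⟨(A R).map (Function.Embedding.sigmaMk R), fun γ hγ => ?_⟩
    rw [← hA R γ hγ, ← Set.ncard_coe_finset, ← Set.ncard_image_of_injective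
      (f := Sigma.mk (β := fun R => B R × Bool × ZMod 2) R) _ sigma_mk_injective]
    congr 1
    ext x
    simp only [Finset.coe_map, Set.mem_sdiff, Set.mem_image, Finset.coe_sdiff,
      Function.Embedding.sigmaMk_apply]
    constructor
    · rintro ⟨⟨y, hy, rfl⟩, h2⟩
      refine ⟨y, ⟨hy, fun ⟨z, hz, hzy⟩ => h2 ?_⟩, rfl⟩
      refine ⟨⟨R, z⟩, ⟨z, hz, rfl⟩, ?_⟩
      show (⟨R, φ R γ z⟩ : Σ R : ℕ, (B R × Bool × ZMod 2)) = ⟨R, y⟩
      rw [← hzy]
      rfl
    · rintro ⟨y, ⟨hy, hy2⟩, rfl⟩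
      refine ⟨⟨y, hy, rfl⟩, ?_⟩
      rintro ⟨z, ⟨z', hz', rfl⟩, hz2⟩
      apply hy2
      refine ⟨z', hz', ?_⟩
      have hz3 : (⟨R, φ R γ z'⟩ : Σ R : ℕ, (B R × Bool × ZMod 2)) = ⟨R, y⟩ := hz2
      exact (sigma_mk_injective (β := fun R : ℕ => B R × Bool × ZMod 2)) hz3

theorem typeI (d : WD) : TypeI (GG d) (LL d) := by
  classical
  intro T c s hcs
  obtain ⟨n, -, hn⟩ := exists_supp d T 0
  obtain ⟨ι, hι1, hι2⟩ := exists_iota d n
  obtain ⟨A, hA⟩ := d.wall (T.sup (LL d))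
  obtain ⟨v, v', h1, h2, h3, h4⟩ := exists_unitary ι T (fun g => d.Φ g.1.2) (LL d) A
    (fun g hg w => hι1 g (hn g hg) w)
    (fun g hg => hA g.1.2 (Finset.le_sup (f := LL d) hg))
    (fun g hg g' hg' h hh => hι2 g g' (hn g hg) (hn g' hg') h hh) c s hcs
  exact ⟨v, v', h1, h2, h3, h4⟩

theorem typeII (d : WD) : TypeII (GG d) (LL d) := by
  classical
  intro F₀ M
  obtain ⟨m, -, hm⟩ := exists_supp d F₀ 0
  refine ⟨(finite_K d M m).toFinset, fun T => ?_⟩
  obtain ⟨n, hmn, hn⟩ := exists_supp d T m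
  obtain ⟨κ, hκ1, hκ2⟩ := exists_kappa d m n hmn
  refine ⟨κ, fun f hf => hκ1 f (hm f hf), fun g hg hgS hgM hmem => ?_⟩
  refine hκ2 g (hn g hg) (fun h => hgS ?_) (hn _ hmem)
  rw [Set.Finite.mem_toFinset]
  exact ⟨hgM, h⟩

end Pool.Agent.Helper463.BC
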