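import Mathlib

set_option autoImplicit false

open scoped InnerProductSpace

namespace Pool.Agent.Helper463.BC

/-- a state on `B(H)` invariant under the unitary group of a finite dimensional star subalgebra,
obtained by averaging a vector state over the (compact) unitary group -/
theorem exists_inv_state {H : Type*} [NormedAddCommGroup H] [InnerProductSpace ℂ H]
    [CompleteSpace H] (A : StarSubalgebra ℂ (H →L[ℂ] H)) [FiniteDimensional ℂ A] (ζ : H)
    (hζ : ‖ζ‖ = 1) :
    ∃ ω : (H →L[ℂ] H) →ₗ[ℂ] ℂ, ω 1 = 1 ∧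
      (∀ x, 0 ≤ (ω (star x * x)).re ∧ (ω (star x * x)).im = 0) ∧
      (∀ w ∈ A, star w * w = 1 → w * star w = 1 → ∀ x, ω (star w * x * w) = ω x) ∧
      (∀ (x : H →L[ℂ] H) (c : ℝ), 0 ≤ c →
        (∀ u ∈ A, star u * u = 1 → u * star u = 1 → ‖x (u ζ)‖ ≤ c) →
        (ω (star x * x)).re ≤ c ^ 2) := by
  classical
  have : ProperSpace A := FiniteDimensional.proper ℂ A
  have hcpt : IsCompact (unitary A : Set A) := by
    rw [Metric.isCompact_iff_isClosed_bounded]
    refine ⟨isClosed_unitary, ?_⟩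
    rw [isBounded_iff_forall_norm_le]
    refine ⟨1, fun u hu => ?_⟩
    have h1 : star u * u = 1 := (Unitary.mem_iff.mp hu).1
    have h2 : ‖u‖ * ‖u‖ = ‖star u * u‖ := (CStarRing.norm_star_mul_self).symm
    rw [h1] at h2
    have h3 : ‖(1 : A)‖ ≤ 1 := by
      show ‖((1 : A) : H →L[ℂ] H)‖ ≤ 1
      exact ContinuousLinearMap.norm_id_le
    nlinarith [norm_nonneg u]
  have : CompactSpace (unitary A) := isCompact_iff_compactSpace.mp hcpt
  let _ : MeasurableSpace (unitary A) := borel _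
  have : BorelSpace (unitary A) := ⟨rfl⟩
  let μ : MeasureTheory.Measure (unitary A) := MeasureTheory.Measure.haarMeasure ⊤
  have hμ1 : μ Set.univ = 1 := by
    have := MeasureTheory.Measure.haarMeasure_self (K₀ := (⊤ : TopologicalSpace.PositiveCompacts (unitary A)))
    simpa using this
  have : MeasureTheory.IsProbabilityMeasure μ := ⟨hμ1⟩
  have : μ.IsMulLeftInvariant := by
    show (MeasureTheory.Measure.haarMeasure ⊤).IsMulLeftInvariant
    infer_instance
  let U : unitary A → (H →L[ℂ] H) := fun u => ((u : A) : H →L[ℂ] H)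
  have hUc : Continuous U := continuous_subtype_val.comp continuous_subtype_val
  have hUmul : ∀ u v, U (u * v) = U u * U v := fun u v => rfl
  have hUs1 : ∀ u, star (U u) * U u = 1 := by
    intro u
    have h1 : star (u : A) * (u : A) = 1 := (Unitary.mem_iff.mp u.2).1
    have h2 := congrArg (fun a : A => (a : H →L[ℂ] H)) h1
    exact h2
  have hUs2 : ∀ u, U u * star (U u) = 1 := by
    intro u
    have h1 : (u : A) * star (u : A) = 1 := (Unitary.mem_iff.mp u.2).2
    have h2 := congrArg (fun a : A => (a : H →L[ℂ] H)) h1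
    exact h2
  have hUA : ∀ u, U u ∈ A := fun u => (u : A).2
  have hUζ : Continuous (fun u => U u ζ) := by
    exact hUc.clm_apply continuous_const
  have hcont : ∀ x : H →L[ℂ] H, Continuous (fun u => ⟪U u ζ, x (U u ζ)⟫_ℂ) :=
    fun x => Continuous.inner hUζ (x.continuous.comp hUζ)
  have hint : ∀ x : H →L[ℂ] H, MeasureTheory.Integrable (fun u => ⟪U u ζ, x (U u ζ)⟫_ℂ) μ := fun x =>
    (hcont x).integrable_of_hasCompactSupport (HasCompactSupport.of_compactSpace _)
  let ω : (H →L[ℂ] H) →ₗ[ℂ] ℂ :=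
    { toFun := fun x => ∫ u, ⟪U u ζ, x (U u ζ)⟫_ℂ ∂μ
      map_add' := fun x y => by
        rw [← MeasureTheory.integral_add (hint x) (hint y)]
        refine MeasureTheory.integral_congr_ae (Filter.Eventually.of_forall fun u => ?_)
        simp [inner_add_right]
      map_smul' := fun c x => by
        rw [RingHom.id_apply, smul_eq_mul, ← MeasureTheory.integral_const_mul]
        refine MeasureTheory.integral_congr_ae (Filter.Eventually.of_forall fun u => ?_)
        simp [inner_smul_right] }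
  have hω : ∀ x, ω x = ∫ u, ⟪U u ζ, x (U u ζ)⟫_ℂ ∂μ := fun x => rfl
  have hnorm : ∀ u, ‖U u ζ‖ = 1 := by
    intro u
    have h1 : ⟪U u ζ, U u ζ⟫_ℂ = ⟪ζ, ζ⟫_ℂ := by
      rw [← ContinuousLinearMap.adjoint_inner_right, ← ContinuousLinearMap.star_eq_adjoint]
      have : star (U u) (U u ζ) = ζ := by
        have := congrArg (fun T : H →L[ℂ] H => T ζ) (hUs1 u)
        exact this
      rw [this]
    rw [inner_self_eq_norm_sq_to_K, inner_self_eq_norm_sq_to_K, hζ] at h1
    have h2 : ‖U u ζ‖ ^ 2 = 1 := by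
      have h3 : ((‖U u ζ‖ ^ 2 : ℝ) : ℂ) = ((1 : ℝ) : ℂ) := by
        push_cast
        simpa using h1
      exact_mod_cast h3
    have h4 := norm_nonneg (U u ζ)
    nlinarith
  have hsq : ∀ x : H →L[ℂ] H, ω (star x * x) = ((∫ u, ‖x (U u ζ)‖ ^ 2 ∂μ : ℝ) : ℂ) := by
    intro x
    rw [hω, ← integral_complex_ofReal]
    refine MeasureTheory.integral_congr_ae (Filter.Eventually.of_forall fun u => ?_)
    show ⟪U u ζ, star x (x (U u ζ))⟫_ℂ = _
    rw [ContinuousLinearMap.star_eq_adjoint, ContinuousLinearMap.adjoint_inner_right,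
      inner_self_eq_norm_sq_to_K]
    push_cast
    rfl
  have hcont2 : ∀ x : H →L[ℂ] H, Continuous (fun u => ‖x (U u ζ)‖ ^ 2) :=
    fun x => ((x.continuous.comp hUζ).norm).pow 2
  have hint2 : ∀ x : H →L[ℂ] H, MeasureTheory.Integrable (fun u => ‖x (U u ζ)‖ ^ 2) μ := fun x =>
    (hcont2 x).integrable_of_hasCompactSupport (HasCompactSupport.of_compactSpace _)
  refine ⟨ω, ?_, ?_, ?_, ?_⟩
  · rw [hω]
    have : ∀ u, ⟪U u ζ, (1 : H →L[ℂ] H) (U u ζ)⟫_ℂ = 1 := by
      intro u
      rw [ContinuousLinearMap.one_apply, inner_self_eq_norm_sq_to_K, hnorm]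
      simp
    simp only [this]
    simp
  · intro x
    rw [hsq]
    refine ⟨?_, Complex.ofReal_im _⟩
    rw [Complex.ofReal_re]
    exact MeasureTheory.integral_nonneg fun u => by positivity
  · intro w hw h1 h2 x
    have h1' : star (⟨w, hw⟩ : A) * (⟨w, hw⟩ : A) = 1 := Subtype.ext h1
    have h2' : (⟨w, hw⟩ : A) * star (⟨w, hw⟩ : A) = 1 := Subtype.ext h2
    let w' : unitary A := ⟨⟨w, hw⟩, Unitary.mem_iff.mpr ⟨h1', h2'⟩⟩
    have h3 : ∀ u, ⟪U u ζ, (star w * x * w) (U u ζ)⟫_ℂ =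
        (fun v => ⟪U v ζ, x (U v ζ)⟫_ℂ) (w' * u) := by
      intro u
      show ⟪U u ζ, star w (x (w (U u ζ)))⟫_ℂ = ⟪w (U u ζ), x (w (U u ζ))⟫_ℂ
      rw [ContinuousLinearMap.star_eq_adjoint, ContinuousLinearMap.adjoint_inner_right]
    rw [hω, hω]
    simp only [h3]
    exact MeasureTheory.integral_mul_left_eq_self (fun v => ⟪U v ζ, x (U v ζ)⟫_ℂ) w'
  · intro x c hc h
    rw [hsq, Complex.ofReal_re]
    calc ∫ u, ‖x (U u ζ)‖ ^ 2 ∂μ ≤ ∫ _u, c ^ 2 ∂μ := by
          refine MeasureTheory.integral_mono (hint2 x) (MeasureTheory.integrable_const _) fun u => ?_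
          exact pow_le_pow_left₀ (norm_nonneg _) (h (U u) (hUA u) (hUs1 u) (hUs2 u)) 2
      _ = c ^ 2 := by simp

end Pool.Agent.Helper463.BC
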