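import Mathlib

set_option autoImplicit false

namespace Pool.Agent.Helper463.BC

theorem paradox_aux (i : Bool) (y : FreeGroup Bool) (hy : y ∈ FreeGroup.startsWith (i, false)) :
    FreeGroup.of i * y ∉ FreeGroup.startsWith (i, true) := by
  intro h
  unfold FreeGroup.startsWith at hy h
  rw [Set.mem_setOf_eq] at hy h
  match hl : y.toWord with
  | [] => simp [hl] at hy
  | a :: t =>
    have ha : a = (i, false) := by simpa [hl] using hy
    have hred : FreeGroup.IsReduced ((i, false) :: t) := by
      have := FreeGroup.isReduced_toWord (x := y)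
      rw [hl, ha] at this
      exact this
    have htred : FreeGroup.IsReduced t := by
      cases t with
      | nil => exact FreeGroup.IsReduced.nil
      | cons b t => exact (FreeGroup.isReduced_cons_cons.mp hred).2
    have hmk : FreeGroup.of i * y = FreeGroup.mk t := by
      have e1 : y = FreeGroup.mk ((i, false) :: t) := by
        rw [← ha, ← hl, FreeGroup.mk_toWord]
      rw [e1]
      have e2 : FreeGroup.mk ((i, false) :: t) = (FreeGroup.of i)⁻¹ * FreeGroup.mk t := by
        rw [FreeGroup.of, FreeGroup.inv_mk, FreeGroup.mul_mk]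
        rfl
      rw [e2, mul_inv_cancel_left]
    rw [hmk, FreeGroup.toWord_mk, htred.reduce_eq] at h
    cases t with
    | nil => simp at h
    | cons b t =>
      have hb : b = (i, true) := by simpa using h
      have h3 := (FreeGroup.isReduced_cons_cons.mp hred).1
      rw [hb] at h3
      simp at h3

/-- the paradoxical decomposition of the free group excludes approximately invariant means -/
theorem paradox {G : Type*} [Group G] (q : G →* FreeGroup Bool) (g : Bool → G)
    (hg : ∀ i, q (g i) = FreeGroup.of i) (m : Set G → ℝ) (h1 : m Set.univ = 1)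
    (h0 : ∀ S, 0 ≤ m S) (hadd : ∀ S T, Disjoint S T → m (S ∪ T) = m S + m T)
    (hinv : ∀ (i : Bool) (S : Set G), |m ((fun x => g i * x) '' S) - m S| ≤ 1 / 4) : False := by
  set A : Bool × Bool → Set G := fun w => q ⁻¹' (FreeGroup.startsWith w) with hA
  have hdis : ∀ w w', w ≠ w' → Disjoint (A w) (A w') := fun w w' h =>
    Disjoint.preimage q (FreeGroup.startsWith.disjoint_iff_ne.mpr h)
  have him : ∀ i : Bool, (fun x => g i * x) '' (A (i, false)) = (A (i, true))ᶜ := by
    intro i
    ext y
    constructor
    · rintro ⟨x, hx, rfl⟩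
      show ¬ (q (g i * x) ∈ FreeGroup.startsWith (i, true))
      rw [map_mul, hg]
      exact paradox_aux i (q x) hx
    · intro hy
      refine ⟨(g i)⁻¹ * y, ?_, by simp⟩
      show q ((g i)⁻¹ * y) ∈ FreeGroup.startsWith (i, false)
      rw [map_mul, map_inv, hg]
      have h2 := FreeGroup.startsWith_mk_mul (w := (i, false)) (q y) hy
      have h3 : (FreeGroup.of i)⁻¹ = FreeGroup.mk [(i, false)] := by
        rw [FreeGroup.of, FreeGroup.inv_mk]
        rfl
      rw [h3]
      exact h2
  have hone : ∀ i : Bool, 1 ≤ m (A (i, true)) + m (A (i, false)) + 1 / 4 := by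
    intro i
    have e1 : m (A (i, true) ∪ (A (i, true))ᶜ) = m (A (i, true)) + m ((A (i, true))ᶜ) :=
      hadd _ _ disjoint_compl_right
    rw [Set.union_compl_self, h1, ← him i] at e1
    have e2 := (abs_le.mp (hinv i (A (i, false)))).2
    linarith
  have hT : m (A (true, true) ∪ A (true, false)) = m (A (true, true)) + m (A (true, false)) :=
    hadd _ _ (hdis _ _ (by decide))
  have hF : m (A (false, true) ∪ A (false, false)) = m (A (false, true)) + m (A (false, false)) :=
    hadd _ _ (hdis _ _ (by decide))
  have hTF : m ((A (true, true) ∪ A (true, false)) ∪ (A (false, true) ∪ A (false, false))) =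
      m (A (true, true) ∪ A (true, false)) + m (A (false, true) ∪ A (false, false)) := by
    apply hadd
    rw [Set.disjoint_union_left, Set.disjoint_union_right, Set.disjoint_union_right]
    exact ⟨⟨hdis _ _ (by decide), hdis _ _ (by decide)⟩, ⟨hdis _ _ (by decide), hdis _ _ (by decide)⟩⟩
  have hall := hadd ((A (true, true) ∪ A (true, false)) ∪ (A (false, true) ∪ A (false, false)))
    ((A (true, true) ∪ A (true, false)) ∪ (A (false, true) ∪ A (false, false)))ᶜ disjoint_compl_right
  rw [Set.union_compl_self, h1] at hall
  have h5 := h0 ((A (true, true) ∪ A (true, false)) ∪ (A (false, true) ∪ A (false, false)))ᶜ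
  have h6 := hone true
  have h7 := hone false
  linarith

end Pool.Agent.Helper463.BC
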