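import Mathlib

set_option autoImplicit false

namespace Pool.Agent.Helper463.BC

theorem exists_unitary_near_polar {M : Type*} [CStarAlgebra M] (A : StarSubalgebra ℂ M)
    (hA : IsClosed (A : Set M)) (y : M) (hy : y ∈ A) (hu : IsUnit y) :
    ∃ w ∈ A, ∃ b : M, star w * w = 1 ∧ w * star w = 1 ∧ star b = b ∧ y = w * (b * b) ∧
      (b * b) * (b * b) = star y * y := by
  set a : M := star y * y with ha
  have hsa : IsSelfAdjoint a := IsSelfAdjoint.star_mul_self y
  have hau : IsUnit a := hu.star.mul hu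
  have hpos : ∀ x ∈ spectrum ℝ a, 0 < x := by
    intro x hx
    refine lt_of_le_of_ne (spectrum_star_mul_self_nonneg x hx) ?_
    rintro rfl
    exact spectrum.zero_notMem ℝ hau hx
  have c1 : ContinuousOn (fun x : ℝ => √x) (spectrum ℝ a) := Real.continuous_sqrt.continuousOn
  have c2 : ContinuousOn (fun x : ℝ => √(√x)) (spectrum ℝ a) :=
    (Real.continuous_sqrt.comp Real.continuous_sqrt).continuousOn
  have c3 : ContinuousOn (fun x : ℝ => (√x)⁻¹) (spectrum ℝ a) :=
    c1.inv₀ (fun x hx => (Real.sqrt_pos.2 (hpos x hx)).ne')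
  set p : M := cfc (fun x : ℝ => √x) a with hp
  set b : M := cfc (fun x : ℝ => √(√x)) a with hb
  set h : M := cfc (fun x : ℝ => (√x)⁻¹) a with hh
  have hbb : b * b = p := by
    rw [hb, ← cfc_mul _ _ a c2 c2, hp]
    refine cfc_congr fun x hx => ?_
    exact Real.mul_self_sqrt (Real.sqrt_nonneg _)
  have hpp : p * p = a := by
    rw [hp, ← cfc_mul _ _ a c1 c1]
    have : cfc (fun x : ℝ => √x * √x) a = cfc (fun x : ℝ => x) a := by
      refine cfc_congr fun x hx => ?_
      exact Real.mul_self_sqrt (hpos x hx).le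
    rw [this, cfc_id' ℝ a]
  have hph : p * h = 1 := by
    rw [hp, hh, ← cfc_mul _ _ a c1 c3, ← cfc_one ℝ a]
    refine cfc_congr fun x hx => ?_
    exact mul_inv_cancel₀ (Real.sqrt_pos.2 (hpos x hx)).ne'
  have hhp : h * p = 1 := by
    rw [hp, hh, ← cfc_mul _ _ a c3 c1, ← cfc_one ℝ a]
    refine cfc_congr fun x hx => ?_
    exact inv_mul_cancel₀ (Real.sqrt_pos.2 (hpos x hx)).ne'
  have hhs : star h = h := (cfc_predicate (fun x : ℝ => (√x)⁻¹) a : IsSelfAdjoint h)
  have hbs : star b = b := (cfc_predicate (fun x : ℝ => √(√x)) a : IsSelfAdjoint b)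
  have haA : a ∈ A := A.mul_mem (star_mem (S := StarSubalgebra ℂ M) hy) hy
  haveI : IsClosed (A : Set M) := hA
  have hhA : h ∈ A := cfc_mem (𝕜' := ℂ) (s := A) (fun x : ℝ => (√x)⁻¹) haA
  have hw1 : star (y * h) * (y * h) = 1 := by
    rw [star_mul, hhs]
    calc h * star y * (y * h) = h * (star y * y) * h := by simp only [mul_assoc]
      _ = h * (p * p) * h := by rw [← ha, hpp]
      _ = (h * p) * (p * h) := by simp only [mul_assoc]
      _ = 1 := by rw [hhp, hph, one_mul]
  have hhu : IsUnit h := ⟨⟨h, p, hhp, hph⟩, rfl⟩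
  have hwu : IsUnit (y * h) := hu.mul hhu
  have hw2 : (y * h) * star (y * h) = 1 := by
    obtain ⟨u, hu'⟩ := hwu
    rw [← hu'] at hw1 ⊢
    have : star (u : M) = ((u⁻¹ : Mˣ) : M) := by
      calc star (u : M) = star (u : M) * ((u : M) * ((u⁻¹ : Mˣ) : M)) := by simp
        _ = (star (u : M) * (u : M)) * ((u⁻¹ : Mˣ) : M) := by rw [mul_assoc]
        _ = ((u⁻¹ : Mˣ) : M) := by rw [hw1, one_mul]
    rw [this]
    simp
  refine ⟨y * h, A.mul_mem hy hhA, b, hw1, hw2, hbs, ?_, ?_⟩
  · rw [hbb, mul_assoc, hhp, mul_one]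
  · rw [hbb, hpp]

theorem exists_unitary_near_spec {M : Type*} [CStarAlgebra M] (A : StarSubalgebra ℂ M)
    [FiniteDimensional ℂ A] (y : M) (hy : y ∈ A) : (spectrum ℂ y).Finite := by
  have hint : IsIntegral ℂ (⟨y, hy⟩ : A) := Algebra.IsIntegral.isIntegral _
  set p := minpoly ℂ (⟨y, hy⟩ : A) with hp
  have hp0 : p ≠ 0 := minpoly.ne_zero hint
  have h1 : Polynomial.aeval (⟨y, hy⟩ : A) p = 0 := minpoly.aeval _ _
  have h2 : Polynomial.aeval y p = 0 := by
    have h3 := Polynomial.aeval_algHom_apply (A.subtype.toAlgHom) (⟨y, hy⟩ : A) p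
    rw [h1, map_zero] at h3
    exact h3
  refine (p.roots.toFinset.finite_toSet).subset ?_
  intro z hz
  have h4 : Polynomial.eval z p ∈ spectrum ℂ (Polynomial.aeval y p) :=
    spectrum.subset_polynomial_aeval y p ⟨z, hz, rfl⟩
  rw [h2] at h4
  have h5 : Polynomial.eval z p = 0 := by
    by_contra hne
    rw [spectrum.mem_iff, sub_zero] at h4
    exact h4 ((IsUnit.mk0 _ hne).map (algebraMap ℂ M))
  simp only [Finset.mem_coe, Multiset.mem_toFinset]
  rw [Polynomial.mem_roots hp0]
  exact h5

/-- a unitary which is 2-norm close to a finite dimensional star subalgebra is close to a unitary of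
that subalgebra (polar decomposition) -/
theorem exists_unitary_near {M : Type*} [CStarAlgebra M] (τ : M →ₗ[ℂ] ℂ) (h1 : τ 1 = 1)
    (hc : ∀ x y, τ (x * y) = τ (y * x))
    (hpos : ∀ x, 0 ≤ (τ (star x * x)).re ∧ (τ (star x * x)).im = 0) (A : StarSubalgebra ℂ M)
    [FiniteDimensional ℂ A] (l : M) (hl : star l * l = 1) (hl' : l * star l = 1) (y : M)
    (hy : y ∈ A) (δ : ℝ) (hδ : 0 < δ) (h : (τ (star (l - y) * (l - y))).re < δ ^ 2) :
    ∃ w ∈ A, star w * w = 1 ∧ w * star w = 1 ∧ (τ (star (l - w) * (l - w))).re < (2 * δ) ^ 2 := by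
  have hsym : ∀ x y : M, (τ (star x * y)).re = (τ (star y * x)).re := by
    intro x y
    have e := (hpos (x + Complex.I • y)).2
    have e1 : star (x + Complex.I • y) * (x + Complex.I • y) =
        star x * x + Complex.I • (star x * y) - Complex.I • (star y * x) + star y * y := by
      rw [star_add, star_smul, add_mul, mul_add, mul_add, smul_mul_assoc, smul_mul_assoc,
        mul_smul_comm, mul_smul_comm, smul_smul]
      have : star Complex.I * Complex.I = 1 := by
        simp
      rw [this, one_smul]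
      have : star Complex.I = -Complex.I := by simp
      rw [this, neg_smul]
      abel
    rw [e1, map_add, map_sub, map_add, map_smul, map_smul] at e
    have e2 := (hpos x).2
    have e3 := (hpos y).2
    simp only [Complex.add_im, Complex.sub_im, smul_eq_mul, Complex.mul_im, Complex.I_re,
      Complex.I_im, zero_mul, one_mul, zero_add] at e
    linarith
  have hsub : ∀ x y : M, (τ (star (x - y) * (x - y))).re =
      (τ (star x * x)).re + (τ (star y * y)).re - 2 * (τ (star x * y)).re := by
    intro x y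
    rw [star_sub, sub_mul, mul_sub, mul_sub, map_sub, map_sub, map_sub]
    simp only [Complex.sub_re]
    rw [hsym y x]
    ring
  have hadd : ∀ x y : M, (τ (star (x + y) * (x + y))).re =
      (τ (star x * x)).re + (τ (star y * y)).re + 2 * (τ (star x * y)).re := by
    intro x y
    rw [star_add, add_mul, mul_add, mul_add, map_add, map_add, map_add]
    simp only [Complex.add_re]
    rw [hsym y x]
    ring
  have hA : IsClosed (A : Set M) := by
    haveI : FiniteDimensional ℂ (Subalgebra.toSubmodule A.toSubalgebra) :=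
      inferInstanceAs (FiniteDimensional ℂ A)
    exact Submodule.closed_of_finiteDimensional (Subalgebra.toSubmodule A.toSubalgebra)
  -- perturbation
  obtain ⟨z, hz, hzu, hzn⟩ : ∃ z ∈ A, IsUnit z ∧ (τ (star (l - z) * (l - z))).re < δ ^ 2 := by
    set r := (τ (star (l - y) * 1)).re with hr
    have hcont : Continuous (fun t : ℝ => (τ (star (l - y) * (l - y))).re + t ^ 2 - 2 * (t * r)) := by
      fun_prop
    have hev : ∀ᶠ t : ℝ in nhdsWithin 0 {0}ᶜ,
        (τ (star (l - y) * (l - y))).re + t ^ 2 - 2 * (t * r) < δ ^ 2 := by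
      apply Filter.Eventually.filter_mono nhdsWithin_le_nhds
      have : (fun t : ℝ => (τ (star (l - y) * (l - y))).re + t ^ 2 - 2 * (t * r)) 0 < δ ^ 2 := by
        simpa using h
      exact hcont.continuousAt.eventually_lt continuousAt_const this
    have hfin : {t : ℝ | (-(t : ℂ)) ∈ spectrum ℂ y}.Finite := by
      refine (exists_unitary_near_spec A y hy).preimage (f := fun t : ℝ => -(t : ℂ)) ?_
      intro s _ t _ hst
      simpa using hst
    have hev2 : ∀ᶠ t : ℝ in nhdsWithin 0 {0}ᶜ, (-(t : ℂ)) ∉ spectrum ℂ y := by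
      have hcl : IsClosed ({t : ℝ | (-(t : ℂ)) ∈ spectrum ℂ y} \ {0}) :=
        (hfin.subset Set.diff_subset).isClosed
      have hm : ({t : ℝ | (-(t : ℂ)) ∈ spectrum ℂ y} \ {0})ᶜ ∈ nhds (0 : ℝ) :=
        hcl.isOpen_compl.mem_nhds (by simp)
      filter_upwards [nhdsWithin_le_nhds hm, self_mem_nhdsWithin] with t ht ht0 hts
      exact ht ⟨hts, ht0⟩
    obtain ⟨t, ht1, ht2⟩ := (hev.and hev2).exists
    refine ⟨y + algebraMap ℂ M t, A.add_mem hy (A.algebraMap_mem _), ?_, ?_⟩
    · rw [spectrum.notMem_iff] at ht2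
      have := ht2.neg
      rwa [neg_sub, map_neg, sub_neg_eq_add] at this
    · have e1 : l - (y + algebraMap ℂ M t) = (l - y) - (t : ℂ) • (1 : M) := by
        rw [Algebra.algebraMap_eq_smul_one]; abel
      rw [e1, hsub]
      have e2 : (τ (star ((t : ℂ) • (1 : M)) * ((t : ℂ) • (1 : M)))).re = t ^ 2 := by
        rw [star_smul, star_one, smul_mul_assoc, one_mul, map_smul, map_smul, h1]
        simp
        ring
      have e3 : (τ (star (l - y) * ((t : ℂ) • (1 : M)))).re = t * r := by
        rw [mul_smul_comm, map_smul, hr]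
        simp
      rw [e2, e3]
      exact ht1
  obtain ⟨w, hw, b, hw1, hw2, hb, hzw, hbb⟩ := exists_unitary_near_polar A hA z hz hzu
  refine ⟨w, hw, hw1, hw2, ?_⟩
  -- the trace of `b * b`
  have k1 : (τ (star l * z)).re ≤ (τ (b * b)).re := by
    have e0 := (hpos (l * b - w * b)).1
    rw [hsub] at e0
    have e1 : τ (star (l * b) * (l * b)) = τ (b * b) := by
      rw [star_mul, hb]
      congr 1
      calc b * star l * (l * b) = b * (star l * l) * b := by simp only [mul_assoc]
        _ = b * b := by rw [hl, mul_one]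
    have e2 : τ (star (w * b) * (w * b)) = τ (b * b) := by
      rw [star_mul, hb]
      congr 1
      calc b * star w * (w * b) = b * (star w * w) * b := by simp only [mul_assoc]
        _ = b * b := by rw [hw1, mul_one]
    have e3 : τ (star (l * b) * (w * b)) = τ (star l * z) := by
      rw [star_mul, hb, mul_assoc, hc, hzw]
      congr 1
      simp only [mul_assoc]
    rw [e1, e2, e3] at e0
    linarith
  have k2 : (τ (star (z - w) * (z - w))).re ≤ (τ (star (l - z) * (l - z))).re := by
    rw [hsub, hsub, hw1, hl, h1]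
    have e1 : (τ (star z * w)).re = (τ (b * b)).re := by
      rw [hsym, hzw, ← mul_assoc, hw1, one_mul]
    rw [e1]
    linarith
  have k3 : (τ (star (l - w) * (l - w))).re ≤
      2 * (τ (star (l - z) * (l - z))).re + 2 * (τ (star (z - w) * (z - w))).re := by
    have e1 : l - w = (l - z) + (z - w) := by abel
    have e2 := (hpos ((l - z) - (z - w))).1
    rw [hsub] at e2
    rw [e1, hadd]
    linarith
  have := hpos (z - w)
  nlinarith

end Pool.Agent.Helper463.BC
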