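import Mathlib
import Pool.Agent.Helper463.BCAna
import Pool.Agent.Helper463.BCHaar
import Pool.Agent.Helper463.BCPara
import Pool.Agent.Helper463.BCCS
import Pool.Agent.Helper463.BCPolar

set_option autoImplicit false
set_option linter.unusedSectionVars false

open scoped InnerProductSpace ComplexOrder BoundedContinuousFunction ComplexConjugate
open Filter Topology

namespace Pool.Agent.Helper463.BC

open Pool.Agent.Helper278 Pool.Agent.Helper278.RG Pool.Agent.Helper278.CE

universe u v w

section

variable {G : Type v} [Group G] {K : Type w} [NormedAddCommGroup K] [InnerProductSpace ℂ K]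
  [CompleteSpace K] (b : HilbertBasis G ℂ K)

/-- vectors supported in `S` -/
noncomputable def VS (S : Set G) : Submodule ℂ K := (Submodule.span ℂ (b '' Sᶜ))ᗮ

instance instVS (S : Set G) : (VS b S).HasOrthogonalProjection := by
  unfold VS
  infer_instance

/-- the diagonal projection of a set `S` -/
noncomputable def PS (S : Set G) : K →L[ℂ] K := (VS b S).starProjection

theorem mem_VS (S : Set G) (x : K) : x ∈ VS b S ↔ ∀ g, g ∉ S → ⟪b g, x⟫_ℂ = 0 := by
  unfold VS
  rw [Submodule.mem_orthogonal]
  constructor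
  · intro h g hg
    exact h _ (Submodule.subset_span ⟨g, hg, rfl⟩)
  · intro h u hu
    induction hu using Submodule.span_induction with
    | mem y hy =>
      obtain ⟨g, hg, rfl⟩ := hy
      exact h g hg
    | zero => exact inner_zero_left _
    | add y z _ _ hy hz => rw [inner_add_left, hy, hz, add_zero]
    | smul c y _ hy => rw [inner_smul_left, hy, mul_zero]

open Classical in
theorem coef_PS (S : Set G) (x : K) (g : G) :
    ⟪b g, PS b S x⟫_ℂ = if g ∈ S then ⟪b g, x⟫_ℂ else 0 := by
  split_ifs with hg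
  · have h1 : b g ∈ VS b S := by
      rw [mem_VS]
      intro k hk
      exact inner_bb b k g (fun h => hk (h ▸ hg))
    have h2 := (VS b S).starProjection_inner_eq_zero x (b g) h1
    rw [inner_sub_left, sub_eq_zero] at h2
    have h3 := congrArg (starRingEnd ℂ) h2
    rw [inner_conj_symm, inner_conj_symm] at h3
    exact h3.symm
  · exact (mem_VS b S _).1 ((VS b S).starProjection_apply_mem x) g hg

theorem star_PS (S : Set G) : star (PS b S) = PS b S :=
  (isStarProjection_starProjection (U := VS b S)).isSelfAdjoint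

theorem PS_mul_PS (S : Set G) : PS b S * PS b S = PS b S :=
  (isStarProjection_starProjection (U := VS b S)).isIdempotentElem

theorem PS_univ : PS b Set.univ = 1 := by
  classical
  apply ContinuousLinearMap.ext
  intro x
  apply ext_coef b
  intro k
  rw [coef_PS, if_pos (Set.mem_univ k)]
  rfl

theorem PS_union (S T : Set G) (h : Disjoint S T) : PS b (S ∪ T) = PS b S + PS b T := by
  classical
  apply ContinuousLinearMap.ext
  intro x
  apply ext_coef b
  intro k
  show _ = ⟪b k, PS b S x + PS b T x⟫_ℂ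
  rw [inner_add_right, coef_PS, coef_PS, coef_PS]
  by_cases h1 : k ∈ S
  · have h2 : k ∉ T := fun h3 => Set.disjoint_left.1 h h1 h3
    rw [if_pos (Set.mem_union_left T h1), if_pos h1, if_neg h2, add_zero]
  · by_cases h2 : k ∈ T
    · rw [if_pos (Set.mem_union_right S h2), if_neg h1, if_pos h2, zero_add]
    · rw [if_neg (by rintro (h3 | h3); exacts [h1 h3, h2 h3]), if_neg h1, if_neg h2, add_zero]

theorem lam_PS (g : G) (S : Set G) :
    star (lamK b g) * PS b ((fun x => g * x) '' S) * lamK b g = PS b S := by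
  classical
  apply ContinuousLinearMap.ext
  intro x
  apply ext_coef b
  intro k
  rw [coef_PS]
  show ⟪b k, star (lamK b g) (PS b ((fun x => g * x) '' S) (lamK b g x))⟫_ℂ = _
  rw [ContinuousLinearMap.star_eq_adjoint, ContinuousLinearMap.adjoint_inner_right, lamK_basis,
    coef_PS]
  have h1 : g * k ∈ (fun x => g * x) '' S ↔ k ∈ S := by
    constructor
    · rintro ⟨y, hy, h⟩
      rw [← mul_left_cancel h]
      exact hy
    · intro h
      exact ⟨k, h, rfl⟩
  by_cases hk : k ∈ S
  · rw [if_pos (h1.2 hk), if_pos hk]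
    unfold lamK
    rw [coef_permK]
    congr 2
    show g⁻¹ * (g * k) = k
    group
  · rw [if_neg (fun h => hk (h1.1 h)), if_neg hk]

/-- `L(G)` is not hyperfinite if `G` maps onto the free group on two generators -/
theorem not_hyperfinite (q : G →* FreeGroup Bool) (g : Bool → G)
    (hg : ∀ i, q (g i) = FreeGroup.of i) :
    ¬ IsHyperfinite (Elt (LK b)) (fun x => trG b x) := by
  classical
  rintro ⟨A, hAm, hAf, hAd⟩
  have hn2 : ∀ x : Elt (LK b), norm2 (fun x => trG b x) x = N2 b x := by
    intro x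
    show Real.sqrt (trG b (star x * x)).re = N2 b x
    rw [trG_star_mul, Complex.ofReal_re, Real.sqrt_sq (show 0 ≤ N2 b x from norm_nonneg _)]
  choose n y hyn hy using fun i : Bool => hAd (La b (g i)) (1 / 64) (by norm_num)
  obtain ⟨m, hm⟩ : ∃ m, ∀ i, n i ≤ m := ⟨max (n true) (n false), fun i => by cases i <;> simp⟩
  have hfd := hAf m
  have hT := isTr_trG b
  have hpos : ∀ x : Elt (LK b), 0 ≤ (trG b (star x * x)).re ∧ (trG b (star x * x)).im = 0 := by
    intro x
    rw [trG_star_mul, Complex.ofReal_re, Complex.ofReal_im]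
    exact ⟨sq_nonneg _, rfl⟩
  have hw : ∀ i : Bool, ∃ w ∈ A m, star w * w = 1 ∧ w * star w = 1 ∧
      (trG b (star (La b (g i) - w) * (La b (g i) - w))).re < (2 * (1 / 64)) ^ 2 := by
    intro i
    refine exists_unitary_near (trG b) hT.one hT.comm hpos (A m) (La b (g i)) ?_ ?_ (y i)
      (hAm (hm i) (hyn i)) (1 / 64) (by norm_num) ?_
    · rw [star_La, La_mul, inv_mul_cancel, La_one]
    · rw [star_La, La_mul, mul_inv_cancel, La_one]
    · have h1 := hy i
      rw [hn2] at h1
      rw [trG_star_mul, Complex.ofReal_re]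
      exact pow_lt_pow_left₀ h1 (norm_nonneg _) two_ne_zero
  choose w hwA hw1 hw2 hw3 using hw
  let B : StarSubalgebra ℂ (K →L[ℂ] K) := (A m).map (LK b).toStarSubalgebra.subtype
  have hB : FiniteDimensional ℂ B := by
    have h1 : FiniteDimensional ℂ
        (Submodule.map ((LK b).toStarSubalgebra.subtype : Elt (LK b) →ₗ[ℂ] (K →L[ℂ] K))
          ((A m).toSubalgebra.toSubmodule)) := by
      have : FiniteDimensional ℂ ((A m).toSubalgebra.toSubmodule) := hfd
      infer_instance
    exact h1
  obtain ⟨ω, hω1, hω2, hω3, hω4⟩ := exists_inv_state B (b 1) (b.orthonormal.1 1)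
  -- the mean
  refine paradox q g hg (fun S => (ω (PS b S)).re) ?_ ?_ ?_ ?_
  · show (ω (PS b Set.univ)).re = 1
    rw [PS_univ, hω1, Complex.one_re]
  · intro S
    have h1 := (hω2 (PS b S)).1
    rwa [star_PS, PS_mul_PS] at h1
  · intro S T hST
    show (ω (PS b (S ∪ T))).re = (ω (PS b S)).re + (ω (PS b T)).re
    rw [PS_union b S T hST, map_add, Complex.add_re]
  · intro i S
    have hwB : ((w i : Elt (LK b)) : K →L[ℂ] K) ∈ B := ⟨w i, hwA i, rfl⟩
    have h1 : star ((w i : Elt (LK b)) : K →L[ℂ] K) * ((w i : Elt (LK b)) : K →L[ℂ] K) = 1 :=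
      congrArg Subtype.val (hw1 i)
    have h2 : ((w i : Elt (LK b)) : K →L[ℂ] K) * star ((w i : Elt (LK b)) : K →L[ℂ] K) = 1 :=
      congrArg Subtype.val (hw2 i)
    have h3 : N2 b (La b (g i) - w i) ≤ 1 / 32 := by
      have h4 := hw3 i
      rw [trG_star_mul, Complex.ofReal_re] at h4
      have h5 : N2 b (La b (g i) - w i) < 2 * (1 / 64) :=
        lt_of_pow_lt_pow_left₀ 2 (by norm_num) h4
      linarith
    have h4 := hω4 (lamK b (g i) - ((w i : Elt (LK b)) : K →L[ℂ] K)) (1 / 32) (by norm_num) (by
      rintro _ ⟨u, hu, rfl⟩ hu1 hu2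
      have hu1' : star u * u = 1 := Subtype.ext hu1
      have h5 : N2 b ((La b (g i) - w i) * u) ≤ N2 b (La b (g i) - w i) * ‖u‖ := N2_right b _ _
      have h6 : ‖u‖ ≤ 1 := norm_partial_le u 1 (norm_proj_le 1 (star_one _) (one_mul 1)) hu1'
      have h7 : N2 b ((La b (g i) - w i) * u) ≤ 1 / 32 := by
        refine h5.trans ?_
        have h8 : 0 ≤ N2 b (La b (g i) - w i) := norm_nonneg _
        nlinarith [norm_nonneg u]
      exact h7)
    have h5 := state_invariance ω hω1 hω2 (lamK b (g i)) ((w i : Elt (LK b)) : K →L[ℂ] K)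
      (PS b ((fun x => g i * x) '' S)) (by rw [star_lamK, ← lamK_mul, inv_mul_cancel, lamK_one])
      h1 (star_PS b _) (PS_mul_PS b _) (1 / 32) (by norm_num) h4
    rw [lam_PS, hω3 _ hwB h1 h2] at h5
    have h6 : |(ω (PS b ((fun x => g i * x) '' S))).re - (ω (PS b S)).re| ≤
        ‖ω (PS b S) - ω (PS b ((fun x => g i * x) '' S))‖ := by
      rw [← Complex.sub_re, norm_sub_rev]
      exact Complex.abs_re_le_norm _
    exact h6.trans (h5.trans (by norm_num))

end

end Pool.Agent.Helper463.BC
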