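import Mathlib
import Pool.Agent.Helper278.DefsG
import Pool.Agent.Helper278.RGStmt

set_option autoImplicit false

open scoped Topology BoundedContinuousFunction
open Filter

namespace Pool.Agent.Helper463.BC

open Pool.Agent.Helper278 Pool.Agent.Helper278.RG

universe u w

/-- The image of `M` in its ultrapower `Q` under the diagonal embedding, which sends `x` to the
class of the constant sequence `(x, x, …)`; here `π` sends a bounded sequence to its class. -/
def diagonalCopy {M : Type u} [NormedRing M] [StarRing M] [CStarRing M] [NormedAlgebra ℂ M]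
    [StarModule ℂ M] {Q : Type u} [Ring Q] [StarRing Q] [Algebra ℂ Q]
    (π : (ℕ →ᵇ M) →⋆ₐ[ℂ] Q) : Set Q :=
  Set.range fun x : M => π (BoundedContinuousFunction.const ℕ x)

/-- For every nonprincipal ultrafilter `U` on `ℕ` and every model `Q` of the tracial ultrapower
`M^U`, the relative commutant in `Q` of the relative commutant in `Q` of (the diagonal copy of) `M`
is (the diagonal copy of) `M`, that is, `(M' ∩ M^U)' ∩ M^U = M`. -/
def UltrapowerBicommutantEq {M : Type u} [NormedRing M] [StarRing M] [CStarRing M]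
    [NormedAlgebra ℂ M] [StarModule ℂ M] (τ : M → ℂ) : Prop :=
  ∀ U : Ultrafilter ℕ, (∀ n, {n} ∉ U) → ∀ (Q : Type u) [Ring Q] [StarRing Q] [Algebra ℂ Q]
    [StarModule ℂ Q] (π : (ℕ →ᵇ M) →⋆ₐ[ℂ] Q) (σ : Q → ℂ), IsTracialUltrapower τ U π σ →
    Set.centralizer (Set.centralizer (diagonalCopy π)) = diagonalCopy π

section vN

variable {H : Type u} [NormedAddCommGroup H] [InnerProductSpace ℂ H] [CompleteSpace H]

/-- The von Neumann algebra `N` with trace `τ` is hyperfinite. -/
def Hyperfinite (N : VonNeumannAlgebra H) (τ : Elt N → ℂ) : Prop :=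
  IsHyperfinite (Elt N) τ

/-- The tracial ultrapower of `(N, τ)` exists for every nonprincipal ultrafilter on `ℕ`. -/
def HasUltrapowers (N : VonNeumannAlgebra H) (τ : Elt N → ℂ) : Prop :=
  UltrapowersExist (M := Elt N) τ

/-- `(N' ∩ N^U)' ∩ N^U = N` for every nonprincipal ultrafilter `U` on `ℕ`. -/
def BicommutantEq (N : VonNeumannAlgebra H) (τ : Elt N → ℂ) : Prop :=
  UltrapowerBicommutantEq (M := Elt N) τ

/-- `N` is isomorphic (as a star algebra) to no hyperfinite II₁ factor `R`. -/
def NotIsoHyperfinite (N : VonNeumannAlgebra H) : Prop :=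
  ∀ (H' : Type w) [NormedAddCommGroup H'] [InnerProductSpace ℂ H'] [CompleteSpace H']
    (R : VonNeumannAlgebra H') (τ' : Elt R → ℂ), IsIIOneFactor R τ' → Hyperfinite R τ' →
    IsEmpty (Elt N ≃⋆ₐ[ℂ] Elt R)

end vN

end Pool.Agent.Helper463.BC
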