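import Mathlib
import Pool.Agent.Helper463.BCDich
import Pool.Agent.Helper278.RGStmt

set_option autoImplicit false
set_option linter.unusedSectionVars false

open scoped InnerProductSpace ComplexOrder BoundedContinuousFunction ComplexConjugate
open Filter Topology

namespace Pool.Agent.Helper463.BC

open Pool.Agent.Helper278 Pool.Agent.Helper278.RG

universe u v w

theorem atTop_of_nonprincipal {U : Ultrafilter ℕ} (hU : ∀ n, {n} ∉ U) :
    (U : Filter ℕ) ≤ atTop := by
  rcases Ultrafilter.le_cofinite_or_eq_pure U with h1 | ⟨n, hn⟩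
  · rwa [Nat.cofinite_eq_atTop] at h1
  · exact absurd (by rw [hn]; exact Set.mem_singleton n) (hU n)

/-- the diagonal argument -/
theorem diag {U : Ultrafilter ℕ} (hU : ∀ n, {n} ∉ U) (P : ℕ → ℕ → Prop)
    (hP : ∀ j, ∀ᶠ k in (U : Filter ℕ), P j k) :
    ∃ J : ℕ → ℕ, (∀ᶠ k in (U : Filter ℕ), P (J k) k) ∧ ∀ j, ∀ᶠ k in (U : Filter ℕ), j ≤ J k := by
  classical
  have hall : ∀ j, ∀ᶠ k in (U : Filter ℕ), ∀ i ≤ j, P i k := by
    intro j
    induction j with
    | zero =>
      refine (hP 0).mono fun k hk i hi => ?_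
      rw [Nat.le_zero.1 hi]
      exact hk
    | succ j ih =>
      refine (ih.and (hP (j + 1))).mono fun k hk i hi => ?_
      rcases Nat.lt_or_ge i (j + 1) with h | h
      · exact hk.1 i (Nat.lt_succ_iff.1 h)
      · rw [le_antisymm hi h]
        exact hk.2
  have hge : ∀ j, ∀ᶠ k in (U : Filter ℕ), j ≤ k := fun j =>
    (atTop_of_nonprincipal hU) (eventually_ge_atTop j)
  refine ⟨fun k => Nat.findGreatest (fun j => ∀ i ≤ j, P i k) k, ?_, ?_⟩
  · refine ((hall 0).and (hge 0)).mono fun k hk => ?_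
    have h1 := Nat.findGreatest_spec (P := fun j => ∀ i ≤ j, P i k) (Nat.zero_le k) hk.1
    exact h1 _ le_rfl
  · intro j
    refine ((hall j).and (hge j)).mono fun k hk => ?_
    exact Nat.le_findGreatest hk.2 hk.1

section wlim

variable {H : Type u} [NormedAddCommGroup H] [InnerProductSpace ℂ H] [CompleteSpace H]

/-- weak limits of bounded sequences in a von Neumann algebra -/
theorem exists_wlim (N : VonNeumannAlgebra H) (U : Ultrafilter ℕ) (x : ℕ →ᵇ Elt N) :
    ∃ y : Elt N, ∀ p q : H, Tendsto (fun n => ⟪p, (x n : H →L[ℂ] H) q⟫_ℂ) U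
      (𝓝 ⟪p, (y : H →L[ℂ] H) q⟫_ℂ) := by
  obtain ⟨C, hC0, hC⟩ : ∃ C : ℝ, 0 < C ∧ ∀ n, ‖(x n : H →L[ℂ] H)‖ ≤ C := by
    refine ⟨‖x‖ + 1, by positivity, fun n => ?_⟩
    have := x.norm_coe_le_norm n
    have h2 : ‖(x n : H →L[ℂ] H)‖ = ‖x n‖ := rfl
    rw [h2]
    linarith
  have hcomp := isCompact_wot_ball (H := H)
  let z : ℕ → H →WOT[ℂ] H := fun n => ContinuousLinearMapWOT.ofCLM (((C : ℂ)⁻¹) • (x n : H →L[ℂ] H))
  have hz : ∀ n, z n ∈ {T : H →WOT[ℂ] H | ‖T.toCLM‖ ≤ 1} := by
    intro n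
    show ‖((C : ℂ)⁻¹) • (x n : H →L[ℂ] H)‖ ≤ 1
    rw [norm_smul, norm_inv, Complex.norm_real, Real.norm_eq_abs, abs_of_pos hC0,
      inv_mul_le_iff₀ hC0, mul_one]
    exact hC n
  obtain ⟨T, hT1, hT2⟩ := (isCompact_iff_ultrafilter_le_nhds.1 hcomp) (U.map z) (by
    rw [Ultrafilter.coe_map, le_principal_iff, mem_map]
    exact Filter.univ_mem' hz)
  rw [ContinuousLinearMapWOT.le_nhds_iff_forall_inner_apply_le_nhds] at hT2
  have hT3 : ∀ p q : H, Tendsto (fun n => ⟪p, (x n : H →L[ℂ] H) q⟫_ℂ) U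
      (𝓝 ⟪p, ((C : ℂ) • T.toCLM) q⟫_ℂ) := by
    intro p q
    have h1 : Tendsto (fun n => ⟪p, z n q⟫_ℂ) U (𝓝 ⟪p, T q⟫_ℂ) := hT2 q p
    have h2 := h1.const_mul (C : ℂ)
    have h3 : (C : ℂ) * ⟪p, T q⟫_ℂ = ⟪p, ((C : ℂ) • T.toCLM) q⟫_ℂ := by
      show _ = ⟪p, (C : ℂ) • (T q)⟫_ℂ
      rw [inner_smul_right]
    rw [h3] at h2
    refine h2.congr fun n => ?_
    show (C : ℂ) * ⟪p, ((C : ℂ)⁻¹) • ((x n : H →L[ℂ] H) q)⟫_ℂ = _
    rw [inner_smul_right, ← mul_assoc, mul_inv_cancel₀ (Complex.ofReal_ne_zero.2 hC0.ne'), one_mul]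
  refine ⟨⟨(C : ℂ) • T.toCLM, ?_⟩, hT3⟩
  -- membership
  have hN : ((C : ℂ) • T.toCLM) ∈ Set.centralizer (Set.centralizer (N : Set (H →L[ℂ] H))) := by
    rw [Set.mem_centralizer_iff]
    intro t ht
    rw [Set.mem_centralizer_iff] at ht
    apply ContinuousLinearMap.ext
    intro q
    refine ext_inner_left ℂ fun p => ?_
    have h1 := hT3 p (t q)
    have h2 := hT3 (ContinuousLinearMap.adjoint t p) q
    have h3 : ∀ n, ⟪ContinuousLinearMap.adjoint t p, (x n : H →L[ℂ] H) q⟫_ℂ =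
        ⟪p, (x n : H →L[ℂ] H) (t q)⟫_ℂ := by
      intro n
      rw [ContinuousLinearMap.adjoint_inner_left]
      have h4 := ht (x n : H →L[ℂ] H) (x n).2
      have h5 := congrArg (fun S : H →L[ℂ] H => S q) h4
      have h6 : (x n : H →L[ℂ] H) (t q) = t ((x n : H →L[ℂ] H) q) := h5
      rw [h6]
    have h4 := tendsto_nhds_unique (h2.congr h3) h1
    rw [ContinuousLinearMap.adjoint_inner_left] at h4
    exact h4
  rw [VonNeumannAlgebra.centralizer_centralizer] at hN
  exact hN

end wlim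

section

variable {G : Type v} [Group G] {K : Type v} [NormedAddCommGroup K] [InnerProductSpace ℂ K]
  [CompleteSpace K] (b : HilbertBasis G ℂ K)
variable {Q : Type v} [Ring Q] [StarRing Q] [Algebra ℂ Q] [StarModule ℂ Q]
variable {U : Ultrafilter ℕ} {π : (ℕ →ᵇ Elt (LK b)) →⋆ₐ[ℂ] Q} {σ : Q → ℂ}

theorem N2_nonneg (x : Elt (LK b)) : 0 ≤ N2 b x := norm_nonneg _

theorem pi_eq (hπ : IsTracialUltrapower (TL b).τ U π σ) (x y : ℕ →ᵇ Elt (LK b)) :
    π x = π y ↔ Tendsto (fun n => N2 b (x n - y n)) U (𝓝 0) := by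
  rw [pi_eq_iff hπ]
  simp only [n2_TL]

/-- the tight case -/
theorem tight_case (hπ : IsTracialUltrapower (TL b).τ U π σ) (x : ℕ →ᵇ Elt (LK b))
    (h : ∀ η : ℝ, 0 < η → ∃ S : Finset G, ∀ᶠ k in (U : Filter ℕ), tail b S (x k) ≤ η) :
    ∃ y : Elt (LK b), π (BoundedContinuousFunction.const ℕ y) = π x := by
  classical
  obtain ⟨y, hy⟩ := exists_wlim (LK b) U x
  refine ⟨y, ?_⟩
  rw [pi_eq b hπ]
  have hcf : ∀ g, Tendsto (fun n => cf b (x n) g) U (𝓝 (cf b y g)) := fun g => hy (b g) (b 1)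
  -- the tail of y
  have htail : ∀ (S : Finset G) (η : ℝ), (∀ᶠ k in (U : Filter ℕ), tail b S (x k) ≤ η) →
      tail b S y ≤ η := by
    intro S η hS
    have hη : 0 ≤ η := by
      obtain ⟨k, hk⟩ := hS.exists
      exact (tail_nonneg b S (x k)).trans hk
    have h1 := hasSum_cf b (y - Lop b (trunc b S y))
    have h2 : tail b S y ^ 2 ≤ η ^ 2 := by
      refine hasSum_le_of_sum_le h1 fun A => ?_
      have h3 : Tendsto (fun n => ∑ g ∈ A, ‖cf b (x n - Lop b (trunc b S (x n))) g‖ ^ 2) U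
          (𝓝 (∑ g ∈ A, ‖cf b (y - Lop b (trunc b S y)) g‖ ^ 2)) := by
        refine tendsto_finsetSum _ fun g _ => ?_
        simp only [cf_tail]
        by_cases hg : g ∈ S
        · simp only [if_pos hg]
          exact tendsto_const_nhds
        · simp only [if_neg hg]
          exact ((hcf g).norm).pow 2
      refine le_of_tendsto h3 (hS.mono fun k hk => ?_)
      refine (sum_cf_le b _ A).trans ?_
      exact pow_le_pow_left₀ (tail_nonneg b S (x k)) hk 2
    exact (pow_le_pow_iff_left₀ (tail_nonneg b S y) hη two_ne_zero).1 h2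
  rw [Metric.tendsto_nhds]
  intro ε hε
  obtain ⟨S, hS⟩ := h (ε / 4) (by positivity)
  have hS' := htail S _ hS
  have h3 : Tendsto (fun n => ∑ g ∈ S, ‖cf b (x n) g - cf b y g‖ ^ 2) U
      (𝓝 (∑ g ∈ S, ‖cf b y g - cf b y g‖ ^ 2)) :=
    tendsto_finsetSum _ fun g _ => (((hcf g).sub_const _).norm).pow 2
  have h4 : ∀ᶠ n in (U : Filter ℕ), ∑ g ∈ S, ‖cf b (x n) g - cf b y g‖ ^ 2 < (ε / 4) ^ 2 := by
    refine (tendsto_order.1 h3).2 _ ?_
    simp only [sub_self, norm_zero]
    rw [Finset.sum_eq_zero (fun _ _ => by norm_num)]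
    positivity
  refine (hS.and h4).mono fun n hn => ?_
  obtain ⟨hn1, hn2⟩ := hn
  have h5 : BoundedContinuousFunction.const ℕ y n = y := rfl
  rw [h5, dist_zero_right, Real.norm_eq_abs, abs_of_nonneg (N2_nonneg b _)]
  have h6 : y - x n = (y - Lop b (trunc b S y)) + (Lop b (trunc b S y) - Lop b (trunc b S (x n))) +
      (Lop b (trunc b S (x n)) - x n) := by abel
  have h7 : N2 b (Lop b (trunc b S y) - Lop b (trunc b S (x n))) ≤ ε / 4 := by
    have h8 := hasSum_cf b (Lop b (trunc b S y) - Lop b (trunc b S (x n)))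
    have h9 : N2 b (Lop b (trunc b S y) - Lop b (trunc b S (x n))) ^ 2 =
        ∑ g ∈ S, ‖cf b (x n) g - cf b y g‖ ^ 2 := by
      have h10 : HasSum (fun g => ‖cf b (Lop b (trunc b S y) - Lop b (trunc b S (x n))) g‖ ^ 2)
          (∑ g ∈ S, ‖cf b (Lop b (trunc b S y) - Lop b (trunc b S (x n))) g‖ ^ 2) :=
        hasSum_sum_of_ne_finset_zero (fun g hg => by
          rw [cf_sub, cf_Lop, cf_Lop, coeff_trunc, coeff_trunc, if_neg hg, if_neg hg]
          norm_num)
      rw [h8.unique h10]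
      refine Finset.sum_congr rfl fun g hg => ?_
      rw [cf_sub, cf_Lop, cf_Lop, coeff_trunc, coeff_trunc, if_pos hg, if_pos hg, norm_sub_rev]
    have h11 : N2 b (Lop b (trunc b S y) - Lop b (trunc b S (x n))) ^ 2 ≤ (ε / 4) ^ 2 := by
      rw [h9]
      exact hn2.le
    exact (pow_le_pow_iff_left₀ (norm_nonneg _) (by positivity) two_ne_zero).1 h11
  have h8 : N2 b (Lop b (trunc b S (x n)) - x n) ≤ ε / 4 := by
    rw [N2_sub_comm]
    exact hn1
  have h9 : N2 b (y - Lop b (trunc b S y)) ≤ ε / 4 := hS'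
  rw [h6]
  have h10 := N2_add b ((y - Lop b (trunc b S y)) + (Lop b (trunc b S y) - Lop b (trunc b S (x n))))
    (Lop b (trunc b S (x n)) - x n)
  have h11 := N2_add b (y - Lop b (trunc b S y)) (Lop b (trunc b S y) - Lop b (trunc b S (x n)))
  linarith

theorem norm_unit_le (a : Elt (LK b)) (ha : star a * a = 1) : ‖a‖ ≤ 1 :=
  norm_partial_le a 1 (norm_proj_le 1 (star_one _) (one_mul 1)) ha

/-- the ultrapower bicommutant of `L(G)` is `L(G)` when `G` satisfies the dichotomy -/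
theorem bicommutant [Countable G] (hD : Dich b) (hU : ∀ n, {n} ∉ U)
    (hπ : IsTracialUltrapower (TL b).τ U π σ) :
    Set.centralizer (Set.centralizer
      (Set.range fun x : Elt (LK b) => π (BoundedContinuousFunction.const ℕ x))) =
      Set.range fun x : Elt (LK b) => π (BoundedContinuousFunction.const ℕ x) := by
  classical
  refine Set.Subset.antisymm ?_ Set.subset_centralizer_centralizer
  intro q hq
  obtain ⟨x, rfl⟩ := hπ.surj q
  by_cases htight : ∀ η : ℝ, 0 < η → ∃ S : Finset G, ∀ᶠ k in (U : Filter ℕ), tail b S (x k) ≤ η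
  · obtain ⟨y, hy⟩ := tight_case b hπ x htight
    exact ⟨y, hy⟩
  · exfalso
    push Not at htight
    obtain ⟨η, hη, hS⟩ := htight
    have hS' : ∀ S : Finset G, ∀ᶠ k in (U : Filter ℕ), η < tail b S (x k) := by
      exact hS
    obtain ⟨e, he⟩ := exists_surjective_nat G
    choose KK hKK using fun j : ℕ => hD ((Finset.range j).image e) (1 / ((j : ℝ) + 1)) (by positivity)
    obtain ⟨J, hJ1, hJ2⟩ := diag hU (fun j k => η < tail b (KK j) (x k)) (fun j => hS' (KK j))
    have hex : ∀ k, ∃ a : Elt (LK b), star a * a = 1 ∧ a * star a = 1 ∧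
        (∀ f ∈ (Finset.range (J k)).image e, N2 b (a * La b f - La b f * a) ≤
          1 / (((J k : ℕ) : ℝ) + 1)) ∧
        (η < tail b (KK (J k)) (x k) → η / 20 ≤ N2 b (a * x k - x k * a)) := by
      intro k
      by_cases hk : η < tail b (KK (J k)) (x k)
      · obtain ⟨a, h1, h2, h3, h4⟩ := hKK (J k) η (x k) hη hk
        exact ⟨a, h1, h2, h3, fun _ => h4⟩
      · refine ⟨1, by rw [star_one, one_mul], by rw [star_one, one_mul], ?_, fun h => absurd h hk⟩
        intro f _
        rw [one_mul, mul_one, sub_self]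
        unfold N2
        show ‖((0 : K →L[ℂ] K)) (b 1)‖ ≤ _
        rw [zero_apply, norm_zero]
        positivity
    choose a ha1 ha2 ha3 ha4 using hex
    let A : ℕ →ᵇ Elt (LK b) := mkB' a (fun k => norm_unit_le b (a k) (ha1 k))
    have hAk : ∀ k, A k = a k := fun k => rfl
    -- commutes with the canonical unitaries
    have hLa : ∀ g, Tendsto (fun k => N2 b (a k * La b g - La b g * a k)) U (𝓝 0) := by
      intro g
      obtain ⟨i, rfl⟩ := he g
      rw [Metric.tendsto_nhds]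
      intro ε hε
      obtain ⟨n, hn⟩ := exists_nat_one_div_lt hε
      refine (hJ2 (max n (i + 1))).mono fun k hk => ?_
      rw [dist_zero_right, Real.norm_eq_abs, abs_of_nonneg (N2_nonneg b _)]
      refine lt_of_le_of_lt (ha3 k (e i) ?_) (lt_of_le_of_lt ?_ hn)
      · rw [Finset.mem_image]
        exact ⟨i, Finset.mem_range.2 (by have := le_max_right n (i + 1); omega), rfl⟩
      · have h1 : n ≤ J k := (le_max_left _ _).trans hk
        have h2 : (n : ℝ) ≤ (J k : ℝ) := by exact_mod_cast h1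
        exact one_div_le_one_div_of_le (by positivity) (by linarith)
    -- commutes with group algebra
    have hCG : ∀ v : MonoidAlgebra ℂ G,
        Tendsto (fun k => N2 b (a k * Lop b v - Lop b v * a k)) U (𝓝 0) := by
      intro v
      have h1 : ∀ k, N2 b (a k * Lop b v - Lop b v * a k) ≤
          ∑ g ∈ v.coeff.support, ‖v.coeff g‖ * N2 b (a k * La b g - La b g * a k) := by
        intro k
        have h2 : a k * Lop b v - Lop b v * a k =
            ∑ g ∈ v.coeff.support, v.coeff g • (a k * La b g - La b g * a k) := by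
          rw [Lop_apply, Finsupp.sum, Finset.mul_sum, Finset.sum_mul, ← Finset.sum_sub_distrib]
          refine Finset.sum_congr rfl fun g _ => ?_
          rw [mul_smul_comm, smul_mul_assoc, smul_sub]
        rw [h2]
        unfold N2
        rw [AddSubmonoidClass.coe_finsetSum, sum_apply]
        refine (norm_sum_le _ _).trans (Finset.sum_le_sum fun g _ => ?_)
        show ‖v.coeff g • (((a k * La b g - La b g * a k : Elt (LK b)) : K →L[ℂ] K) (b 1))‖ ≤ _
        rw [norm_smul]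
      refine squeeze_zero (fun k => norm_nonneg _) h1 ?_
      have h3 : Tendsto (fun k => ∑ g ∈ v.coeff.support,
          ‖v.coeff g‖ * N2 b (a k * La b g - La b g * a k)) U
          (𝓝 (∑ g ∈ v.coeff.support, ‖v.coeff g‖ * 0)) :=
        tendsto_finsetSum _ fun g _ => (hLa g).const_mul _
      rwa [Finset.sum_eq_zero (fun _ _ => mul_zero _)] at h3
    have hN : ∀ y : Elt (LK b), Tendsto (fun k => N2 b (a k * y - y * a k)) U (𝓝 0) := by
      intro y
      rw [Metric.tendsto_nhds]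
      intro ε hε
      obtain ⟨z, ⟨v, rfl⟩, hz⟩ := dense_CG b y (ε / 4) (by positivity)
      refine ((Metric.tendsto_nhds.1 (hCG v)) (ε / 4) (by positivity)).mono fun k hk => ?_
      rw [dist_zero_right, Real.norm_eq_abs, abs_of_nonneg (N2_nonneg b _)] at hk ⊢
      have h1 := N2_sub_mul_le b (a k) (Lop b v) y (ha1 k) (ha2 k)
      rw [N2_sub_comm b (Lop b v) y] at h1
      have hz' : N2 b (y - Lop b v) < ε / 4 := hz
      linarith
    have hmem : π A ∈ Set.centralizer
        (Set.range fun x : Elt (LK b) => π (BoundedContinuousFunction.const ℕ x)) := by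
      rw [Set.mem_centralizer_iff]
      rintro _ ⟨y, rfl⟩
      show π (BoundedContinuousFunction.const ℕ y) * π A = π A * π (BoundedContinuousFunction.const ℕ y)
      rw [← map_mul, ← map_mul, pi_eq b hπ]
      refine (hN y).congr fun k => ?_
      show N2 b (a k * y - y * a k) = N2 b (y * a k - a k * y)
      exact N2_sub_comm b _ _
    have hcomm := Set.mem_centralizer_iff.1 hq _ hmem
    rw [← map_mul, ← map_mul, pi_eq b hπ] at hcomm
    have h1 : ∀ᶠ k in (U : Filter ℕ), η / 20 ≤ N2 b ((A * x) k - (x * A) k) :=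
      hJ1.mono fun k hk => ha4 k hk
    have h2 := ge_of_tendsto hcomm h1
    linarith

end

end Pool.Agent.Helper463.BC
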