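import Mathlib
import Pool.Agent.Helper463.BCStmt
import Pool.Agent.Helper463.BCUlt
import Pool.Agent.Helper463.BCGroup
import Pool.Agent.Helper463.BCHyp

set_option autoImplicit false
set_option linter.unusedSectionVars false

open scoped InnerProductSpace ComplexOrder BoundedContinuousFunction ComplexConjugate
open Filter Topology

namespace Pool.Agent.Helper463.BC

open Pool.Agent.Helper278 Pool.Agent.Helper278.RG

universe u v w

section

variable {H : Type u} [NormedAddCommGroup H] [InnerProductSpace ℂ H] [CompleteSpace H]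
variable {N : VonNeumannAlgebra H}

/-- the trace of a II₁ factor is unique (among all tracial states) -/
theorem trace_unique_factor (T : TracialState N) (hL : LyapProp T.τ) (hN : HasTrivialCenter N)
    (φ : Elt N →ₗ[ℂ] ℂ) (hφ : IsTr φ) (x : Elt N) : φ x = T.τ x := by
  have hA := trAlg T
  let π : (ℕ →ᵇ Elt N) →⋆ₐ[ℂ] Elt N :=
    { toFun := fun f => f 0
      map_one' := rfl
      map_mul' := fun _ _ => rfl
      map_zero' := rfl
      map_add' := fun _ _ => rfl
      commutes' := fun _ => rfl
      map_star' := fun _ => rfl }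
  have hπ : IsTracialUltrapower (U := (pure 0 : Ultrafilter ℕ)) T.τ π (T.τ : Elt N → ℂ) := by
    refine ⟨?_, ?_, ?_⟩
    · intro y
      exact ⟨BoundedContinuousFunction.const ℕ y, rfl⟩
    · intro f
      constructor
      · intro h
        have h0 : f 0 = 0 := h
        have h1 : T.τ (star (f 0) * f 0) = 0 := by rw [h0, mul_zero, map_zero]
        have h2 := tendsto_pure_nhds (fun n => T.τ (star (f n) * f n)) 0
        rw [h1] at h2
        exact h2
      · intro h
        have h2 := tendsto_pure_nhds (fun n => T.τ (star (f n) * f n)) 0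
        have h3 := tendsto_nhds_unique h2 h
        exact hA.faithful _ h3
    · intro f
      exact tendsto_pure_nhds (fun n => T.τ (f n)) 0
  exact trace_unique hπ hL hN φ hφ x

/-- hyperfiniteness passes along isomorphisms of II₁ factors -/
theorem hyperfinite_of_equiv {τ : Elt N → ℂ} (hN : IsIIOneFactor N τ) {H' : Type v}
    [NormedAddCommGroup H'] [InnerProductSpace ℂ H'] [CompleteSpace H'] (R : VonNeumannAlgebra H')
    (τ' : Elt R → ℂ) (hR : IsIIOneFactor R τ') (hyp : IsHyperfinite (Elt R) τ')
    (Φ : Elt N ≃⋆ₐ[ℂ] Elt R) : IsHyperfinite (Elt N) τ := by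
  let T : TracialState N := mkState N τ hN.normal hN.trace
  let T' : TracialState R := mkState R τ' hR.normal hR.trace
  have hT : ∀ x, T.τ x = τ x := fun x => mkState_apply N τ hN.normal hN.trace x
  have hT' : ∀ x, T'.τ x = τ' x := fun x => mkState_apply R τ' hR.normal hR.trace x
  have hA' := trAlg T'
  let φ : Elt N →ₗ[ℂ] ℂ :=
    { toFun := fun x => T'.τ (Φ x)
      map_add' := fun x y => by rw [map_add, map_add]
      map_smul' := fun c x => by rw [map_smul, map_smul]; rfl }
  have hφ : ∀ x, φ x = T'.τ (Φ x) := fun x => rfl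
  have hφT : IsTr φ := by
    refine ⟨?_, ?_, ?_⟩
    · rw [hφ, map_one, hA'.one]
    · intro x y
      rw [hφ, hφ, map_mul Φ, map_mul Φ, hA'.comm]
    · intro x
      rw [hφ, map_mul, map_star]
      exact hA'.nonneg _
  have hu := trace_unique_factor T (lyapProp T (diffuse_of_factor T hN.center hN.infinite))
    hN.center φ hφT
  have hτ : ∀ x, τ' (Φ x) = τ x := by
    intro x
    rw [← hT' (Φ x), ← hT x, ← hu x, hφ]
  obtain ⟨A, hAm, hAf, hAd⟩ := hyp
  refine ⟨fun n => (A n).map (Φ.symm : Elt R →⋆ₐ[ℂ] Elt N), ?_, ?_, ?_⟩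
  · intro m n hmn
    exact StarSubalgebra.map_mono (hAm hmn)
  · intro n
    have h0 := hAf n
    have h1 : FiniteDimensional ℂ
        (Submodule.map ((Φ.symm : Elt R →⋆ₐ[ℂ] Elt N) : Elt R →ₗ[ℂ] Elt N)
          ((A n).toSubalgebra.toSubmodule)) := by
      have : FiniteDimensional ℂ ((A n).toSubalgebra.toSubmodule) := h0
      infer_instance
    exact h1
  · intro x ε hε
    obtain ⟨n, y, hy, hxy⟩ := hAd (Φ x) ε hε
    refine ⟨n, Φ.symm y, ⟨y, hy, rfl⟩, ?_⟩
    have h1 : norm2 τ (x - Φ.symm y) = norm2 τ' (Φ x - y) := by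
      unfold norm2
      rw [← hτ, map_mul, map_star, map_sub, StarAlgEquiv.apply_symm_apply]
    rw [h1]
    exact hxy

end

section

variable {G : Type v} [Group G] {K : Type w} [NormedAddCommGroup K] [InnerProductSpace ℂ K]
  [CompleteSpace K] (b : HilbertBasis G ℂ K)

include b in
theorem separable_of_basis [Countable G] : TopologicalSpace.SeparableSpace K := by
  have h1 : TopologicalSpace.IsSeparable (Submodule.span ℂ (Set.range b) : Set K) :=
    (Set.countable_range b).isSeparable.span
  have h2 := h1.closure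
  have h3 : closure (Submodule.span ℂ (Set.range b) : Set K) = Set.univ := by
    rw [← Submodule.topologicalClosure_coe, b.dense_span]
    rfl
  rw [h3] at h2
  exact TopologicalSpace.isSeparable_univ_iff.1 h2

end

/-- The ultrapower bicommutant problem has a negative answer. -/
theorem final : ∃ (H : Type) (_ : NormedAddCommGroup H) (_ : InnerProductSpace ℂ H)
    (_ : CompleteSpace H) (N : VonNeumannAlgebra H) (τ : Elt N → ℂ),
    TopologicalSpace.SeparableSpace H ∧ IsIIOneFactor N τ ∧ HasUltrapowers N τ ∧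
    BicommutantEq N τ ∧ ¬ Hyperfinite N τ ∧ NotIsoHyperfinite.{0, w} N := by
  obtain ⟨d⟩ := nonempty_WD
  have hc : Countable (GG d) := countable_GG d
  have hi : Infinite (GG d) := infinite_GG d
  let b : HilbertBasis (GG d) ℂ (lp (fun _ : GG d => ℂ) 2) := default
  have hfac : IsIIOneFactor (LK b) (fun x => trG b x) := isIIOne_LK b (icc_GG d)
  have hD : Dich b := dich b (typeI d) (typeII d)
  have hnh : ¬ IsHyperfinite (Elt (LK b)) (fun x => trG b x) := by
    refine not_hyperfinite b
      ((MonoidHom.snd (Equiv.Perm (Om d)) (FreeGroup Bool)).comp (GG d).subtype)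
      (fun i => ⟨(act d (FreeGroup.of i), FreeGroup.of i), ?_⟩) (fun i => rfl)
    show {x | act d (FreeGroup.of i) x ≠ act d (FreeGroup.of i) x}.Finite
    simp
  refine ⟨lp (fun _ : GG d => ℂ) 2, inferInstance, inferInstance, inferInstance, LK b,
    fun x => trG b x, separable_of_basis b, hfac, fun U _ => exists_ultrapower (TL b) U, ?_, hnh, ?_⟩
  · intro U hU Q _ _ _ _ π σ hπ
    exact bicommutant b hD hU hπ
  · intro H' _ _ _ R τ' hR hyp
    exact ⟨fun Φ => hnh (hyperfinite_of_equiv hfac R τ' hR hyp Φ)⟩

end Pool.Agent.Helper463.BC
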