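import Mathlib
import Pool.Agent.Helper278.DefsG
import Pool.Agent.Helper278.CEStmt
import Pool.Agent.Helper436.SN.StmtG

set_option autoImplicit false

open scoped InnerProductSpace ComplexOrder Topology
open Filter

namespace Pool.Agent.Helper463.EXV

open Pool.Agent.Helper278

section

variable {H : Type} [NormedAddCommGroup H] [InnerProductSpace ℂ H] [CompleteSpace H]

/-- A Hilbert `M`-`M` bimodule on the Hilbert space `L`: commuting normal unital star
representations `l` of `M` (left action `x ξ = l x ξ`) and `r` of the opposite algebra (right action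
`ξ x = r x ξ`). Normality: all vector functionals are normal on `M`. -/
structure Bimod (M : VonNeumannAlgebra H) (L : Type) [NormedAddCommGroup L]
    [InnerProductSpace ℂ L] [CompleteSpace L] where
  l : Elt M →⋆ₐ[ℂ] (L →L[ℂ] L)
  r : (Elt M)ᵐᵒᵖ →⋆ₐ[ℂ] (L →L[ℂ] L)
  comm : ∀ x y, l x * r y = r y * l x
  normal_l : ∀ ξ : L, IsNormalPositive M fun x => ⟪ξ, l x ξ⟫_ℂ
  normal_r : ∀ ξ : L, IsNormalPositive M fun x => ⟪ξ, r (MulOpposite.op x) ξ⟫_ℂ

/-- Property (T) of a von Neumann algebra: for every `ε > 0` there are a finite set `F ⊆ M` and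
`δ > 0` such that for every Hilbert `M`-`M` bimodule and every unit vector `ξ` in it with
`‖x ξ - ξ x‖ < δ` for all `x ∈ F` there is a nonzero central vector `η` with `‖η - ξ‖ ≤ ε`. -/
def PropT (M : VonNeumannAlgebra H) : Prop :=
  ∀ ε : ℝ, 0 < ε → ∃ (F : Finset (Elt M)) (δ : ℝ), 0 < δ ∧
    ∀ (L : Type) [NormedAddCommGroup L] [InnerProductSpace ℂ L] [CompleteSpace L]
      (B : Bimod M L) (ξ : L), ‖ξ‖ = 1 →
      (∀ x ∈ F, ‖B.l x ξ - B.r (MulOpposite.op x) ξ‖ < δ) →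
      ∃ η : L, η ≠ 0 ∧ ‖η - ξ‖ ≤ ε ∧ ∀ x, B.l x η = B.r (MulOpposite.op x) η

/-- `φ` is completely positive: for all `x₁, …, xₙ` in `N` the matrix `(φ(x_i* x_j))` is
positive. -/
def IsCP (N : VonNeumannAlgebra H) (φ : Elt N →ₗ[ℂ] Elt N) : Prop :=
  ∀ (n : ℕ) (x : Fin n → Elt N) (ξ : Fin n → H),
    0 ≤ ∑ i, ∑ j, ⟪ξ i, (φ (star (x i) * x j) : H →L[ℂ] H) (ξ j)⟫_ℂ

/-- The positive map `φ` is normal: its composition with every vector functional is a normal
positive functional. -/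
def IsNormalMap (N : VonNeumannAlgebra H) (φ : Elt N →ₗ[ℂ] Elt N) : Prop :=
  ∀ ζ : H, IsNormalPositive N fun x => ⟪ζ, (φ x : H →L[ℂ] H) ζ⟫_ℂ

/-- `φ` induces a compact operator on `L²(N, τ)`: the image of the unit ball of the 2-norm is
totally bounded. -/
def IsL2Compact (N : VonNeumannAlgebra H) (τ : Elt N → ℂ) (φ : Elt N →ₗ[ℂ] Elt N) : Prop :=
  ∀ ε : ℝ, 0 < ε → ∃ F : Finset (Elt N), ∀ x, norm2 τ x ≤ 1 → ∃ y ∈ F, norm2 τ (φ x - y) ≤ ε

/-- The Haagerup property of `(N, τ)`: there are normal, unital, trace preserving, completely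
positive maps `φ_k : N → N` that are compact on `L²(N, τ)`, with `‖φ_k(x) - x‖₂ → 0` for all
`x`. -/
def HaagerupProp (N : VonNeumannAlgebra H) (τ : Elt N → ℂ) : Prop :=
  ∃ φ : ℕ → (Elt N →ₗ[ℂ] Elt N), (∀ k, IsNormalMap N (φ k)) ∧ (∀ k, IsCP N (φ k)) ∧
    (∀ k, φ k 1 = 1) ∧ (∀ k x, τ (φ k x) = τ x) ∧ (∀ k, IsL2Compact N τ (φ k)) ∧
    ∀ x, Tendsto (fun k => norm2 τ (φ k x - x)) atTop (𝓝 0)

variable {K : Type} [NormedAddCommGroup K] [InnerProductSpace ℂ K] [CompleteSpace K]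

/-- The embedding `ι : (N, τ) → (M, σ)` is existential for the ultrafilter `U`: it preserves the
trace and `M` has a trace preserving embedding `θ` in the tracial ultrapower `N^U` such that
`θ ∘ ι` is the diagonal embedding of `N`. -/
def IsExistential (U : Ultrafilter ℕ) {N : VonNeumannAlgebra H} (τ : Elt N → ℂ)
    {M : VonNeumannAlgebra K} (σ : Elt M → ℂ) (ι : Elt N →⋆ₐ[ℂ] Elt M) : Prop :=
  (∀ x, σ (ι x) = τ x) ∧
    ∃ (Q : Type) (_ : Ring Q) (_ : StarRing Q) (_ : Algebra ℂ Q) (_ : StarModule ℂ Q)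
      (π : (ℕ → Elt N) → Q) (φ : Q → ℂ) (θ : Elt M →⋆ₐ[ℂ] Q),
      CE.IsTracialUltrapower τ U π φ ∧ (∀ y, φ (θ y) = σ y) ∧
        ∀ x, θ (ι x) = π fun _ => x

/-- `N` is a II₁ factor with trace `τ` and the Haagerup property, `σ` is a faithful normal tracial
state on `M`, `M` has property (T), and `ι : N → M` is existential for `U`. -/
structure Example (U : Ultrafilter ℕ) (N : VonNeumannAlgebra H) (τ : Elt N → ℂ)
    (M : VonNeumannAlgebra K) (σ : Elt M → ℂ) (ι : Elt N →⋆ₐ[ℂ] Elt M) : Prop where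
  factor : IsIIOneFactor N τ
  haagerup : HaagerupProp N τ
  normal : IsNormalPositive M σ
  trace : IsFaithfulTrace σ
  propT : PropT M
  existential : IsExistential U τ σ ι

end

end Pool.Agent.Helper463.EXV
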