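import Mathlib

set_option autoImplicit false

namespace Pool.Agent.Helper463.EX

/-- the field with 257 elements -/
abbrev F : Type := ZMod 257

instance : Fact (Nat.Prime 257) := ⟨by norm_num⟩

/-- the linear endomorphisms of a vector space with a countable basis -/
abbrev E : Type := Module.End F (ℕ →₀ F)

/-- the matrix unit `δ_j ↦ δ_i` -/
noncomputable def ee (i j : ℕ) : E :=
  (Finsupp.lsingle i : F →ₗ[F] (ℕ →₀ F)).comp (Finsupp.lapply j : (ℕ →₀ F) →ₗ[F] F)

/-- the finitary endomorphisms -/
noncomputable def FA : Submodule F E := Submodule.span F (Set.range fun p : ℕ × ℕ => ee p.1 p.2)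

/-- the `3 × 3` matrices over `E` -/
abbrev R3 : Type := Matrix (Fin 3) (Fin 3) E

theorem single_sq (i j : Fin 3) (h : i ≠ j) (a b : E) :
    (Matrix.single i j a : R3) * Matrix.single i j b = 0 := by
  rw [Matrix.single_mul_single_of_ne]
  exact h.symm

theorem el_aux (i j : Fin 3) (h : i ≠ j) (a b : E) (hab : a + b = 0) :
    ((1 : R3) + Matrix.single i j a) * (1 + Matrix.single i j b) = 1 := by
  have h1 := single_sq i j h a b
  have h2 : (Matrix.single i j a : R3) + Matrix.single i j b = 0 := by
    rw [← Matrix.single_add, hab, Matrix.single_zero]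
  calc ((1 : R3) + Matrix.single i j a) * (1 + Matrix.single i j b)
      = 1 * 1 + 1 * Matrix.single i j b + (Matrix.single i j a * 1 +
        Matrix.single i j a * Matrix.single i j b) := by
          rw [add_mul, mul_add, mul_add]
    _ = 1 + (Matrix.single i j a + Matrix.single i j b) := by
          rw [h1, one_mul, one_mul, mul_one, add_zero, add_assoc, add_comm (Matrix.single i j b)]
    _ = 1 := by rw [h2, add_zero]

/-- the elementary matrix `1 + a e_{ij}` (for `i ≠ j`) -/
noncomputable def el (i j : Fin 3) (a : E) : R3ˣ :=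
  if h : i = j then 1 else
    { val := 1 + Matrix.single i j a
      inv := 1 + Matrix.single i j (-a)
      val_inv := el_aux i j h a (-a) (add_neg_cancel a)
      inv_val := el_aux i j h (-a) a (neg_add_cancel a) }

theorem el_val (i j : Fin 3) (h : i ≠ j) (a : E) :
    ((el i j a : R3ˣ) : R3) = 1 + Matrix.single i j a := by
  unfold el; rw [dif_neg h]

theorem el_inv (i j : Fin 3) (a : E) : (el i j a)⁻¹ = el i j (-a) := by
  by_cases h : i = j
  · unfold el; rw [dif_pos h, dif_pos h, inv_one]
  · apply inv_eq_of_mul_eq_one_right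
    apply Units.ext
    rw [Units.val_mul, el_val i j h, el_val i j h]
    exact el_aux i j h a (-a) (add_neg_cancel a)

/-- the group generated by the finitary elementary matrices -/
noncomputable def LamS : Subgroup R3ˣ :=
  Subgroup.closure {g | ∃ i j a, i ≠ j ∧ a ∈ FA ∧ g = el i j a}

/-- the group `Λ`, generated by the finitary elementary matrices -/
abbrev Lam : Type := LamS

/-- the partial identity -/
noncomputable def pid (n : ℕ) : E := ∑ i ∈ Finset.range (n + 1), ee i i

/-- the truncated shift -/
noncomputable def tau (n : ℕ) : E := ∑ i ∈ Finset.range n, ee (i + 1) i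

/-- the truncated backward shift -/
noncomputable def taus (n : ℕ) : E := ∑ i ∈ Finset.range n, ee i (i + 1)

/-- the coefficients of the six lines -/
noncomputable def cr : Fin 6 → ℕ → E := ![pid, pid, pid, fun _ => ee 0 0, tau, taus]

/-- the positions of the six lines -/
def ps : Fin 6 → Fin 3 × Fin 3 := ![(0, 1), (1, 2), (2, 0), (2, 0), (2, 0), (2, 0)]

theorem ee_mem (i j : ℕ) : ee i j ∈ FA := Submodule.subset_span ⟨(i, j), rfl⟩

theorem cr_mem (k : Fin 6) (n : ℕ) : cr k n ∈ FA := by
  have h1 : pid n ∈ FA := Submodule.sum_mem _ fun i _ => ee_mem _ _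
  have h2 : tau n ∈ FA := Submodule.sum_mem _ fun i _ => ee_mem _ _
  have h3 : taus n ∈ FA := Submodule.sum_mem _ fun i _ => ee_mem _ _
  fin_cases k
  · exact h1
  · exact h1
  · exact h1
  · exact ee_mem 0 0
  · exact h2
  · exact h3

theorem ps_ne (k : Fin 6) : (ps k).1 ≠ (ps k).2 := by
  fin_cases k <;> decide

theorem el_mem (i j : Fin 3) (a : E) (ha : a ∈ FA) : el i j a ∈ LamS := by
  by_cases h : i = j
  · have : el i j a = 1 := by unfold el; rw [dif_pos h]
    rw [this]; exact one_mem _
  · exact Subgroup.subset_closure ⟨i, j, a, h, ha, rfl⟩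

/-- elementary matrices as elements of `Λ` -/
noncomputable def eL (i j : Fin 3) (a : E) (ha : a ∈ FA) : Lam := ⟨el i j a, el_mem i j a ha⟩

/-- the lines of `Λ`, for each `n` -/
noncomputable def ln (k : Fin 6) (t : F) (n : ℕ) : Lam :=
  eL (ps k).1 (ps k).2 (t • cr k n) (FA.smul_mem t (cr_mem k n))

/-- the ultrapower of the group `Λ` -/
abbrev Ult (U : Ultrafilter ℕ) : Type := Filter.Germ (U : Filter ℕ) Lam

/-- the lines in the ultrapower -/
noncomputable def line (U : Ultrafilter ℕ) (k : Fin 6) (t : F) : Ult U :=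
  ((fun n => ln k t n : ℕ → Lam) : Filter.Germ (U : Filter ℕ) Lam)

/-- the subgroup of the ultrapower generated by the six lines -/
noncomputable def GamS (U : Ultrafilter ℕ) : Subgroup (Ult U) :=
  Subgroup.closure {g | ∃ k t, g = line U k t}

/-- the group `Γ` -/
abbrev Gam (U : Ultrafilter ℕ) : Type := GamS U

/-- constant sequences -/
noncomputable def cst (U : Ultrafilter ℕ) (g : Lam) : Ult U :=
  ((fun _ => g : ℕ → Lam) : Filter.Germ (U : Filter ℕ) Lam)

end Pool.Agent.Helper463.EX
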