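import Mathlib

set_option autoImplicit false
set_option maxHeartbeats 1000000

open scoped InnerProductSpace ComplexOrder
open Filter Topology

namespace Pool.Agent.Helper463.J11

/-- Compression to the cosets of a finite subgroup: a vector functional of the Schur multiplier
`1_P` is a countable sum of vector functionals. -/
theorem nrm_cE {G : Type} [Group G] [Countable G] {K : Type} [NormedAddCommGroup K]
    [InnerProductSpace ℂ K] [CompleteSpace K] (b : HilbertBasis G ℂ K) (P : Subgroup G)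
    [Finite P] (ζ : K) :
    ∃ ξ : ℕ → K, Summable (fun k => ‖ξ k‖ ^ 2) ∧ ∀ x T : K →L[ℂ] K,
      (∀ g h, g * h⁻¹ ∈ P → ⟪b g, T (b h)⟫_ℂ = ⟪b g, x (b h)⟫_ℂ) →
      (∀ g h, g * h⁻¹ ∉ P → ⟪b g, T (b h)⟫_ℂ = 0) →
      ⟪ζ, T ζ⟫_ℂ = ∑' k, ⟪ξ k, x (ξ k)⟫_ℂ := by
  classical
  have := Fintype.ofFinite P
  let a : G → ℂ := fun g => b.repr ζ g
  have hζ : HasSum (fun g => a g • b g) ζ := b.hasSum_repr ζ
  have hasq : Summable (fun g => ‖a g‖ ^ 2) := by
    have h1 := (b.repr ζ).2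
    have h2 := (memℓp_gen_iff (p := 2) (by norm_num)).mp h1
    have h3 : (2 : ENNReal).toReal = ((2:ℕ):ℝ) := by norm_num
    rw [h3] at h2
    simpa only [Real.rpow_natCast] using h2
  let q : G → K := fun g => ∑ p : P, a ((p:G) * g) • b ((p:G) * g)
  have hshift : ∀ p : P, HasSum (fun g => a ((p:G) * g) • b ((p:G) * g)) ζ := fun p =>
    (Equiv.mulLeft (p:G)).hasSum_iff.mpr hζ
  have hq : HasSum q ((Fintype.card P : ℂ) • ζ) := by
    have h1 := hasSum_sum (s := (Finset.univ : Finset P)) (fun p _ => hshift p)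
    have h2 : ∑ _p : P, ζ = (Fintype.card P : ℂ) • ζ := by
      rw [Finset.sum_const, Finset.card_univ, Nat.cast_smul_eq_nsmul]
    rw [h2] at h1
    exact h1
  have hn0 : 0 < Fintype.card P := Fintype.card_pos
  have hnC : (Fintype.card P : ℂ) ≠ 0 := by exact_mod_cast hn0.ne'
  have hnR : (0:ℝ) < (Fintype.card P : ℝ) := by exact_mod_cast hn0
  let c : ℝ := (Real.sqrt (Fintype.card P))⁻¹
  have hcc : (c:ℂ) * (c:ℂ) = (Fintype.card P : ℂ)⁻¹ := by
    have : c * c = (Fintype.card P : ℝ)⁻¹ := by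
      simp only [c]
      rw [← mul_inv, Real.mul_self_sqrt hnR.le]
    rw [← Complex.ofReal_mul, this]
    push_cast
    rfl
  let ξG : G → K := fun g => (c:ℂ) • q g
  have hsumG : Summable (fun g => ‖ξG g‖ ^ 2) := by
    have h1 : Summable (fun g => c ^ 2 * ((Fintype.card P : ℝ) * ∑ p : P, ‖a ((p:G) * g)‖ ^ 2)) := by
      apply Summable.mul_left
      apply Summable.mul_left
      apply summable_sum
      intro p _
      exact (Equiv.mulLeft (p:G)).summable_iff.mpr hasq
    refine Summable.of_nonneg_of_le (fun g => by positivity) (fun g => ?_) h1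
    have h2 : ‖q g‖ ≤ ∑ p : P, ‖a ((p:G) * g)‖ := by
      refine (norm_sum_le _ _).trans (le_of_eq ?_)
      apply Finset.sum_congr rfl
      intro p _
      rw [norm_smul, b.orthonormal.1, mul_one]
    have h3 : ‖ξG g‖ = |c| * ‖q g‖ := by
      simp only [ξG]
      rw [norm_smul, Complex.norm_real, Real.norm_eq_abs]
    rw [h3, mul_pow, sq_abs]
    apply mul_le_mul_of_nonneg_left _ (sq_nonneg c)
    have h4 : ‖q g‖ ^ 2 ≤ (∑ p : P, ‖a ((p:G) * g)‖) ^ 2 := pow_le_pow_left₀ (norm_nonneg _) h2 2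
    refine h4.trans ?_
    have h5 := sq_sum_le_card_mul_sum_sq (s := (Finset.univ : Finset P))
      (f := fun p => ‖a ((p:G) * g)‖)
    rw [Finset.card_univ] at h5
    exact h5
  have key : ∀ x T : K →L[ℂ] K,
      (∀ g h, g * h⁻¹ ∈ P → ⟪b g, T (b h)⟫_ℂ = ⟪b g, x (b h)⟫_ℂ) →
      (∀ g h, g * h⁻¹ ∉ P → ⟪b g, T (b h)⟫_ℂ = 0) →
      ∀ g, ⟪ζ, T (q g)⟫_ℂ = ⟪q g, x (q g)⟫_ℂ := by
    intro x T hT1 hT2 g
    have h1 : ∀ k, k * g⁻¹ ∈ P → ⟪b k, T (q g)⟫_ℂ = ⟪b k, x (q g)⟫_ℂ := by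
      intro k hk
      simp only [q, map_sum, inner_sum, map_smul, inner_smul_right]
      apply Finset.sum_congr rfl
      intro p _
      rw [hT1 k ((p:G) * g) (by
        have : k * ((p:G) * g)⁻¹ = (k * g⁻¹) * (p:G)⁻¹ := by group
        rw [this]
        exact P.mul_mem hk (P.inv_mem p.2))]
    have h2 : ∀ k, k * g⁻¹ ∉ P → ⟪b k, T (q g)⟫_ℂ = 0 := by
      intro k hk
      simp only [q, map_sum, inner_sum, map_smul, inner_smul_right]
      apply Finset.sum_eq_zero
      intro p _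
      rw [hT2 k ((p:G) * g) (by
        intro hmem
        apply hk
        have : k * g⁻¹ = (k * ((p:G) * g)⁻¹) * (p:G) := by group
        rw [this]
        exact P.mul_mem hmem p.2), mul_zero]
    have h3 : HasSum (fun k => ⟪a k • b k, T (q g)⟫_ℂ) ⟪ζ, T (q g)⟫_ℂ :=
      (innerSLFlip ℂ (T (q g))).hasSum hζ
    have hinj : Function.Injective (fun p : P => (p:G) * g) := by
      intro p p' h
      exact Subtype.ext (mul_right_cancel h)
    rw [← h3.tsum_eq, ← hinj.tsum_eq, tsum_fintype]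
    · have h4 : ⟪q g, x (q g)⟫_ℂ = ∑ p : P, ⟪a ((p:G) * g) • b ((p:G) * g), x (q g)⟫_ℂ := by
        conv_lhs => rw [show q g = ∑ p : P, a ((p:G) * g) • b ((p:G) * g) from rfl]
        rw [sum_inner]
      rw [h4]
      apply Finset.sum_congr rfl
      intro p _
      rw [inner_smul_left, inner_smul_left, h1]
      have : (p:G) * g * g⁻¹ = p := by group
      rw [this]
      exact p.2
    · intro k hk
      rw [Function.mem_support] at hk
      have hk' : k * g⁻¹ ∈ P := by
        by_contra hcon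
        apply hk
        rw [inner_smul_left, h2 k hcon, mul_zero]
      exact ⟨⟨k * g⁻¹, hk'⟩, by simp⟩
  obtain ⟨e, he⟩ := Countable.exists_injective_nat G
  refine ⟨Function.extend e ξG 0, ?_, ?_⟩
  · have hz : ∀ k ∉ Set.range e, ‖Function.extend e ξG 0 k‖ ^ 2 = 0 := by
      intro k hk
      rw [Function.extend_apply' _ _ _ (fun ⟨g, hg⟩ => hk ⟨g, hg⟩)]
      simp
    rw [← he.summable_iff hz]
    have : ((fun k => ‖Function.extend e ξG 0 k‖ ^ 2) ∘ e) = fun g => ‖ξG g‖ ^ 2 := by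
      funext g
      simp only [Function.comp_apply]
      rw [he.extend_apply]
    rw [this]
    exact hsumG
  · intro x T hT1 hT2
    have hk := key x T hT1 hT2
    have h1 : HasSum (fun g => ⟪ζ, T (q g)⟫_ℂ) ⟪ζ, T ((Fintype.card P : ℂ) • ζ)⟫_ℂ :=
      ((innerSL ℂ ζ).comp T).hasSum hq
    have h2 : ∑' k, ⟪Function.extend e ξG 0 k, x (Function.extend e ξG 0 k)⟫_ℂ
        = ∑' g, ⟪ξG g, x (ξG g)⟫_ℂ := by
      rw [← he.tsum_eq]
      · apply tsum_congr
        intro g
        rw [he.extend_apply]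
      · intro k hk
        rw [Function.mem_support] at hk
        by_contra hcon
        apply hk
        rw [Function.extend_apply' _ _ _ (fun ⟨g, hg⟩ => hcon ⟨g, hg⟩)]
        simp
    rw [h2]
    have h3 : ∀ g, ⟪ξG g, x (ξG g)⟫_ℂ = (Fintype.card P : ℂ)⁻¹ * ⟪ζ, T (q g)⟫_ℂ := by
      intro g
      simp only [ξG]
      rw [map_smul, inner_smul_left, inner_smul_right, Complex.conj_ofReal, ← mul_assoc, hcc, hk g]
    rw [tsum_congr h3, tsum_mul_left, h1.tsum_eq, map_smul, inner_smul_right, ← mul_assoc,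
      inv_mul_cancel₀ hnC, one_mul]

end Pool.Agent.Helper463.J11
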