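import Mathlib

set_option autoImplicit false

open scoped InnerProductSpace ComplexOrder
open Filter Topology

namespace Pool.Agent.Helper463.J7

theorem cp_pos {κ Q K : Type} [NormedAddCommGroup K] [InnerProductSpace ℂ K] [DecidableEq Q]
    (S : Finset κ) (A : κ → ℂ) (y : κ → K) (w : κ → Q) :
    0 ≤ ∑ p ∈ S, ∑ r ∈ S, (if w p = w r then (starRingEnd ℂ) (A p) * A r * ⟪y p, y r⟫_ℂ else 0) := by
  have h1 : ∑ p ∈ S, ∑ r ∈ S,
      (if w p = w r then (starRingEnd ℂ) (A p) * A r * ⟪y p, y r⟫_ℂ else 0)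
      = ∑ c ∈ S.image w, ⟪∑ p ∈ S.filter (fun p => w p = c), A p • y p,
          ∑ p ∈ S.filter (fun p => w p = c), A p • y p⟫_ℂ := by
    rw [← Finset.sum_fiberwise_of_maps_to (fun p hp => Finset.mem_image_of_mem w hp)]
    refine Finset.sum_congr rfl fun c _ => ?_
    rw [sum_inner]
    refine Finset.sum_congr rfl fun p hp => ?_
    rw [Finset.mem_filter] at hp
    rw [inner_sum, Finset.sum_filter]
    refine Finset.sum_congr rfl fun r _ => ?_
    rw [hp.2]
    by_cases h : w r = c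
    · rw [if_pos h.symm, if_pos h, inner_smul_left, inner_smul_right]
      ring
    · rw [if_neg (fun h' => h h'.symm), if_neg h]
  rw [h1]
  refine Finset.sum_nonneg fun c _ => ?_
  have h2 : ⟪∑ p ∈ S.filter (fun p => w p = c), A p • y p,
      ∑ p ∈ S.filter (fun p => w p = c), A p • y p⟫_ℂ
      = ((‖∑ p ∈ S.filter (fun p => w p = c), A p • y p‖ ^ 2 : ℝ) : ℂ) := by
    rw [inner_self_eq_norm_sq_to_K]
    push_cast
    rfl
  rw [h2]
  exact Complex.zero_le_real.2 (sq_nonneg _)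

theorem cp_fin {G : Type} [Group G] {K : Type} [NormedAddCommGroup K] [InnerProductSpace ℂ K]
    [CompleteSpace K] (b : HilbertBasis G ℂ K) (P : Subgroup G) (n : ℕ)
    (x : Fin n → (K →L[ℂ] K)) (T : Fin n → Fin n → (K →L[ℂ] K))
    (h1 : ∀ i j g h, g * h⁻¹ ∈ P → ⟪b g, T i j (b h)⟫_ℂ = ⟪x i (b g), x j (b h)⟫_ℂ)
    (h0 : ∀ i j g h, g * h⁻¹ ∉ P → ⟪b g, T i j (b h)⟫_ℂ = 0)
    (s : Finset G) (a : Fin n → G → ℂ) :
    0 ≤ ∑ i, ∑ j, ⟪∑ g ∈ s, a i g • b g, T i j (∑ h ∈ s, a j h • b h)⟫_ℂ := by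
  classical
  obtain ⟨q, hq⟩ : ∃ q : G → Quotient (QuotientGroup.rightRel P), ∀ g h, q g = q h ↔ g * h⁻¹ ∈ P := by
    refine ⟨fun g => Quotient.mk _ g, ?_⟩
    intro g h
    rw [eq_comm]
    exact Quotient.eq.trans QuotientGroup.rightRel_apply
  have key := cp_pos (Finset.univ ×ˢ s) (fun p : Fin n × G => a p.1 p.2)
    (fun p : Fin n × G => x p.1 (b p.2)) (fun p : Fin n × G => q p.2)
  refine key.trans_eq ?_
  rw [Finset.sum_product]
  refine Finset.sum_congr rfl fun i _ => ?_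
  simp only [Finset.sum_product]
  rw [Finset.sum_comm]
  refine Finset.sum_congr rfl fun j _ => ?_
  rw [sum_inner]
  refine Finset.sum_congr rfl fun g _ => ?_
  rw [map_sum, inner_sum]
  refine Finset.sum_congr rfl fun h _ => ?_
  rw [map_smul, inner_smul_left, inner_smul_right]
  by_cases hgh : q g = q h
  · rw [if_pos hgh, h1 i j g h ((hq g h).1 hgh)]
    ring
  · rw [if_neg hgh, h0 i j g h (fun h' => hgh ((hq g h).2 h'))]
    ring

theorem cp_aux {G : Type} [Group G] {K : Type} [NormedAddCommGroup K] [InnerProductSpace ℂ K]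
    [CompleteSpace K] (b : HilbertBasis G ℂ K) (P : Subgroup G) (n : ℕ)
    (x : Fin n → (K →L[ℂ] K)) (T : Fin n → Fin n → (K →L[ℂ] K))
    (h1 : ∀ i j g h, g * h⁻¹ ∈ P → ⟪b g, T i j (b h)⟫_ℂ = ⟪x i (b g), x j (b h)⟫_ℂ)
    (h0 : ∀ i j g h, g * h⁻¹ ∉ P → ⟪b g, T i j (b h)⟫_ℂ = 0)
    (ξ : Fin n → K) : 0 ≤ ∑ i, ∑ j, ⟪ξ i, T i j (ξ j)⟫_ℂ := by
  classical
  have hclosed : IsClosed {ξ : Fin n → K | 0 ≤ ∑ i, ∑ j, ⟪ξ i, T i j (ξ j)⟫_ℂ} := by
    apply isClosed_le continuous_const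
    refine continuous_finsetSum _ fun i _ => continuous_finsetSum _ fun j _ => ?_
    exact (continuous_apply i).inner ((T i j).continuous.comp (continuous_apply j))
  have hD : Dense ((Submodule.span ℂ (Set.range b) : Submodule ℂ K) : Set K) := by
    rw [Submodule.dense_iff_topologicalClosure_eq_top]
    exact b.dense_span
  have hdense : Dense (Set.pi Set.univ
      (fun _ : Fin n => ((Submodule.span ℂ (Set.range b) : Submodule ℂ K) : Set K))) :=
    dense_pi Set.univ (fun _ _ => hD)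
  have hsub : Set.pi Set.univ
      (fun _ : Fin n => ((Submodule.span ℂ (Set.range b) : Submodule ℂ K) : Set K))
      ⊆ {ξ : Fin n → K | 0 ≤ ∑ i, ∑ j, ⟪ξ i, T i j (ξ j)⟫_ℂ} := by
    intro η hη
    have hη' : ∀ i, ∃ l : G →₀ ℂ, (l.sum fun g c => c • b g) = η i := by
      intro i
      have := hη i (Set.mem_univ i)
      exact Finsupp.mem_span_range_iff_exists_finsupp.1 this
    choose l hl using hη'
    have hs : ∀ i, η i = ∑ g ∈ Finset.univ.biUnion (fun i => (l i).support), l i g • b g := by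
      intro i
      rw [← hl i]
      apply Finsupp.sum_of_support_subset
      · exact Finset.subset_biUnion_of_mem (fun i => (l i).support) (Finset.mem_univ i)
      · intro g _
        exact zero_smul _ _
    have key := cp_fin b P n x T h1 h0 (Finset.univ.biUnion (fun i => (l i).support))
      (fun i g => l i g)
    have e : ∑ i, ∑ j, ⟪η i, T i j (η j)⟫_ℂ = ∑ i, ∑ j,
        ⟪∑ g ∈ Finset.univ.biUnion (fun i => (l i).support), l i g • b g,
          T i j (∑ h ∈ Finset.univ.biUnion (fun i => (l i).support), l j h • b h)⟫_ℂ := by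
      refine Finset.sum_congr rfl fun i _ => Finset.sum_congr rfl fun j _ => ?_
      rw [← hs i, ← hs j]
    show 0 ≤ ∑ i, ∑ j, ⟪η i, T i j (η j)⟫_ℂ
    rw [e]
    exact key
  have huniv : closure (Set.pi Set.univ
      (fun _ : Fin n => ((Submodule.span ℂ (Set.range b) : Submodule ℂ K) : Set K))) = Set.univ :=
    hdense.closure_eq
  have hmem : ξ ∈ closure (Set.pi Set.univ
      (fun _ : Fin n => ((Submodule.span ℂ (Set.range b) : Submodule ℂ K) : Set K))) := by
    rw [huniv]; exact Set.mem_univ ξ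
  exact (closure_minimal hsub hclosed) hmem


end Pool.Agent.Helper463.J7
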