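import Mathlib

set_option autoImplicit false

namespace Pool.Agent.Helper463.J9

theorem cpt_aux {A : Type} [AddCommGroup A] [Module ℂ A] (p : A → ℝ)
    (hp0 : p 0 = 0) (hadd : ∀ x y, p (x + y) ≤ p x + p y)
    (hsmul : ∀ (c : ℂ) x, p (c • x) ≤ ‖c‖ * p x) {ι : Type} (s : Finset ι) (u : ι → A)
    (hu : ∀ i ∈ s, p (u i) ≤ 1) (ε : ℝ) (hε : 0 < ε) :
    ∃ F : Finset A, ∀ c : ι → ℂ, (∀ i ∈ s, ‖c i‖ ≤ 1) →
      ∃ y ∈ F, p ((∑ i ∈ s, c i • u i) - y) ≤ ε := by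
  classical
  have hsum : ∀ {κ : Type} (S : Finset κ) (f : κ → A), p (∑ i ∈ S, f i) ≤ ∑ i ∈ S, p (f i) := by
    intro κ S f
    induction S using Finset.induction_on with
    | empty => simp [hp0]
    | insert a S ha ih =>
      rw [Finset.sum_insert ha, Finset.sum_insert ha]
      exact (hadd _ _).trans (by linarith)
  have hc0 : (0 : ℝ) < (s.card : ℝ) + 1 := by positivity
  have hδ : 0 < ε / ((s.card : ℝ) + 1) := div_pos hε hc0
  obtain ⟨t, htf, htc⟩ := Metric.totallyBounded_iff.1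
    (isCompact_closedBall (0 : ℂ) 1).totallyBounded _ hδ
  let T : Finset ℂ := htf.toFinset
  refine ⟨(Fintype.piFinset (fun _ : {x // x ∈ s} => T)).image
    (fun g => ∑ i ∈ s.attach, g i • u i.1), ?_⟩
  intro c hc
  have hex : ∀ i : {x // x ∈ s}, ∃ z ∈ T, ‖c i.1 - z‖ < ε / ((s.card : ℝ) + 1) := by
    intro i
    have h1 : c i.1 ∈ Metric.closedBall (0 : ℂ) 1 := by
      rw [mem_closedBall_zero_iff]; exact hc i.1 i.2
    obtain ⟨z, hz, hz2⟩ := Set.mem_iUnion₂.1 (htc h1)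
    refine ⟨z, htf.mem_toFinset.2 hz, ?_⟩
    rw [Metric.mem_ball, dist_eq_norm] at hz2
    exact hz2
  choose g hg1 hg2 using hex
  refine ⟨∑ i ∈ s.attach, g i • u i.1, Finset.mem_image.2 ⟨g, Fintype.mem_piFinset.2 hg1, rfl⟩, ?_⟩
  have e : (∑ i ∈ s, c i • u i) - ∑ i ∈ s.attach, g i • u i.1 =
      ∑ i ∈ s.attach, (c i.1 - g i) • u i.1 := by
    rw [← Finset.sum_attach s (fun i => c i • u i), ← Finset.sum_sub_distrib]
    exact Finset.sum_congr rfl fun i _ => (sub_smul _ _ _).symm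
  rw [e]
  calc p (∑ i ∈ s.attach, (c i.1 - g i) • u i.1)
      ≤ ∑ i ∈ s.attach, p ((c i.1 - g i) • u i.1) := hsum _ _
    _ ≤ ∑ i ∈ s.attach, ε / ((s.card : ℝ) + 1) := by
        refine Finset.sum_le_sum fun i _ => ?_
        refine (hsmul _ _).trans ?_
        calc ‖c i.1 - g i‖ * p (u i.1) ≤ ‖c i.1 - g i‖ * 1 :=
              mul_le_mul_of_nonneg_left (hu i.1 i.2) (norm_nonneg _)
          _ ≤ ε / ((s.card : ℝ) + 1) := by rw [mul_one]; exact (hg2 i).le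
    _ = (s.card : ℝ) * (ε / ((s.card : ℝ) + 1)) := by
        rw [Finset.sum_const, Finset.card_attach, nsmul_eq_mul]
    _ ≤ ((s.card : ℝ) + 1) * (ε / ((s.card : ℝ) + 1)) := by
        apply mul_le_mul_of_nonneg_right _ hδ.le
        linarith
    _ = ε := by field_simp

end Pool.Agent.Helper463.J9
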