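import Mathlib

set_option autoImplicit false

open scoped InnerProductSpace
open Filter Topology

namespace Pool.Agent.Helper463.J10

theorem nrm_aux {K : Type} [NormedAddCommGroup K] [InnerProductSpace ℂ K] [CompleteSpace K]
    {G : Type} (b : HilbertBasis G ℂ K) (z : ℕ → K →L[ℂ] K) (C : ℝ) (hC : ∀ n, ‖z n‖ ≤ C)
    (hz : ∀ g, Tendsto (fun n => z n (b g)) atTop (𝓝 0)) (ξ : ℕ → K)
    (hξ : Summable fun k => ‖ξ k‖ ^ 2) :
    Tendsto (fun n => ∑' k, ⟪ξ k, (star (z n) * z n) (ξ k)⟫_ℂ) atTop (𝓝 0) := by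
  have hC0 : 0 ≤ C := le_trans (norm_nonneg _) (hC 0)
  -- convergence on the span
  have hspan : ∀ w ∈ Submodule.span ℂ (Set.range b), Tendsto (fun n => z n w) atTop (𝓝 0) := by
    intro w hw
    induction hw using Submodule.span_induction with
    | mem x hx => obtain ⟨g, rfl⟩ := hx; exact hz g
    | zero => simp
    | add x y _ _ hx hy => simpa using hx.add hy
    | smul c x _ hx => simpa using hx.const_smul c
  have hall : ∀ v, Tendsto (fun n => z n v) atTop (𝓝 0) := by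
    intro v
    rw [Metric.tendsto_atTop]
    intro ε hε
    have hv : v ∈ closure ((Submodule.span ℂ (Set.range b) : Submodule ℂ K) : Set K) := by
      have h1 := b.dense_span
      rw [← Submodule.topologicalClosure_coe, h1]
      trivial
    obtain ⟨w, hw, hvw⟩ := Metric.mem_closure_iff.1 hv (ε / (2 * (C + 1))) (by positivity)
    obtain ⟨N, hN⟩ := Metric.tendsto_atTop.1 (hspan w hw) (ε / 2) (by positivity)
    refine ⟨N, fun n hn => ?_⟩
    have h1 := hN n hn
    rw [dist_zero_right] at h1 ⊢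
    have h2 : ‖z n v‖ ≤ ‖z n (v - w)‖ + ‖z n w‖ := by
      have : z n v = z n (v - w) + z n w := by rw [← map_add]; congr 1; abel
      rw [this]; exact norm_add_le _ _
    have h3 : ‖z n (v - w)‖ ≤ C * ‖v - w‖ := by
      calc ‖z n (v - w)‖ ≤ ‖z n‖ * ‖v - w‖ := (z n).le_opNorm _
        _ ≤ C * ‖v - w‖ := mul_le_mul_of_nonneg_right (hC n) (norm_nonneg _)
    rw [dist_eq_norm] at hvw
    have h4 : C * ‖v - w‖ ≤ ε / 2 := by
      calc C * ‖v - w‖ ≤ (C + 1) * (ε / (2 * (C + 1))) := by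
            apply mul_le_mul (by linarith) hvw.le (norm_nonneg _) (by linarith)
        _ = ε / 2 := by field_simp
    linarith
  have hf : ∀ n k, ⟪ξ k, (star (z n) * z n) (ξ k)⟫_ℂ = ((‖z n (ξ k)‖ ^ 2 : ℝ) : ℂ) := by
    intro n k
    rw [ContinuousLinearMap.star_eq_adjoint]
    change ⟪ξ k, (ContinuousLinearMap.adjoint (z n)) ((z n) (ξ k))⟫_ℂ = _
    rw [ContinuousLinearMap.adjoint_inner_right, inner_self_eq_norm_sq_to_K]
    simp
  have key : Tendsto (fun n => ∑' k, ⟪ξ k, (star (z n) * z n) (ξ k)⟫_ℂ) atTop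
      (𝓝 (∑' _k : ℕ, (0 : ℂ))) := by
    apply tendsto_tsum_of_dominated_convergence (bound := fun k => C ^ 2 * ‖ξ k‖ ^ 2)
      (hξ.mul_left (C ^ 2))
    · intro k
      have h1 : Tendsto (fun n => ((‖z n (ξ k)‖ ^ 2 : ℝ) : ℂ)) atTop (𝓝 (((0:ℝ) ^ 2 : ℝ) : ℂ)) := by
        apply (Complex.continuous_ofReal.tendsto _).comp
        have := (hall (ξ k)).norm
        rw [norm_zero] at this
        exact this.pow 2
      have h2 : (((0:ℝ) ^ 2 : ℝ) : ℂ) = 0 := by norm_num
      rw [h2] at h1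
      exact h1.congr (fun n => (hf n k).symm)
    · refine Eventually.of_forall fun n k => ?_
      rw [hf n k, Complex.norm_real, Real.norm_eq_abs, abs_of_nonneg (sq_nonneg _), ← mul_pow]
      apply pow_le_pow_left₀ (norm_nonneg _)
      calc ‖z n (ξ k)‖ ≤ ‖z n‖ * ‖ξ k‖ := (z n).le_opNorm _
        _ ≤ C * ‖ξ k‖ := mul_le_mul_of_nonneg_right (hC n) (norm_nonneg _)
  simpa using key

end Pool.Agent.Helper463.J10
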