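import Mathlib
import Pool.Agent.Helper463.EXD
import Pool.Agent.Helper463.EXV
import Pool.Agent.Helper463.EXJ10
import Pool.Agent.Helper278.RGRep

set_option autoImplicit false
set_option linter.unusedSectionVars false
set_option linter.unusedVariables false

open scoped InnerProductSpace ComplexOrder Topology BoundedContinuousFunction
open Filter

namespace Pool.Agent.Helper463.EXV

open Pool.Agent.Helper278 Pool.Agent.Helper278.CE Pool.Agent.Helper436.SM Pool.Agent.Helper278.RG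
open Pool.Agent.Helper436.SM.Sub Pool.Agent.Helper436.SN

section uniq

variable {Q : Type} [Ring Q] [StarRing Q] [Algebra ℂ Q] [StarModule ℂ Q] {τA : Q →ₗ[ℂ] ℂ}
variable {G : Type} [Group G] {K : Type} [NormedAddCommGroup K] [InnerProductSpace ℂ K]
  [CompleteSpace K] (b : HilbertBasis G ℂ K)

theorem n2_hom (θ : Elt (LK b) →⋆ₐ[ℂ] Q) (hθ : ∀ x, τA (θ x) = (TL b).τ x) (x : Elt (LK b)) :
    n2 τA (θ x) = N2 b x := by
  have h1 : τA (star (θ x) * θ x) = ((N2 b x ^ 2 : ℝ) : ℂ) := by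
    rw [← map_star, ← map_mul, hθ, ← trG_star_mul]
    rfl
  unfold n2
  rw [h1, Complex.ofReal_re]
  exact Real.sqrt_sq (norm_nonneg _)

theorem hom_Lop (θ : Elt (LK b) →⋆ₐ[ℂ] Q) (θ' : Elt (LK b) →⋆ₐ[ℂ] Q)
    (h : ∀ g, θ (La b g) = θ' (La b g)) (v : MonoidAlgebra ℂ G) : θ (Lop b v) = θ' (Lop b v) := by
  rw [Lop_apply, Finsupp.sum, map_sum, map_sum]
  refine Finset.sum_congr rfl fun g _ => ?_
  rw [map_smul, map_smul, h]

/-- Trace preserving homomorphisms of `L(G)` are determined by the canonical unitaries. -/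
theorem hom_uniq (hA : TrAlg τA) (θ θ' : Elt (LK b) →⋆ₐ[ℂ] Q)
    (hθ : ∀ x, τA (θ x) = (TL b).τ x) (hθ' : ∀ x, τA (θ' x) = (TL b).τ x)
    (h : ∀ g, θ (La b g) = θ' (La b g)) (x : Elt (LK b)) : θ x = θ' x := by
  have h0 : n2 τA (θ x - θ' x) = 0 := by
    refine le_antisymm (le_of_forall_pos_le_add fun ε hε => ?_) (n2_nonneg _ _)
    obtain ⟨a, ⟨v, rfl⟩, h2⟩ := dense_CG b x (ε / 2) (half_pos hε)
    have e : θ x - θ' x = θ (x - Lop b v) + θ' (Lop b v - x) := by
      rw [map_sub, map_sub, hom_Lop b θ θ' h]; abel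
    rw [e]
    have h3 := hA.n2_add_le (θ (x - Lop b v)) (θ' (Lop b v - x))
    rw [n2_hom b θ hθ, n2_hom b θ' hθ', N2_sub_comm b (Lop b v) x] at h3
    have h4 : N2 b (x - Lop b v) < ε / 2 := h2
    linarith
  have h1 : τA (star (θ x - θ' x) * (θ x - θ' x)) = 0 := by
    apply Complex.ext
    · rw [← hA.n2_sq, h0]; simp
    · rw [hA.im_zero]; rfl
  exact sub_eq_zero.1 (hA.faithful _ h1)

end uniq

end Pool.Agent.Helper463.EXV
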