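import Mathlib
import Pool.Agent.Helper463.EXP
import Pool.Agent.Helper463.EXJ14

set_option autoImplicit false
set_option linter.unusedSectionVars false
set_option linter.unusedVariables false

open scoped InnerProductSpace ComplexOrder Topology BoundedContinuousFunction
open Filter

namespace Pool.Agent.Helper463.EXV

open Pool.Agent.Helper278 Pool.Agent.Helper278.CE Pool.Agent.Helper436.SM Pool.Agent.Helper278.RG
open Pool.Agent.Helper436.SM.Sub Pool.Agent.Helper436.SN

/-- property (T) of a group (auxiliary, proof only) -/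
def GT (G : Type) [Group G] : Prop :=
  ∃ S : Finset G, ∃ ε : ℝ, 0 < ε ∧
      ∀ (H : Type) [NormedAddCommGroup H] [InnerProductSpace ℂ H] [CompleteSpace H]
        (ρ : G →* unitary (H →L[ℂ] H)),
        (∃ x : H, ‖x‖ = 1 ∧ ∀ s ∈ S, ‖(ρ s : H →L[ℂ] H) x - x‖ < ε) →
          ∃ x : H, x ≠ 0 ∧ ∀ g : G, (ρ g : H →L[ℂ] H) x = x

variable {G : Type} [Group G] {K : Type} [NormedAddCommGroup K] [InnerProductSpace ℂ K]
  [CompleteSpace K] (b : HilbertBasis G ℂ K)

theorem approx_seq (x : Elt (LK b)) : ∃ v : ℕ → MonoidAlgebra ℂ G,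
    (∃ C : ℝ, ∀ n, ‖x - Lop b (v n)‖ ≤ C) ∧
      Tendsto (fun n => N2 b (x - Lop b (v n))) atTop (𝓝 0) := by
  have hc : 0 < ‖x‖ + 1 := by positivity
  set c : ℝ := ‖x‖ + 1 with hcdef
  have hc' : (c : ℂ) ≠ 0 := by exact_mod_cast hc.ne'
  set y : Elt (LK b) := ((c⁻¹ : ℝ) : ℂ) • x with hy
  have hxy : x = (c : ℂ) • y := by
    rw [hy, smul_smul]
    push_cast
    rw [mul_inv_cancel₀ hc', one_smul]
  have hy1 : ‖y‖ ≤ 1 := by
    rw [hy, norm_smul, Complex.norm_real, Real.norm_eq_abs, abs_of_pos (inv_pos.2 hc),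
      inv_mul_le_iff₀ hc]
    linarith
  have h1 : ∀ n : ℕ, ∃ v : MonoidAlgebra ℂ G, ‖Lop b v‖ ≤ 2 ∧
      N2 b (y - Lop b v) < 1 / ((n : ℝ) + 1) := fun n =>
    kap_LK b y hy1 _ (by positivity)
  choose v hv1 hv2 using h1
  have e : ∀ n, x - Lop b ((c : ℂ) • v n) = (c : ℂ) • (y - Lop b (v n)) := by
    intro n
    rw [map_smul, smul_sub, ← hxy]
  refine ⟨fun n => (c : ℂ) • v n, ⟨c * 3, fun n => ?_⟩, ?_⟩
  · rw [e, norm_smul, Complex.norm_real, Real.norm_eq_abs, abs_of_pos hc]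
    refine mul_le_mul_of_nonneg_left ?_ hc.le
    refine (norm_sub_le _ _).trans ?_
    linarith [hv1 n]
  · have h2 : ∀ n, N2 b (x - Lop b ((c : ℂ) • v n)) = c * N2 b (y - Lop b (v n)) := by
      intro n
      rw [e]
      show ‖(c : ℂ) • ((y - Lop b (v n) : Elt (LK b)) : K →L[ℂ] K) (b 1)‖ = _
      rw [norm_smul, Complex.norm_real, Real.norm_eq_abs, abs_of_pos hc]
      rfl
    have h3 : Tendsto (fun n : ℕ => c * (1 / ((n : ℝ) + 1))) atTop (𝓝 0) := by
      have := (tendsto_one_div_add_atTop_nhds_zero_nat (𝕜 := ℝ)).const_mul c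
      rwa [mul_zero] at this
    refine squeeze_zero (fun n => norm_nonneg _) (fun n => ?_) h3
    show N2 b (x - Lop b ((c : ℂ) • v n)) ≤ _
    rw [h2]
    exact mul_le_mul_of_nonneg_left (hv2 n).le hc.le

/-- normal functionals tend to zero along bounded 2-norm null sequences -/
theorem normal_null (ψ : Elt (LK b) → ℂ) (hψ : IsNormalPositive (LK b) ψ) (z : ℕ → Elt (LK b))
    (C : ℝ) (hC : ∀ n, ‖z n‖ ≤ C) (hz : Tendsto (fun n => N2 b (z n)) atTop (𝓝 0)) :
    Tendsto (fun n => ψ (star (z n) * z n)) atTop (𝓝 0) := by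
  obtain ⟨ξ, hξ, h⟩ := hψ
  have h1 := Pool.Agent.Helper463.J10.nrm_aux b (fun n => (z n : K →L[ℂ] K)) C (fun n => hC n)
    (fun g => by
      rw [tendsto_zero_iff_norm_tendsto_zero]
      have h2 : ∀ n, ‖(z n : K →L[ℂ] K) (b g)‖ ≤ N2 b (z n) * ‖La b g‖ := by
        intro n
        have h3 := N2_right b (z n) (La b g)
        have h4 : ((z n * La b g : Elt (LK b)) : K →L[ℂ] K) (b 1) = (z n : K →L[ℂ] K) (b g) := by
          show (z n : K →L[ℂ] K) (lamK b g (b 1)) = _
          rw [lamK_basis, mul_one]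
        unfold N2 at h3
        rw [h4] at h3
        exact h3
      have h5 : Tendsto (fun n => N2 b (z n) * ‖La b g‖) atTop (𝓝 0) := by
        have := hz.mul_const ‖La b g‖
        rwa [zero_mul] at this
      exact squeeze_zero (fun n => norm_nonneg _) h2 h5) ξ hξ
  refine h1.congr fun n => ?_
  rw [h]
  rfl

section bimod

variable {L : Type} [NormedAddCommGroup L] [InnerProductSpace ℂ L] [CompleteSpace L]

theorem norm_sq_star (T : L →L[ℂ] L) (ξ : L) :
    ⟪ξ, (star T * T) ξ⟫_ℂ = ((‖T ξ‖ ^ 2 : ℝ) : ℂ) := by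
  rw [ContinuousLinearMap.star_eq_adjoint]
  show ⟪ξ, ContinuousLinearMap.adjoint T (T ξ)⟫_ℂ = _
  rw [ContinuousLinearMap.adjoint_inner_right, inner_self_eq_norm_sq_to_K]
  push_cast
  rfl

theorem tendsto_of_sq (a : ℕ → L) (h : Tendsto (fun n => ((‖a n‖ ^ 2 : ℝ) : ℂ)) atTop (𝓝 0)) :
    Tendsto a atTop (𝓝 0) := by
  rw [tendsto_zero_iff_norm_tendsto_zero]
  have h1 : Tendsto (fun n => ‖a n‖ ^ 2) atTop (𝓝 0) := by
    have h0 : Tendsto (fun n => (((‖a n‖ ^ 2 : ℝ) : ℂ)).re) atTop (𝓝 (0 : ℂ).re) :=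
      (Complex.continuous_re.tendsto 0).comp h
    rw [Complex.zero_re] at h0
    refine h0.congr fun n => ?_
    rw [Complex.ofReal_re]
  have h2 := (Real.continuous_sqrt.tendsto 0).comp h1
  rw [Real.sqrt_zero] at h2
  refine h2.congr fun n => ?_
  exact Real.sqrt_sq (norm_nonneg _)

theorem l_null (B : Bimod (LK b) L) (η : L) (z : ℕ → Elt (LK b)) (C : ℝ) (hC : ∀ n, ‖z n‖ ≤ C)
    (hz : Tendsto (fun n => N2 b (z n)) atTop (𝓝 0)) :
    Tendsto (fun n => B.l (z n) η) atTop (𝓝 0) := by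
  apply tendsto_of_sq
  refine (normal_null b _ (B.normal_l η) z C hC hz).congr fun n => ?_
  show ⟪η, B.l (star (z n) * z n) η⟫_ℂ = _
  rw [map_mul, map_star, norm_sq_star]

theorem r_null (B : Bimod (LK b) L) (η : L) (z : ℕ → Elt (LK b)) (C : ℝ) (hC : ∀ n, ‖z n‖ ≤ C)
    (hz : Tendsto (fun n => N2 b (z n)) atTop (𝓝 0)) :
    Tendsto (fun n => B.r (MulOpposite.op (z n)) η) atTop (𝓝 0) := by
  apply tendsto_of_sq
  refine (normal_null b _ (B.normal_r η) (fun n => star (z n)) C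
    (fun n => by rw [norm_star]; exact hC n) (hz.congr fun n => (N2_star b _).symm)).congr
    fun n => ?_
  show ⟪η, B.r (MulOpposite.op (star (star (z n)) * star (z n))) η⟫_ℂ = _
  rw [star_star, MulOpposite.op_mul, map_mul, MulOpposite.op_star, map_star, norm_sq_star]

/-- The group von Neumann algebra of a group with property (T) has property (T). -/
theorem propT_LK (hT : GT G) : PropT (LK b) := by
  classical
  obtain ⟨S, ε0, hε0, hS⟩ := hT
  intro κ hκ
  obtain ⟨ε, hε, hS'⟩ := Pool.Agent.Helper463.J14.gt_strong S ε0 hε0 hS κ hκ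
  refine ⟨S.image (La b), ε, hε, ?_⟩
  intro L _ _ _ B ξ hξ hF
  let lu : G → L →L[ℂ] L := fun g => B.l (La b g)
  let ru : G → L →L[ℂ] L := fun g => B.r (MulOpposite.op (La b g⁻¹))
  have hl1 : lu 1 = 1 := by
    show B.l (La b 1) = 1
    rw [La_one, map_one]
  have hlm : ∀ g h, lu (g * h) = lu g * lu h := by
    intro g h
    show B.l (La b (g * h)) = _
    rw [← RG.La_mul, map_mul]
  have hls : ∀ g, star (lu g) = lu g⁻¹ := by
    intro g
    show star (B.l (La b g)) = B.l (La b g⁻¹)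
    rw [← map_star, RG.star_La]
  have hr1 : ru 1 = 1 := by
    show B.r (MulOpposite.op (La b 1⁻¹)) = 1
    rw [inv_one, La_one, MulOpposite.op_one, map_one]
  have hrm : ∀ g h, ru (g * h) = ru g * ru h := by
    intro g h
    show B.r (MulOpposite.op (La b (g * h)⁻¹)) = _
    rw [mul_inv_rev, ← RG.La_mul, MulOpposite.op_mul, map_mul]
  have hrs : ∀ g, star (ru g) = ru g⁻¹ := by
    intro g
    show star (B.r (MulOpposite.op (La b g⁻¹))) = B.r (MulOpposite.op (La b g⁻¹⁻¹))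
    rw [← map_star, ← MulOpposite.op_star, RG.star_La]
  have hc : ∀ g h, lu g * ru h = ru h * lu g := fun g h => B.comm _ _
  let T : G → L →L[ℂ] L := fun g => lu g * ru g
  have hT1 : T 1 = 1 := by
    show lu 1 * ru 1 = 1
    rw [hl1, hr1, one_mul]
  have hTm : ∀ g h, T (g * h) = T g * T h := by
    intro g h
    show lu (g * h) * ru (g * h) = (lu g * ru g) * (lu h * ru h)
    rw [hlm, hrm]
    calc lu g * lu h * (ru g * ru h) = lu g * (lu h * ru g) * ru h := by simp only [mul_assoc]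
      _ = lu g * (ru g * lu h) * ru h := by rw [hc h g]
      _ = _ := by simp only [mul_assoc]
  have hTs : ∀ g, star (T g) = T g⁻¹ := by
    intro g
    show star (lu g * ru g) = lu g⁻¹ * ru g⁻¹
    rw [star_mul, hls, hrs, hc]
  let ρ : G →* unitary (L →L[ℂ] L) :=
    { toFun := fun g => ⟨T g, by
        rw [Unitary.mem_iff, hTs, ← hTm, ← hTm, inv_mul_cancel, mul_inv_cancel, hT1]
        exact ⟨rfl, rfl⟩⟩
      map_one' := Subtype.ext hT1
      map_mul' := fun g h => Subtype.ext (hTm g h) }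
  have hρ : ∀ g, (ρ g : L →L[ℂ] L) = T g := fun g => rfl
  -- `r(u_g)` is inverse to `ru g`
  have hrr : ∀ g, ru g * B.r (MulOpposite.op (La b g)) = 1 := by
    intro g
    have h1 : B.r (MulOpposite.op (La b g)) = ru g⁻¹ := by
      show _ = B.r (MulOpposite.op (La b g⁻¹⁻¹))
      rw [inv_inv]
    rw [h1, ← hrm, mul_inv_cancel, hr1]
  have hiso : ∀ g (v : L), ‖ru g v‖ = ‖v‖ := by
    intro g v
    have h1 := norm_sq_star (ru g) v
    rw [hrs, ← hrm, inv_mul_cancel, hr1] at h1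
    have h2 : ⟪v, (1 : L →L[ℂ] L) v⟫_ℂ = ((‖v‖ ^ 2 : ℝ) : ℂ) := by
      show ⟪v, v⟫_ℂ = _
      rw [inner_self_eq_norm_sq_to_K]
      push_cast
      rfl
    rw [h2] at h1
    have h3 : ‖v‖ ^ 2 = ‖ru g v‖ ^ 2 := by exact_mod_cast h1
    exact ((pow_left_inj₀ (norm_nonneg _) (norm_nonneg _) two_ne_zero).1 h3).symm
  have hkey : ∀ g v, T g v - v = ru g (lu g v - B.r (MulOpposite.op (La b g)) v) := by
    intro g v
    have h1 : T g v = ru g (lu g v) := by
      show (lu g * ru g) v = (ru g * lu g) v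
      rw [hc]
    have h2 : ru g (B.r (MulOpposite.op (La b g)) v) = v := by
      show (ru g * B.r (MulOpposite.op (La b g))) v = v
      rw [hrr]; rfl
    rw [map_sub, h1, h2]
  obtain ⟨η, hη, hinv, hclose⟩ := hS' L ρ ξ hξ fun s hs => by
    rw [hρ, hkey, hiso]
    exact hF (La b s) (Finset.mem_image_of_mem _ hs)
  refine ⟨η, hη, hclose, ?_⟩
  have hg : ∀ g, B.l (La b g) η = B.r (MulOpposite.op (La b g)) η := by
    intro g
    have h1 := hinv g
    rw [hρ] at h1
    have h2 := hkey g η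
    rw [h1, sub_self] at h2
    have h3 : ‖lu g η - B.r (MulOpposite.op (La b g)) η‖ = 0 := by
      rw [← hiso g, ← h2, norm_zero]
    exact sub_eq_zero.1 (norm_eq_zero.1 h3)
  have hv : ∀ v : MonoidAlgebra ℂ G, B.l (Lop b v) η = B.r (MulOpposite.op (Lop b v)) η := by
    intro v
    rw [Lop_apply, Finsupp.sum, Finset.op_sum, map_sum, map_sum,
      _root_.sum_apply, _root_.sum_apply]
    refine Finset.sum_congr rfl fun g _ => ?_
    rw [MulOpposite.op_smul, map_smul, map_smul]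
    show v.coeff g • (B.l (La b g) η) = v.coeff g • (B.r (MulOpposite.op (La b g)) η)
    rw [hg]
  intro x
  obtain ⟨v, ⟨C, hC⟩, hz⟩ := approx_seq b x
  have h1 := l_null b B η _ C hC hz
  have h2 := r_null b B η _ C hC hz
  have h3 := h1.sub h2
  rw [sub_zero] at h3
  have h4 : ∀ n, B.l (x - Lop b (v n)) η - B.r (MulOpposite.op (x - Lop b (v n))) η =
      B.l x η - B.r (MulOpposite.op x) η := by
    intro n
    rw [map_sub, MulOpposite.op_sub, map_sub]
    show (B.l x η - B.l (Lop b (v n)) η) - (B.r (MulOpposite.op x) η -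
      B.r (MulOpposite.op (Lop b (v n))) η) = _
    rw [hv]; abel
  have h5 : Tendsto (fun _ : ℕ => B.l x η - B.r (MulOpposite.op x) η) atTop (𝓝 0) :=
    h3.congr h4
  have h6 := tendsto_nhds_unique h5 tendsto_const_nhds
  exact (sub_eq_zero.1 h6.symm)

end bimod

end Pool.Agent.Helper463.EXV
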