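import Mathlib
import Pool.Agent.Helper463.EXP2
import Pool.Agent.Helper463.EXJ7
import Pool.Agent.Helper463.EXJ9
import Pool.Agent.Helper463.EXJ11

set_option autoImplicit false
set_option linter.unusedSectionVars false
set_option linter.unusedVariables false

open scoped InnerProductSpace ComplexOrder Topology BoundedContinuousFunction
open Filter

namespace Pool.Agent.Helper463.EXV

open Pool.Agent.Helper278 Pool.Agent.Helper278.CE Pool.Agent.Helper436.SM Pool.Agent.Helper278.RG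
open Pool.Agent.Helper436.SM.Sub Pool.Agent.Helper436.SN

variable {G : Type} [Group G] {K : Type} [NormedAddCommGroup K] [InnerProductSpace ℂ K]
  [CompleteSpace K] (b : HilbertBasis G ℂ K)

/-- the projection on the span of finitely many canonical unitaries -/
noncomputable def cE (s : Finset G) : Elt (LK b) →ₗ[ℂ] Elt (LK b) where
  toFun x := ∑ h ∈ s, ⟪b h, (x : K →L[ℂ] K) (b 1)⟫_ℂ • RG.La b h
  map_add' x y := by
    rw [← Finset.sum_add_distrib]
    refine Finset.sum_congr rfl fun h _ => ?_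
    rw [← add_smul, ← inner_add_right]
    rfl
  map_smul' c x := by
    rw [RingHom.id_apply, Finset.smul_sum]
    refine Finset.sum_congr rfl fun h _ => ?_
    rw [smul_smul, ← inner_smul_right]
    rfl

theorem cE_apply (s : Finset G) (x : Elt (LK b)) :
    cE b s x = ∑ h ∈ s, ⟪b h, (x : K →L[ℂ] K) (b 1)⟫_ℂ • RG.La b h := rfl

theorem cE_vec (s : Finset G) (x : Elt (LK b)) (g : G) :
    ((cE b s x : Elt (LK b)) : K →L[ℂ] K) (b g) =
      ∑ h ∈ s, ⟪b h, (x : K →L[ℂ] K) (b 1)⟫_ℂ • b (h * g) := by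
  rw [cE_apply]
  have h1 : ((∑ h ∈ s, ⟪b h, (x : K →L[ℂ] K) (b 1)⟫_ℂ • RG.La b h : Elt (LK b)) : K →L[ℂ] K) =
      ∑ h ∈ s, ⟪b h, (x : K →L[ℂ] K) (b 1)⟫_ℂ • lamK b h := by
    rw [AddSubmonoidClass.coe_finsetSum]
    rfl
  rw [h1, _root_.sum_apply]
  refine Finset.sum_congr rfl fun h _ => ?_
  show ⟪b h, (x : K →L[ℂ] K) (b 1)⟫_ℂ • (lamK b h (b g)) = _
  rw [lamK_basis]

theorem norm2_eq (x : Elt (LK b)) : norm2 (fun z => (TL b).τ z) x = N2 b x := by
  exact n2_TL b x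

open Classical in
theorem cE_coef (s : Finset G) (x : Elt (LK b)) (g h : G) :
    ⟪b g, ((cE b s x : Elt (LK b)) : K →L[ℂ] K) (b h)⟫_ℂ =
      if g * h⁻¹ ∈ s then ⟪b g, (x : K →L[ℂ] K) (b h)⟫_ℂ else 0 := by
  rw [cE_vec, inner_sum]
  have key : ∀ k, ⟪b g, b (k * h)⟫_ℂ = if k = g * h⁻¹ then 1 else 0 := by
    intro k
    by_cases hk : k = g * h⁻¹
    · rw [if_pos hk, hk, inv_mul_cancel_right, inner_bb_self]
    · rw [if_neg hk, inner_bb]
      intro h1
      apply hk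
      rw [h1, mul_inv_cancel_right]
  simp only [inner_smul_right, key, mul_ite, mul_one, mul_zero, Finset.sum_ite_eq']
  by_cases hs : g * h⁻¹ ∈ s
  · rw [if_pos hs, if_pos hs, coef_apply b x x.2 h g]
  · rw [if_neg hs, if_neg hs]

theorem cE_cp (P : Subgroup G) (s : Finset G) (hs : ∀ g, g ∈ s ↔ g ∈ P) : IsCP (LK b) (cE b s) := by
  classical
  intro n x ξ
  refine Pool.Agent.Helper463.J7.cp_aux b P n (fun i => (x i : K →L[ℂ] K))
    (fun i j => ((cE b s (star (x i) * x j) : Elt (LK b)) : K →L[ℂ] K)) ?_ ?_ ξ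
  · intro i j g h hgh
    rw [cE_coef, if_pos ((hs _).2 hgh)]
    show ⟪b g, (star (x i : K →L[ℂ] K) * (x j : K →L[ℂ] K)) (b h)⟫_ℂ = _
    rw [ContinuousLinearMap.star_eq_adjoint]
    show ⟪b g, ContinuousLinearMap.adjoint (x i : K →L[ℂ] K) ((x j : K →L[ℂ] K) (b h))⟫_ℂ = _
    rw [ContinuousLinearMap.adjoint_inner_right]
  · intro i j g h hgh
    rw [cE_coef, if_neg (fun h1 => hgh ((hs _).1 h1))]

theorem cE_normal [Countable G] (P : Subgroup G) [Finite P] (s : Finset G)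
    (hs : ∀ g, g ∈ s ↔ g ∈ P) : IsNormalMap (LK b) (cE b s) := by
  classical
  intro ζ
  obtain ⟨ξ, hξ, h⟩ := Pool.Agent.Helper463.J11.nrm_cE b P ζ
  refine ⟨ξ, hξ, fun x => ?_⟩
  refine h (x : K →L[ℂ] K) _ ?_ ?_
  · intro g h hgh
    rw [cE_coef, if_pos ((hs _).2 hgh)]
  · intro g h hgh
    rw [cE_coef, if_neg (fun h1 => hgh ((hs _).1 h1))]

theorem cE_one (s : Finset G) (hs : 1 ∈ s) : cE b s 1 = 1 := by
  classical
  rw [cE_apply, Finset.sum_eq_single 1]
  · have h1 : ((1 : Elt (LK b)) : K →L[ℂ] K) (b 1) = b 1 := rfl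
    rw [h1, inner_bb_self, one_smul, RG.La_one]
  · intro g _ hg
    have h1 : ((1 : Elt (LK b)) : K →L[ℂ] K) (b 1) = b 1 := rfl
    rw [h1, inner_bb b g 1 hg, zero_smul]
  · exact fun h => absurd hs h

theorem cE_tr (s : Finset G) (hs : 1 ∈ s) (x : Elt (LK b)) : (TL b).τ (cE b s x) = (TL b).τ x := by
  classical
  rw [TL_apply, TL_apply, trG_apply, trG_apply, cE_coef, if_pos (by rwa [inv_one, mul_one])]

theorem N2_smul (c : ℂ) (x : Elt (LK b)) : N2 b (c • x) = ‖c‖ * N2 b x := by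
  show ‖c • ((x : K →L[ℂ] K) (b 1))‖ = _
  rw [norm_smul]
  rfl

theorem cE_cpt (s : Finset G) : IsL2Compact (LK b) (fun z => (TL b).τ z) (cE b s) := by
  intro ε hε
  obtain ⟨F, hF⟩ := Pool.Agent.Helper463.J9.cpt_aux (N2 b)
    (by show ‖((0 : Elt (LK b)) : K →L[ℂ] K) (b 1)‖ = 0; simp) (N2_add b)
    (fun c x => (N2_smul b c x).le) s (RG.La b)
    (fun g _ => by
      show ‖lamK b g (b 1)‖ ≤ 1
      rw [lamK_basis, b.orthonormal.1]) ε hε
  refine ⟨F, fun x hx => ?_⟩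
  rw [norm2_eq] at hx
  obtain ⟨y, hy, h1⟩ := hF (fun h => ⟪b h, (x : K →L[ℂ] K) (b 1)⟫_ℂ) (fun h _ => by
    refine (norm_inner_le_norm _ _).trans ?_
    rw [b.orthonormal.1, one_mul]
    exact hx)
  exact ⟨y, hy, by rw [norm2_eq]; exact h1⟩

theorem cE_conv (s : ℕ → Finset G) (hs : Monotone s) (hs' : ∀ g, ∃ n, g ∈ s n) (x : Elt (LK b)) :
    Tendsto (fun k => norm2 (fun z => (TL b).τ z) (cE b (s k) x - x)) atTop (𝓝 0) := by
  classical
  have h0 : Tendsto s atTop atTop := tendsto_atTop_finset_of_monotone hs hs'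
  have h1 := (b.hasSum_repr ((x : K →L[ℂ] K) (b 1))).comp h0
  have h2 : Tendsto (fun k => ((cE b (s k) x : Elt (LK b)) : K →L[ℂ] K) (b 1)) atTop
      (𝓝 ((x : K →L[ℂ] K) (b 1))) := by
    refine h1.congr fun k => ?_
    show ∑ i ∈ s k, b.repr ((x : K →L[ℂ] K) (b 1)) i • b i = _
    rw [cE_vec]
    refine Finset.sum_congr rfl fun i _ => ?_
    rw [mul_one, b.repr_apply_apply]
  have h3 := (tendsto_iff_norm_sub_tendsto_zero.1 h2)
  refine h3.congr fun k => ?_
  rw [norm2_eq]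
  rfl

/-- `L(G)` of a group that is an increasing union of finite subgroups has the Haagerup
property. -/
theorem haagerup_LK [Countable G] (P : ℕ → Subgroup G) (hP : Monotone P) (hfin : ∀ n, Finite (P n))
    (hex : ∀ g, ∃ n, g ∈ P n) : HaagerupProp (LK b) (fun z => (TL b).τ z) := by
  classical
  let s : ℕ → Finset G := fun n => (Set.toFinite (P n : Set G)).toFinset
  have hs : ∀ n g, g ∈ s n ↔ g ∈ P n := fun n g => Set.Finite.mem_toFinset _
  have h1 : ∀ n, (1 : G) ∈ s n := fun n => (hs n 1).2 (one_mem _)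
  refine ⟨fun n => cE b (s n), fun n => ?_, fun n => cE_cp b (P n) (s n) (hs n), fun n => cE_one b (s n) (h1 n),
    fun n x => cE_tr b (s n) (h1 n) x, fun n => cE_cpt b (s n), fun x => cE_conv b s ?_ ?_ x⟩
  · have := hfin n
    exact cE_normal b (P n) (s n) (hs n)
  · intro m n hmn g hg
    exact (hs n g).2 (hP hmn ((hs m g).1 hg))
  · intro g
    obtain ⟨n, hn⟩ := hex g
    exact ⟨n, (hs n g).2 hn⟩

end Pool.Agent.Helper463.EXV
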