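import Mathlib
import Pool.Agent.Helper463.EXG

set_option autoImplicit false
set_option linter.unusedVariables false
set_option linter.unusedSectionVars false

namespace Pool.Agent.Helper463.EX


theorem single_mul_ne (i j k l : Fin 3) (h : j ≠ k) (a b : E) :
    (Matrix.single i j a : R3) * Matrix.single k l b = 0 := by
  rw [Matrix.single_mul_single_of_ne]
  exact h

theorem single_mul_eq (i j k : Fin 3) (a b : E) :
    (Matrix.single i j a : R3) * Matrix.single j k b = Matrix.single i k (a * b) := by
  rw [Matrix.single_mul_single_same]

theorem el_add (i j : Fin 3) (a b : E) : el i j (a + b) = el i j a * el i j b := by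
  by_cases h : i = j
  · unfold el; rw [dif_pos h, dif_pos h, dif_pos h, one_mul]
  · apply Units.ext
    rw [Units.val_mul, el_val i j h, el_val i j h, el_val i j h, Matrix.single_add]
    have h1 := single_sq i j h a b
    rw [add_mul, mul_add, mul_add, h1, one_mul, one_mul, mul_one, add_zero]
    abel

theorem el_rel (i j k : Fin 3) (hij : i ≠ j) (hjk : j ≠ k) (hik : i ≠ k) (a b : E) :
    el i j a * el j k b = el j k b * el i j a * el i k (a * b) := by
  apply Units.ext
  rw [Units.val_mul, Units.val_mul, Units.val_mul, el_val i j hij, el_val j k hjk, el_val i k hik]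
  have h1 := single_mul_eq i j k a b
  have h2 := single_mul_ne j k i j hik.symm b a
  have h3 := single_mul_ne i j i k hij.symm a (a * b)
  have h4 := single_mul_ne j k i k hik.symm b (a * b)
  simp only [add_mul, mul_add, one_mul, mul_one, h1, h2, h3, h4, add_zero]
  abel

theorem el_comm (i j k l : Fin 3) (hij : i ≠ j) (hkl : k ≠ l) (hjk : j ≠ k) (hli : l ≠ i) (a b : E) :
    el i j a * el k l b = el k l b * el i j a := by
  apply Units.ext
  rw [Units.val_mul, Units.val_mul, el_val i j hij, el_val k l hkl]
  have h1 := single_mul_ne i j k l hjk a b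
  have h2 := single_mul_ne k l i j hli b a
  simp only [add_mul, mul_add, one_mul, mul_one, h1, h2, add_zero]
  abel


end Pool.Agent.Helper463.EX
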