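import Mathlib
import Pool.Agent.Helper463.EXJ1

set_option autoImplicit false
set_option linter.unusedVariables false
set_option linter.unusedSectionVars false

namespace Pool.Agent.Helper463.EX

namespace J12


/-- `Λ` is countable. (`FA` is the span of countably many elements over a finite field.) -/
theorem lam_countable : Countable Lam := by
  haveI hFA : Countable FA := by unfold FA; infer_instance
  have hSc : ({g | ∃ i j a, i ≠ j ∧ a ∈ FA ∧ g = el i j a} : Set R3ˣ).Countable := by
    apply (Set.countable_range (fun p : Fin 3 × Fin 3 × FA => el p.1 p.2.1 (p.2.2 : E))).mono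
    rintro g ⟨i, j, a, hij, ha, rfl⟩
    exact ⟨(i, j, ⟨a, ha⟩), rfl⟩
  haveI : Countable ({g | ∃ i j a, i ≠ j ∧ a ∈ FA ∧ g = el i j a} : Set R3ˣ) := hSc.to_subtype
  haveI : Countable (FreeGroup ({g | ∃ i j a, i ≠ j ∧ a ∈ FA ∧ g = el i j a} : Set R3ˣ)) := by
    unfold FreeGroup
    infer_instance
  have h : (LamS : Set R3ˣ) ⊆ Set.range (FreeGroup.lift
      (Subtype.val : ({g | ∃ i j a, i ≠ j ∧ a ∈ FA ∧ g = el i j a} : Set R3ˣ) → R3ˣ)) := by
    have h1 : LamS ≤ (FreeGroup.lift
      (Subtype.val : ({g | ∃ i j a, i ≠ j ∧ a ∈ FA ∧ g = el i j a} : Set R3ˣ) → R3ˣ)).range := by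
      unfold LamS
      rw [Subgroup.closure_le]
      intro g hg
      exact ⟨FreeGroup.of ⟨g, hg⟩, by simp⟩
    intro x hx
    exact h1 hx
  exact ((Set.countable_range _).mono h).to_subtype


end J12

end Pool.Agent.Helper463.EX
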