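import Mathlib
import Pool.Agent.Helper463.EXJ1

set_option autoImplicit false
set_option linter.unusedVariables false
set_option linter.unusedSectionVars false

namespace Pool.Agent.Helper463.EX

namespace J2


/-- Heisenberg pairs -/
def HPx {G : Type} [Group G] (u u' : F → G) : Prop :=
  ∃ z : F → G, (∀ a b, z (a + b) = z a * z b) ∧ (∀ a b, u a * u' b = u' b * u a * z (a * b)) ∧
    (∀ a b, z a * u b = u b * z a) ∧ (∀ a b, z a * u' b = u' b * z a)

theorem hl_germ (U : Ultrafilter ℕ) (f g : ℕ → Lam) (h : ∀ n, f n = g n) :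
    (f : Filter.Germ (U : Filter ℕ) Lam) = g := by
  have : f = g := funext h
  rw [this]

/-- TARGET 1 -/
theorem line_add (U : Ultrafilter ℕ) (k : Fin 6) (a b : F) :
    line U k (a + b) = line U k a * line U k b := by
  have h1 : ∀ n, ln k (a + b) n = ln k a n * ln k b n := by
    intro n
    apply Subtype.ext
    show el (ps k).1 (ps k).2 ((a + b) • cr k n) =
      el (ps k).1 (ps k).2 (a • cr k n) * el (ps k).1 (ps k).2 (b • cr k n)
    rw [add_smul, el_add]
  exact hl_germ U _ (fun n => ln k a n * ln k b n) h1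

theorem ee_mul (i j k l : ℕ) : ee i j * ee k l = if j = k then ee i l else 0 := by
  apply LinearMap.ext
  intro v
  have h1 : (ee i j * ee k l) v = Finsupp.single i ((Finsupp.single k (v l)) j) := rfl
  rw [h1]
  by_cases h : j = k
  · rw [if_pos h, h, Finsupp.single_eq_same]
    rfl
  · rw [if_neg h, Finsupp.single_eq_of_ne h, Finsupp.single_zero]
    rfl

theorem FA_mul {a b : E} (ha : a ∈ FA) (hb : b ∈ FA) : a * b ∈ FA := by
  unfold FA at ha
  induction ha using Submodule.span_induction with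
  | mem x hx =>
    obtain ⟨p, rfl⟩ := hx
    unfold FA at hb
    induction hb using Submodule.span_induction with
    | mem y hy =>
      obtain ⟨p', rfl⟩ := hy
      show ee p.1 p.2 * ee p'.1 p'.2 ∈ FA
      rw [ee_mul]
      by_cases h : p.2 = p'.1
      · rw [if_pos h]
        exact ee_mem _ _
      · rw [if_neg h]
        exact FA.zero_mem
    | zero =>
      rw [mul_zero]
      exact FA.zero_mem
    | add y z _ _ h1 h2 =>
      rw [mul_add]
      exact FA.add_mem h1 h2
    | smul c y _ h1 =>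
      rw [mul_smul_comm]
      exact FA.smul_mem c h1
  | zero =>
    rw [zero_mul]
    exact FA.zero_mem
  | add y z _ _ h1 h2 =>
    rw [add_mul]
    exact FA.add_mem h1 h2
  | smul c y _ h1 =>
    rw [smul_mul_assoc]
    exact FA.smul_mem c h1

theorem hl_one (U : Ultrafilter ℕ) (k l : Fin 6) (h : (ps k).2 = (ps l).1)
    (h' : (ps k).1 ≠ (ps l).2) : HPx (line U k) (line U l) := by
  have hk := ps_ne k
  have hl := ps_ne l
  have hlk : (ps k).2 ≠ (ps l).2 := by
    rw [h]
    exact hl
  obtain ⟨zn, hzn⟩ : ∃ zn : F → ℕ → Lam, ∀ t n, ((zn t n : Lam) : R3ˣ) =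
      el (ps k).1 (ps l).2 (t • (cr k n * cr l n)) :=
    ⟨fun t n => eL (ps k).1 (ps l).2 (t • (cr k n * cr l n))
      (FA.smul_mem t (FA_mul (cr_mem k n) (cr_mem l n))), fun t n => rfl⟩
  refine ⟨fun t => ((zn t : ℕ → Lam) : Filter.Germ (U : Filter ℕ) Lam), ?_, ?_, ?_, ?_⟩
  · intro a b
    refine hl_germ U _ (fun n => zn a n * zn b n) (fun n => ?_)
    apply Subtype.ext
    rw [hzn]
    show _ = (zn a n : R3ˣ) * (zn b n : R3ˣ)
    rw [hzn, hzn, add_smul, el_add]
  · intro a b
    refine hl_germ U (fun n => ln k a n * ln l b n)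
      (fun n => ln l b n * ln k a n * zn (a * b) n) (fun n => ?_)
    apply Subtype.ext
    show el (ps k).1 (ps k).2 (a • cr k n) * el (ps l).1 (ps l).2 (b • cr l n) =
      el (ps l).1 (ps l).2 (b • cr l n) * el (ps k).1 (ps k).2 (a • cr k n) *
        (zn (a * b) n : R3ˣ)
    rw [hzn, ← h, el_rel (ps k).1 (ps k).2 (ps l).2 hk hlk h', smul_mul_smul_comm]
  · intro a b
    refine hl_germ U (fun n => zn a n * ln k b n) (fun n => ln k b n * zn a n) (fun n => ?_)
    apply Subtype.ext
    show (zn a n : R3ˣ) * el (ps k).1 (ps k).2 (b • cr k n) =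
      el (ps k).1 (ps k).2 (b • cr k n) * (zn a n : R3ˣ)
    rw [hzn]
    exact el_comm _ _ _ _ h' hk h'.symm hk.symm _ _
  · intro a b
    refine hl_germ U (fun n => zn a n * ln l b n) (fun n => ln l b n * zn a n) (fun n => ?_)
    apply Subtype.ext
    show (zn a n : R3ˣ) * el (ps l).1 (ps l).2 (b • cr l n) =
      el (ps l).1 (ps l).2 (b • cr l n) * (zn a n : R3ˣ)
    rw [hzn]
    exact el_comm _ _ _ _ h' hl hl.symm h'.symm _ _

theorem hl_two (U : Ultrafilter ℕ) (k l : Fin 6) (h : ps k = ps l) :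
    HPx (line U k) (line U l) := by
  have hk := ps_ne k
  refine ⟨fun _ => 1, ?_, ?_, ?_, ?_⟩
  · intro a b
    rw [one_mul]
  · intro a b
    rw [mul_one]
    refine hl_germ U (fun n => ln k a n * ln l b n) (fun n => ln l b n * ln k a n) (fun n => ?_)
    apply Subtype.ext
    show el (ps k).1 (ps k).2 (a • cr k n) * el (ps l).1 (ps l).2 (b • cr l n) =
      el (ps l).1 (ps l).2 (b • cr l n) * el (ps k).1 (ps k).2 (a • cr k n)
    rw [← h]
    exact el_comm _ _ _ _ hk hk hk.symm hk.symm _ _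
  · intro a b
    rw [one_mul, mul_one]
  · intro a b
    rw [one_mul, mul_one]

theorem hl_dec : ∀ k l : Fin 6, k ≠ l → (((ps k).2 = (ps l).1 ∧ (ps k).1 ≠ (ps l).2) ∨
    ((ps l).2 = (ps k).1 ∧ (ps l).1 ≠ (ps k).2) ∨ ps k = ps l) := by
  decide

/-- TARGET 2 -/
theorem hp_lines (U : Ultrafilter ℕ) (k l : Fin 6) (hkl : k ≠ l) :
    HPx (line U k) (line U l) ∨ HPx (line U l) (line U k) := by
  rcases hl_dec k l hkl with h | h | h
  · exact Or.inl (hl_one U k l h.1 h.2)
  · exact Or.inr (hl_one U l k h.1 h.2)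
  · exact Or.inl (hl_two U k l h)


end J2

end Pool.Agent.Helper463.EX
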