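import Mathlib
import Pool.Agent.Helper463.EXJ1

set_option autoImplicit false
set_option linter.unusedVariables false
set_option linter.unusedSectionVars false

namespace Pool.Agent.Helper463.EX


/-- the elementary matrices at position `(i, j)` with coefficient sequence `t • r` belong to `Γ` -/
def At (U : Ultrafilter ℕ) (i j : Fin 3) (r : ℕ → E) : Prop :=
  ∃ hr : ∀ n, r n ∈ FA, ∀ t : F,
    ((fun n => eL i j (t • r n) (FA.smul_mem t (hr n)) : ℕ → Lam) :
      Filter.Germ (U : Filter ℕ) Lam) ∈ GamS U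

/-- all positions -/
def InR (U : Ultrafilter ℕ) (r : ℕ → E) : Prop := ∀ i j : Fin 3, i ≠ j → At U i j r

/-- TARGET 1 -/
theorem at_mul (U : Ultrafilter ℕ) (i j k : Fin 3) (hij : i ≠ j) (hjk : j ≠ k) (hik : i ≠ k)
    (r s : ℕ → E) (hr : At U i j r) (hs : At U j k s) (hrs : ∀ n, r n * s n ∈ FA) :
    At U i k (fun n => r n * s n) := by
  obtain ⟨hr1, hr2⟩ := hr
  obtain ⟨hs1, hs2⟩ := hs
  refine ⟨hrs, fun t => ?_⟩
  have h1 := hr2 t
  have h2 := hs2 1
  set f : ℕ → Lam := fun n => eL i j (t • r n) (FA.smul_mem t (hr1 n)) with hf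
  set g : ℕ → Lam := fun n => eL j k ((1 : F) • s n) (FA.smul_mem 1 (hs1 n)) with hg
  have h3 : (fun n => eL i k (t • (r n * s n)) (FA.smul_mem t (hrs n)) : ℕ → Lam) =
      f⁻¹ * g⁻¹ * f * g := by
    funext n
    apply Subtype.ext
    show el i k (t • (r n * s n)) = (el i j (t • r n))⁻¹ * (el j k ((1 : F) • s n))⁻¹ *
      el i j (t • r n) * el j k ((1 : F) • s n)
    have h4 := el_rel i j k hij hjk hik (t • r n) ((1 : F) • s n)
    rw [one_smul, smul_mul_assoc] at h4
    rw [one_smul, mul_assoc _ (el i j (t • r n)), h4]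
    group
  show (((fun n => eL i k (t • (r n * s n)) (FA.smul_mem t (hrs n)) : ℕ → Lam)) :
      Filter.Germ (U : Filter ℕ) Lam) ∈ GamS U
  rw [h3, Filter.Germ.coe_mul, Filter.Germ.coe_mul, Filter.Germ.coe_mul, Filter.Germ.coe_inv,
    Filter.Germ.coe_inv]
  exact mul_mem (mul_mem (mul_mem (inv_mem h1) (inv_mem h2)) h1) h2

theorem ee_apply' (i j : ℕ) (x : ℕ →₀ F) : ee i j x = Finsupp.single i (x j) := rfl

theorem ee_mul_same (i j l : ℕ) : ee i j * ee j l = ee i l := by
  refine LinearMap.ext (fun x => ?_)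
  show ee i j (ee j l x) = ee i l x
  rw [ee_apply', ee_apply', ee_apply', Finsupp.single_eq_same]

theorem ee_mul_ne (i j k l : ℕ) (h : j ≠ k) : ee i j * ee k l = 0 := by
  refine LinearMap.ext (fun x => ?_)
  show ee i j (ee k l x) = 0
  rw [ee_apply', ee_apply', Finsupp.single_eq_of_ne h, Finsupp.single_zero]

/-- TARGET 2 -/
theorem FA_mul (a b : E) (ha : a ∈ FA) (hb : b ∈ FA) : a * b ∈ FA := by
  have h1 : a * b ∈ FA * FA := Submodule.mul_mem_mul ha hb
  have h2 : FA * FA ≤ FA := by
    conv_lhs => rw [FA]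
    rw [Submodule.span_mul_span]
    refine Submodule.span_le.mpr ?_
    rintro _ ⟨_, ⟨⟨i, j⟩, rfl⟩, _, ⟨⟨k, l⟩, rfl⟩, rfl⟩
    show ee i j * ee k l ∈ FA
    by_cases h : j = k
    · subst h
      rw [ee_mul_same]
      exact ee_mem _ _
    · rw [ee_mul_ne _ _ _ _ h]
      exact FA.zero_mem
  exact h2 h1

theorem pid_mul_ee (n i j : ℕ) (h : i ≤ n) : pid n * ee i j = ee i j := by
  unfold pid
  rw [Finset.sum_mul, Finset.sum_eq_single i]
  · exact ee_mul_same i i j
  · intro b _ hb
    exact ee_mul_ne b b i j hb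
  · intro h'
    exact absurd (Finset.mem_range.mpr (Nat.lt_succ_of_le h)) h'

theorem ee_mul_pid (n i j : ℕ) (h : j ≤ n) : ee i j * pid n = ee i j := by
  unfold pid
  rw [Finset.mul_sum, Finset.sum_eq_single j]
  · exact ee_mul_same i j j
  · intro b _ hb
    exact ee_mul_ne i j b b (Ne.symm hb)
  · intro h'
    exact absurd (Finset.mem_range.mpr (Nat.lt_succ_of_le h)) h'

/-- TARGET 3 -/
theorem pid_mul_cr (k : Fin 6) (n : ℕ) : pid n * cr k n = cr k n ∧ cr k n * pid n = cr k n := by
  have h1 : pid n * pid n = pid n ∧ pid n * pid n = pid n := by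
    have : pid n * pid n = pid n := by
      conv_lhs => rhs; rw [pid]
      rw [Finset.mul_sum]
      conv_rhs => rw [pid]
      refine Finset.sum_congr rfl (fun i hi => ?_)
      exact pid_mul_ee n i i (Nat.lt_succ_iff.mp (Finset.mem_range.mp hi))
    exact ⟨this, this⟩
  have h0 : pid n * ee 0 0 = ee 0 0 ∧ ee 0 0 * pid n = ee 0 0 :=
    ⟨pid_mul_ee n 0 0 (Nat.zero_le _), ee_mul_pid n 0 0 (Nat.zero_le _)⟩
  have h2 : pid n * tau n = tau n ∧ tau n * pid n = tau n := by
    unfold tau
    refine ⟨?_, ?_⟩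
    · rw [Finset.mul_sum]
      refine Finset.sum_congr rfl (fun i hi => ?_)
      exact pid_mul_ee n (i + 1) i (Finset.mem_range.mp hi)
    · rw [Finset.sum_mul]
      refine Finset.sum_congr rfl (fun i hi => ?_)
      exact ee_mul_pid n (i + 1) i (Finset.mem_range.mp hi).le
  have h3 : pid n * taus n = taus n ∧ taus n * pid n = taus n := by
    unfold taus
    refine ⟨?_, ?_⟩
    · rw [Finset.mul_sum]
      refine Finset.sum_congr rfl (fun i hi => ?_)
      exact pid_mul_ee n i (i + 1) (Finset.mem_range.mp hi).le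
    · rw [Finset.sum_mul]
      refine Finset.sum_congr rfl (fun i hi => ?_)
      exact ee_mul_pid n i (i + 1) (Finset.mem_range.mp hi)
  fin_cases k
  · exact h1
  · exact h1
  · exact h1
  · exact h0
  · exact h2
  · exact h3



namespace J3b


theorem at_line (U : Ultrafilter ℕ) (k : Fin 6) : At U (ps k).1 (ps k).2 (cr k) :=
  ⟨cr_mem k, fun t => Subgroup.subset_closure ⟨k, t, rfl⟩⟩

theorem at_mulq (U : Ultrafilter ℕ) (i j k : Fin 3) (hij : i ≠ j) (hjk : j ≠ k) (hik : i ≠ k)
    (r s q : ℕ → E) (hr : At U i j r) (hs : At U j k s) (hq : ∀ n, r n * s n = q n) :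
    At U i k q := by
  have h1 : ∀ n, r n * s n ∈ FA := fun n => FA_mul _ _ (hr.choose n) (hs.choose n)
  have h2 := at_mul U i j k hij hjk hik r s hr hs h1
  have h3 : (fun n => r n * s n) = q := funext hq
  rw [h3] at h2
  exact h2

theorem pid_pid (n : ℕ) : pid n * pid n = pid n := (pid_mul_cr 0 n).1

/-- TARGET 1 -/
theorem inR_pid (U : Ultrafilter ℕ) : InR U pid := by
  have h01 : At U 0 1 pid := at_line U 0
  have h12 : At U 1 2 pid := at_line U 1
  have h20 : At U 2 0 pid := at_line U 2
  have h02 : At U 0 2 pid :=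
    at_mulq U 0 1 2 (by decide) (by decide) (by decide) pid pid pid h01 h12 pid_pid
  have h10 : At U 1 0 pid :=
    at_mulq U 1 2 0 (by decide) (by decide) (by decide) pid pid pid h12 h20 pid_pid
  have h21 : At U 2 1 pid :=
    at_mulq U 2 0 1 (by decide) (by decide) (by decide) pid pid pid h20 h01 pid_pid
  intro i j hij
  fin_cases i <;> fin_cases j
  · exact absurd rfl hij
  · exact h01
  · exact h02
  · exact h10
  · exact absurd rfl hij
  · exact h12
  · exact h20
  · exact h21
  · exact absurd rfl hij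

theorem inR_of20 (U : Ultrafilter ℕ) (r : ℕ → E) (h20 : At U 2 0 r)
    (hr : ∀ n, pid n * r n = r n ∧ r n * pid n = r n) : InR U r := by
  have p := inR_pid U
  have h21 : At U 2 1 r :=
    at_mulq U 2 0 1 (by decide) (by decide) (by decide) r pid r h20 (p 0 1 (by decide))
      (fun n => (hr n).2)
  have h10 : At U 1 0 r :=
    at_mulq U 1 2 0 (by decide) (by decide) (by decide) pid r r (p 1 2 (by decide)) h20
      (fun n => (hr n).1)
  have h01 : At U 0 1 r :=
    at_mulq U 0 2 1 (by decide) (by decide) (by decide) pid r r (p 0 2 (by decide)) h21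
      (fun n => (hr n).1)
  have h12 : At U 1 2 r :=
    at_mulq U 1 0 2 (by decide) (by decide) (by decide) r pid r h10 (p 0 2 (by decide))
      (fun n => (hr n).2)
  have h02 : At U 0 2 r :=
    at_mulq U 0 1 2 (by decide) (by decide) (by decide) r pid r h01 (p 1 2 (by decide))
      (fun n => (hr n).2)
  intro i j hij
  fin_cases i <;> fin_cases j
  · exact absurd rfl hij
  · exact h01
  · exact h02
  · exact h10
  · exact absurd rfl hij
  · exact h12
  · exact h20
  · exact h21
  · exact absurd rfl hij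

/-- TARGET 2 -/
theorem inR_cr (U : Ultrafilter ℕ) (k : Fin 6) : InR U (cr k) := by
  fin_cases k
  · exact inR_pid U
  · exact inR_pid U
  · exact inR_pid U
  · exact inR_of20 U _ (at_line U 3) (fun n => pid_mul_cr 3 n)
  · exact inR_of20 U _ (at_line U 4) (fun n => pid_mul_cr 4 n)
  · exact inR_of20 U _ (at_line U 5) (fun n => pid_mul_cr 5 n)

/-- TARGET 3 -/
theorem inR_mul (U : Ultrafilter ℕ) (r s : ℕ → E) (hr : InR U r) (hs : InR U s) :
    InR U (fun n => r n * s n) := by
  intro i j hij
  have hk : ∀ i j : Fin 3, i ≠ j → ∃ k : Fin 3, i ≠ k ∧ k ≠ j := by decide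
  obtain ⟨k, h1, h2⟩ := hk i j hij
  exact at_mulq U i k j h1 h2 hij r s _ (hr i k h1) (hs k j h2) (fun n => rfl)



end J3b

open J3b

namespace J3c


theorem ee_mul (a b c d : ℕ) : ee a b * ee c d = if b = c then ee a d else 0 := by
  apply Finsupp.lhom_ext
  intro x y
  by_cases hdx : x = d
  · subst hdx
    by_cases hbc : b = c
    · subst hbc
      simp [ee, Module.End.mul_apply]
    · simp [ee, Module.End.mul_apply, hbc, Finsupp.single_eq_of_ne, Ne.symm hbc]
  · by_cases hbc : b = c
    · subst hbc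
      simp [ee, Module.End.mul_apply, Finsupp.single_eq_of_ne, hdx, Ne.symm hdx]
    · simp [ee, Module.End.mul_apply, hbc, Finsupp.single_eq_of_ne, hdx, Ne.symm hdx]

theorem tau_mul_ee (n i j : ℕ) (h : i < n) : tau n * ee i j = ee (i + 1) j := by
  unfold tau
  rw [Finset.sum_mul, Finset.sum_congr rfl (fun l _ => ee_mul (l + 1) l i j)]
  rw [Finset.sum_ite_eq' (Finset.range n) i (fun l => ee (l + 1) j), if_pos (Finset.mem_range.mpr h)]

theorem ee_mul_taus (n i j : ℕ) (h : j < n) : ee i j * taus n = ee i (j + 1) := by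
  unfold taus
  rw [Finset.mul_sum, Finset.sum_congr rfl (fun l _ => ee_mul i j l (l + 1))]
  rw [Finset.sum_ite_eq (Finset.range n) j (fun l => ee i (l + 1)), if_pos (Finset.mem_range.mpr h)]

theorem ev_ge (U : Ultrafilter ℕ) (hU : ∀ n, {n} ∉ U) (n0 : ℕ) : ∀ᶠ n in (U : Filter ℕ), n0 ≤ n := by
  induction n0 with
  | zero => exact Filter.Eventually.of_forall fun n => Nat.zero_le n
  | succ m ih =>
    have h1 : ∀ᶠ n in (U : Filter ℕ), n ≠ m := by
      have := Ultrafilter.compl_mem_iff_notMem.mpr (hU m)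
      exact this
    filter_upwards [ih, h1] with n h2 h3
    omega

theorem inR_congr (U : Ultrafilter ℕ) (r s : ℕ → E) (hr : InR U r) (hs : ∀ n, s n ∈ FA)
    (h : ∀ᶠ n in (U : Filter ℕ), r n = s n) : InR U s := by
  intro i j hij
  obtain ⟨hr1, hr2⟩ := hr i j hij
  refine ⟨hs, fun t => ?_⟩
  have h1 : ((fun n => eL i j (t • s n) (FA.smul_mem t (hs n)) : ℕ → Lam) :
      Filter.Germ (U : Filter ℕ) Lam) =
      ((fun n => eL i j (t • r n) (FA.smul_mem t (hr1 n)) : ℕ → Lam) :
      Filter.Germ (U : Filter ℕ) Lam) := by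
    apply Filter.Germ.coe_eq.mpr
    filter_upwards [h] with n hn
    apply Subtype.ext
    show el i j (t • s n) = el i j (t • r n)
    rw [hn]
  rw [h1]
  exact hr2 t

/-- TARGET 1: constant matrix units -/
theorem inR_ee (U : Ultrafilter ℕ) (hU : ∀ n, {n} ∉ U) (i j : ℕ) : InR U (fun _ => ee i j) := by
  have hA : ∀ i, InR U (fun _ => ee i 0) := by
    intro i
    induction i with
    | zero => exact inR_cr U 3
    | succ m ih =>
      have h1 : InR U (fun n => tau n * ee m 0) := inR_mul U tau _ (inR_cr U 4) ih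
      refine inR_congr U _ _ h1 (fun _ => ee_mem _ _) ?_
      filter_upwards [ev_ge U hU (m + 1)] with n hn
      exact tau_mul_ee n m 0 (by omega)
  induction j with
  | zero => exact hA i
  | succ m ih =>
    have h1 : InR U (fun n => ee i m * taus n) := inR_mul U _ taus ih (inR_cr U 5)
    refine inR_congr U _ _ h1 (fun _ => ee_mem _ _) ?_
    filter_upwards [ev_ge U hU (m + 1)] with n hn
    exact ee_mul_taus n i m (by omega)



end J3c

open J3c


/-- TARGET: -/
theorem cst_mem (U : Ultrafilter ℕ) (hU : ∀ n, {n} ∉ U) (g : Lam) : cst U g ∈ GamS U := by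
  have hel0 : ∀ i j : Fin 3, el i j 0 = 1 := by
    intro i j
    have h := el_add i j 0 0
    rw [add_zero] at h
    exact (left_eq_mul.1 h)
  have hmul : ∀ x y : Lam, cst U (x * y) = cst U x * cst U y := fun x y => rfl
  have hinv : ∀ x : Lam, cst U x⁻¹ = (cst U x)⁻¹ := fun x => rfl
  have hone : cst U (1 : Lam) = 1 := rfl
  have hA : ∀ i j : Fin 3, i ≠ j → ∀ (a : E) (ha : a ∈ FA), ∀ t : F,
      cst U (eL i j (t • a) (FA.smul_mem t ha)) ∈ GamS U := by
    intro i j hij a ha
    unfold FA at ha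
    induction ha using Submodule.span_induction with
    | mem x hx =>
      obtain ⟨⟨p, q⟩, rfl⟩ := hx
      obtain ⟨hr, h⟩ := inR_ee U hU p q i j hij
      intro t
      exact h t
    | zero =>
      intro t
      have h1 : eL i j (t • (0 : E)) (FA.smul_mem t (Submodule.zero_mem _)) = 1 := by
        apply Subtype.ext
        change el i j (t • (0 : E)) = 1
        rw [smul_zero, hel0]
      rw [h1, hone]
      exact one_mem _
    | add x y hx hy h1 h2 =>
      intro t
      have h3 : eL i j (t • (x + y)) (FA.smul_mem t (Submodule.add_mem _ hx hy)) =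
          eL i j (t • x) (FA.smul_mem t hx) * eL i j (t • y) (FA.smul_mem t hy) := by
        apply Subtype.ext
        change el i j (t • (x + y)) = el i j (t • x) * el i j (t • y)
        rw [smul_add, el_add]
      rw [h3, hmul]
      exact mul_mem (h1 t) (h2 t)
    | smul c x hx h1 =>
      intro t
      have h3 : eL i j (t • c • x) (FA.smul_mem t (Submodule.smul_mem _ c hx)) =
          eL i j ((t * c) • x) (FA.smul_mem (t * c) hx) := by
        apply Subtype.ext
        change el i j (t • c • x) = el i j ((t * c) • x)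
        rw [mul_smul]
      rw [h3]
      exact h1 (t * c)
  have hB : ∀ (x : R3ˣ) (hx : x ∈ LamS), cst U ⟨x, hx⟩ ∈ GamS U := by
    intro x hx
    have hx' := hx
    unfold LamS at hx'
    induction hx' using Subgroup.closure_induction with
    | mem x h =>
      obtain ⟨i, j, a, hij, ha, rfl⟩ := h
      have h1 := hA i j hij a ha 1
      have h2 : eL i j ((1 : F) • a) (FA.smul_mem 1 ha) = ⟨el i j a, hx⟩ := by
        apply Subtype.ext
        change el i j ((1 : F) • a) = el i j a
        rw [one_smul]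
      rw [h2] at h1
      exact h1
    | one =>
      exact one_mem _
    | mul x y hx1 hy1 h1 h2 =>
      exact mul_mem (h1 hx1) (h2 hy1)
    | inv x hx1 h1 =>
      exact inv_mem (h1 hx1)
  exact hB g.1 g.2


end Pool.Agent.Helper463.EX
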