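import Mathlib
import Pool.Agent.Helper463.EXJ1

set_option autoImplicit false
set_option linter.unusedVariables false
set_option linter.unusedSectionVars false

namespace Pool.Agent.Helper463.EX

namespace J4


theorem g1 {R : Type*} [Ring R] (a b : R) : a + b - a = b := add_sub_cancel_left a b
theorem g2 {R : Type*} [Ring R] (x y : R) : x * y - 1 = (x - 1) * y + (y - 1) := by noncomm_ring
theorem g3 {R : Type*} [Ring R] (x y : R) (h : x * y = 1) : y - 1 = -((x - 1) * y) := by
  rw [sub_mul, h, one_mul]; abel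
theorem g4 {R : Type*} [Ring R] (g A : R) (h : A = g - 1) : g = 1 + A := by rw [h]; abel
theorem g5 {R : Type*} [Ring R] : (1 - 1 : R) = 0 := sub_self 1
theorem g6 {R : Type*} [Ring R] (a b c : R) (h : a + b = a + c) : b = c := add_left_cancel h
theorem g7 {R : Type*} [Ring R] (a : R) (h : a - 1 = 0) : a = 1 := sub_eq_zero.1 h

theorem ee_apply (i j : ℕ) (v : ℕ →₀ F) : ee i j v = Finsupp.single i (v j) := rfl

theorem fa_sup (a : E) (ha : a ∈ FA) : ∃ n : ℕ, ∀ (v : ℕ →₀ F) (m : ℕ), n ≤ m → (a v) m = 0 := by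
  refine Submodule.span_induction (p := fun a _ => ∃ n : ℕ, ∀ (v : ℕ →₀ F) (m : ℕ), n ≤ m →
    (a v) m = 0) ?_ ?_ ?_ ?_ ha
  · rintro _ ⟨⟨i, j⟩, rfl⟩
    refine ⟨i + 1, fun v m hm => ?_⟩
    rw [ee_apply]
    exact Finsupp.single_eq_of_ne (by omega)
  · exact ⟨0, fun v m _ => by simp⟩
  · rintro x y _ _ ⟨n, hn⟩ ⟨k, hk⟩
    refine ⟨max n k, fun v m hm => ?_⟩
    rw [LinearMap.add_apply, Finsupp.add_apply, hn v m (le_trans (le_max_left _ _) hm),
      hk v m (le_trans (le_max_right _ _) hm), add_zero]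
  · rintro t x _ ⟨n, hn⟩
    refine ⟨n, fun v m hm => ?_⟩
    rw [LinearMap.smul_apply, Finsupp.smul_apply, hn v m hm, smul_zero]

/-- the ranges of the entries live on the coordinates `< n` -/
def Sup (n : ℕ) (A : R3) : Prop := ∀ p q (v : ℕ →₀ F) (m : ℕ), n ≤ m → (A p q v) m = 0

theorem Sup.mul {n : ℕ} {A : R3} (hA : Sup n A) (B : R3) : Sup n (A * B) := by
  intro p q v m hm
  rw [Matrix.mul_apply, LinearMap.sum_apply, Finsupp.finset_sum_apply]
  refine Finset.sum_eq_zero fun k _ => ?_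
  exact hA p k (B k q v) m hm

theorem Sup.add {n : ℕ} {A B : R3} (hA : Sup n A) (hB : Sup n B) : Sup n (A + B) := by
  intro p q v m hm
  rw [Matrix.add_apply, LinearMap.add_apply, Finsupp.add_apply, hA p q v m hm, hB p q v m hm,
    add_zero]

theorem Sup.neg {n : ℕ} {A : R3} (hA : Sup n A) : Sup n (-A) := by
  intro p q v m hm
  rw [Matrix.neg_apply, LinearMap.neg_apply, Finsupp.neg_apply, hA p q v m hm, neg_zero]

theorem Sup.mono {n k : ℕ} (h : n ≤ k) {A : R3} (hA : Sup n A) : Sup k A :=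
  fun p q v m hm => hA p q v m (h.trans hm)

theorem lam_sup (g : R3ˣ) (hg : g ∈ LamS) : ∃ n, Sup n ((g : R3) - 1) := by
  refine Subgroup.closure_induction (p := fun (g : R3ˣ) _ => ∃ n, Sup n ((g : R3) - 1)) ?_ ?_ ?_ ?_ hg
  · rintro _ ⟨i, j, a, hij, ha, rfl⟩
    obtain ⟨n, hn⟩ := fa_sup a ha
    refine ⟨n, fun p q v m hm => ?_⟩
    have e : ((el i j a : R3ˣ) : R3) - 1 = Matrix.single i j a := by
      rw [el_val i j hij]
      exact g1 (R := R3) _ _
    rw [e, Matrix.single_apply]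
    split_ifs
    · exact hn v m hm
    · simp
  · refine ⟨0, fun p q v m _ => ?_⟩
    have e : (((1 : R3ˣ) : R3) - 1 : R3) = 0 := g5 (R := R3)
    rw [e]
    rfl
  · rintro x y _ _ ⟨n, hn⟩ ⟨k, hk⟩
    refine ⟨max n k, ?_⟩
    have e : ((x * y : R3ˣ) : R3) - 1 = ((x : R3) - 1) * (y : R3) + ((y : R3) - 1) := g2 (R := R3) _ _
    rw [e]
    exact ((hn.mono (le_max_left _ _)).mul _).add (hk.mono (le_max_right _ _))
  · rintro x _ ⟨n, hn⟩
    refine ⟨n, ?_⟩
    have e : ((x⁻¹ : R3ˣ) : R3) - 1 = -(((x : R3) - 1) * ((x⁻¹ : R3ˣ) : R3)) := g3 (R := R3) _ _ (Units.mul_inv x)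
    rw [e]
    exact (hn.mul _).neg

theorem single_mul_sup {n : ℕ} {A : R3} (hA : Sup n A) (q k : Fin 3) (j m : ℕ) (hm : n ≤ m) :
    (Matrix.single q k (ee j m) : R3) * A = 0 := by
  ext p c v : 3
  · rw [Matrix.mul_apply]
    have h0 : ∀ l ∈ (Finset.univ : Finset (Fin 3)), (Matrix.single q k (ee j m) : R3) p l * A l c = 0 := by
      intro l _
      rw [Matrix.single_apply]
      split_ifs with h
      · apply LinearMap.ext
        intro w
        rw [Module.End.mul_apply, ee_apply, hA l c w m hm, Finsupp.single_zero]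
        rfl
      · rw [zero_mul]
    rw [Finset.sum_eq_zero h0]
    rfl

theorem conj_aux {R : Type*} [Ring R] (A x : R) (h1 : x * A = 0) (h2 : x * x = 0) :
    (1 + -x) * (1 + A) * (1 + x) = 1 + A + A * x := by
  have e : (1 + -x) * (1 + A) * (1 + x) = 1 + A + A * x - x * x - x * A - (x * A) * x := by
    noncomm_ring
  rw [e, h1, h2]
  simp

/-- TARGET -/
theorem lam_icc (g : Lam) (hg : g ≠ 1) : (Set.range fun h : Lam => h * g * h⁻¹).Infinite := by
  obtain ⟨n, hn⟩ := lam_sup g.1 g.2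
  set A : R3 := ((g.1 : R3ˣ) : R3) - 1 with hA
  have hA0 : A ≠ 0 := by
    intro h
    apply hg
    apply Subtype.ext
    apply Units.ext
    have : ((g.1 : R3ˣ) : R3) = 1 := g7 (R := R3) _ h
    rw [this]
    rfl
  obtain ⟨p, q, j, hpqj⟩ : ∃ p q j, A p q (Finsupp.single j 1) ≠ 0 := by
    by_contra hcon
    push Not at hcon
    apply hA0
    apply Matrix.ext
    intro p q
    apply Finsupp.lhom_ext
    intro j b
    have hb : (Finsupp.single j b : ℕ →₀ F) = b • Finsupp.single j 1 := by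
      rw [Finsupp.smul_single, smul_eq_mul, mul_one]
    rw [hb, map_smul, hcon p q j, smul_zero]
    rfl
  obtain ⟨k, hk⟩ : ∃ k : Fin 3, q ≠ k := by
    fin_cases q
    · exact ⟨1, by decide⟩
    · exact ⟨0, by decide⟩
    · exact ⟨0, by decide⟩
  let s : ℕ → Lam := fun m => ⟨el q k (ee j (n + m)), el_mem q k _ (ee_mem _ _)⟩
  have hconj : ∀ m, ((((s m)⁻¹ * g * s m : Lam).1 : R3ˣ) : R3) =
      ((g.1 : R3ˣ) : R3) + A * Matrix.single q k (ee j (n + m)) := by
    intro m
    have e1 : (((s m)⁻¹ * g * s m : Lam).1 : R3ˣ) = (el q k (ee j (n + m)))⁻¹ * g.1 *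
      el q k (ee j (n + m)) := rfl
    rw [e1, el_inv, Units.val_mul, Units.val_mul, el_val q k hk, el_val q k hk]
    have hg1 : ((g.1 : R3ˣ) : R3) = 1 + A := g4 (R := R3) _ _ hA
    set x : R3 := Matrix.single q k (ee j (n + m)) with hx
    have hneg : (Matrix.single q k (-(ee j (n + m))) : R3) = -x :=
      (Matrix.single_neg q k (ee j (n + m))).symm
    rw [hneg, hg1]
    have hxA : x * A = 0 := single_mul_sup hn q k j (n + m) (by omega)
    have hxx : x * x = 0 := single_sq q k hk _ _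
    exact conj_aux (R := R3) A x hxA hxx
  have hinj : Function.Injective fun m => (s m)⁻¹ * g * s m := by
    intro a b hab
    by_contra hne
    have h1 := congrArg (fun w : Lam => ((w.1 : R3ˣ) : R3)) hab
    have h1 : ((((s a)⁻¹ * g * s a : Lam).1 : R3ˣ) : R3) = ((((s b)⁻¹ * g * s b : Lam).1 : R3ˣ) : R3) := h1
    rw [hconj a, hconj b] at h1
    have h2 := g6 (R := R3) _ _ _ h1
    have h3 : (A * Matrix.single q k (ee j (n + a)) : R3) p k (Finsupp.single (n + a) 1)
      = (A * Matrix.single q k (ee j (n + b)) : R3) p k (Finsupp.single (n + a) 1) :=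
      congrArg (fun M : R3 => M p k (Finsupp.single (n + a) 1)) h2
    have hval : ∀ m : ℕ, (A * Matrix.single q k (ee j m) : R3) p k = A p q * ee j m := by
      intro m
      rw [Matrix.mul_apply, Finset.sum_eq_single q]
      · rw [Matrix.single_apply_same]
      · intro l _ hl
        rw [Matrix.single_apply_of_ne _ _ _ _ _ (by tauto), mul_zero]
      · simp
    rw [hval, hval, Module.End.mul_apply, Module.End.mul_apply, ee_apply, ee_apply,
      Finsupp.single_eq_same, Finsupp.single_eq_of_ne (by omega), Finsupp.single_zero,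
      map_zero] at h3
    exact hpqj h3
  refine Set.infinite_of_injective_forall_mem hinj ?_
  intro m
  refine ⟨(s m)⁻¹, ?_⟩
  simp only [inv_inv]



end J4

namespace J5


/-- the endomorphisms with matrix entries in `n × n` -/
noncomputable def An (n : ℕ) : Submodule F E :=
  Submodule.span F {x | ∃ i j : ℕ, i < n ∧ j < n ∧ x = ee i j}

theorem An_mono : Monotone An := fun a b h => Submodule.span_mono (by
  rintro x ⟨i, j, hi, hj, rfl⟩
  exact ⟨i, j, lt_of_lt_of_le hi h, lt_of_lt_of_le hj h, rfl⟩)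

theorem ee_apply (i j : ℕ) (v : ℕ →₀ F) : ee i j v = Finsupp.single i (v j) := rfl

theorem ee_mul (i j k l : ℕ) : ee i j * ee k l = if j = k then ee i l else 0 := by
  apply LinearMap.ext
  intro v
  rw [Module.End.mul_apply, ee_apply, ee_apply]
  by_cases h : j = k
  · subst h
    rw [if_pos rfl, ee_apply, Finsupp.single_eq_same]
  · rw [if_neg h, Finsupp.single_eq_of_ne h]
    simp

theorem An_mul (n : ℕ) {x y : E} (hx : x ∈ An n) (hy : y ∈ An n) : x * y ∈ An n := by
  have h : An n * An n ≤ An n := by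
    conv_lhs => unfold An
    rw [Submodule.span_mul_span]
    apply Submodule.span_le.mpr
    rintro _ ⟨x, ⟨i, j, hi, hj, rfl⟩, y, ⟨k, l, hk, hl, rfl⟩, rfl⟩
    show ee i j * ee k l ∈ An n
    rw [ee_mul]
    split_ifs
    · exact Submodule.subset_span ⟨i, l, hi, hl, rfl⟩
    · exact Submodule.zero_mem _
  exact h (Submodule.mul_mem_mul hx hy)

theorem An_fin (n : ℕ) : Finite (An n) := by
  have hf : Set.Finite {x : E | ∃ i j : ℕ, i < n ∧ j < n ∧ x = ee i j} := by
    apply Set.Finite.subset (Set.Finite.image (fun p : ℕ × ℕ => ee p.1 p.2)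
      ((Set.finite_Iio n).prod (Set.finite_Iio n)))
    rintro x ⟨i, j, hi, hj, rfl⟩
    exact ⟨(i, j), ⟨hi, hj⟩, rfl⟩
  haveI : Module.Finite F (An n) := Module.Finite.span_of_finite F hf
  exact Module.finite_of_finite F

theorem FA_An {a : E} (ha : a ∈ FA) : ∃ n, a ∈ An n := by
  unfold FA at ha
  induction ha using Submodule.span_induction with
  | mem x hx =>
    obtain ⟨⟨i, j⟩, rfl⟩ := hx
    refine ⟨max i j + 1, Submodule.subset_span ⟨i, j, ?_, ?_, rfl⟩⟩
    · have := le_max_left i j; omega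
    · have := le_max_right i j; omega
  | zero => exact ⟨0, Submodule.zero_mem _⟩
  | add x y _ _ hx hy =>
    obtain ⟨n, hn⟩ := hx
    obtain ⟨m, hm⟩ := hy
    exact ⟨max n m, Submodule.add_mem _ (An_mono (le_max_left n m) hn)
      (An_mono (le_max_right n m) hm)⟩
  | smul c x _ hx =>
    obtain ⟨n, hn⟩ := hx
    exact ⟨n, Submodule.smul_mem _ _ hn⟩

/-- all entries of `g - 1` are in `An n` -/
def EM (n : ℕ) (g : R3) : Prop := ∃ x : R3, g = 1 + x ∧ ∀ i j, x i j ∈ An n

theorem EM_one (n : ℕ) : EM n 1 :=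
  ⟨0, (add_zero 1).symm, fun _ _ => Submodule.zero_mem _⟩

theorem EM_mul (n : ℕ) {g h : R3} (hg : EM n g) (hh : EM n h) : EM n (g * h) := by
  obtain ⟨x, rfl, hx⟩ := hg
  obtain ⟨y, rfl, hy⟩ := hh
  refine ⟨x + y + x * y, ?_, ?_⟩
  · calc (1 + x) * (1 + y) = 1 * 1 + 1 * y + (x * 1 + x * y) := by
          rw [add_mul, mul_add, mul_add]
      _ = 1 + (x + y + x * y) := by
          rw [one_mul, one_mul, mul_one, add_assoc 1 y, ← add_assoc y x, add_comm y x]
  · intro i j
    rw [Matrix.add_apply, Matrix.add_apply, Matrix.mul_apply]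
    exact Submodule.add_mem _ (Submodule.add_mem _ (hx i j) (hy i j))
      (Submodule.sum_mem _ (fun k _ => An_mul n (hx i k) (hy k j)))

theorem EM_mono {n m : ℕ} (h : n ≤ m) {g : R3} (hg : EM n g) : EM m g := by
  obtain ⟨x, e, hx⟩ := hg
  exact ⟨x, e, fun i j => An_mono h (hx i j)⟩

theorem EM_fin (n : ℕ) : Set.Finite {g : R3 | EM n g} := by
  have := An_fin n
  apply Set.Finite.subset (Set.finite_range
    (fun x : Fin 3 → Fin 3 → An n => ((1 : R3) + Matrix.of (fun i j => (x i j : E)))))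
  rintro g ⟨x, rfl, hx⟩
  exact ⟨fun i j => ⟨x i j, hx i j⟩, rfl⟩

/-- the units with entries as above -/
def Qn (n : ℕ) : Subgroup R3ˣ where
  carrier := {g | EM n (g : R3) ∧ EM n ((g⁻¹ : R3ˣ) : R3)}
  one_mem' := by
    refine ⟨?_, ?_⟩
    · rw [Units.val_one]; exact EM_one n
    · rw [inv_one, Units.val_one]; exact EM_one n
  mul_mem' := by
    rintro g h ⟨g1, g2⟩ ⟨h1, h2⟩
    refine ⟨?_, ?_⟩
    · rw [Units.val_mul]; exact EM_mul n g1 h1
    · rw [mul_inv_rev, Units.val_mul]; exact EM_mul n h2 g2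
  inv_mem' := by
    rintro g ⟨g1, g2⟩
    refine ⟨g2, ?_⟩
    rw [inv_inv]; exact g1

theorem Qn_mono : Monotone Qn := fun n m h g hg => ⟨EM_mono h hg.1, EM_mono h hg.2⟩

theorem EM_el (n : ℕ) (i j : Fin 3) (a : E) (ha : a ∈ An n) : EM n (el i j a : R3) := by
  by_cases h : i = j
  · have : el i j a = 1 := by unfold el; rw [dif_pos h]
    rw [this, Units.val_one]
    exact EM_one n
  · refine ⟨Matrix.single i j a, el_val i j h a, ?_⟩
    intro k l
    rw [Matrix.single_apply]
    split_ifs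
    · exact ha
    · exact Submodule.zero_mem _

theorem el_Qn (n : ℕ) (i j : Fin 3) (a : E) (ha : a ∈ An n) : el i j a ∈ Qn n := by
  refine ⟨EM_el n i j a ha, ?_⟩
  rw [el_inv]
  exact EM_el n i j (-a) (by
    have h := Submodule.smul_mem (An n) (-1 : F) ha
    have e : (-1 : F) • a = -a := by
      apply LinearMap.ext
      intro v
      rw [LinearMap.smul_apply, LinearMap.neg_apply, neg_smul, one_smul]
    rw [e] at h
    exact h)

theorem Lam_Qn {g : R3ˣ} (hg : g ∈ LamS) : ∃ n, g ∈ Qn n := by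
  unfold LamS at hg
  induction hg using Subgroup.closure_induction with
  | mem x hx =>
    obtain ⟨i, j, a, _, ha, rfl⟩ := hx
    obtain ⟨n, hn⟩ := FA_An ha
    exact ⟨n, el_Qn n i j a hn⟩
  | one => exact ⟨0, one_mem _⟩
  | mul x y _ _ hx hy =>
    obtain ⟨n, hn⟩ := hx
    obtain ⟨m, hm⟩ := hy
    exact ⟨max n m, mul_mem (Qn_mono (le_max_left n m) hn) (Qn_mono (le_max_right n m) hm)⟩
  | inv x _ hx =>
    obtain ⟨n, hn⟩ := hx
    exact ⟨n, inv_mem hn⟩

/-- TARGET -/
theorem lam_exhaust : ∃ P : ℕ → Subgroup Lam, Monotone P ∧ (∀ n, Finite (P n)) ∧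
    ∀ g : Lam, ∃ n, g ∈ P n := by
  refine ⟨fun n => (Qn n).subgroupOf LamS, ?_, ?_, ?_⟩
  · intro n m h g hg
    rw [Subgroup.mem_subgroupOf] at hg ⊢
    exact Qn_mono h hg
  · intro n
    have hfin := (EM_fin n).to_subtype
    let φ : ((Qn n).subgroupOf LamS) → {g : R3 | EM n g} := fun g =>
      ⟨(((g : Lam) : R3ˣ) : R3), (Subgroup.mem_subgroupOf.mp g.2).1⟩
    apply Finite.of_injective φ
    intro g h e
    apply Subtype.ext
    apply Subtype.ext
    apply Units.ext
    exact congrArg Subtype.val e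
  · intro g
    obtain ⟨n, hn⟩ := Lam_Qn g.2
    exact ⟨n, Subgroup.mem_subgroupOf.mpr hn⟩



end J5

namespace J6


/-- TARGET: `Λ` is infinite -/
theorem lam_infinite : Infinite Lam := by
  refine Infinite.of_injective (fun n : ℕ => eL 0 1 (ee n 0) (ee_mem n 0)) ?_
  intro n m h
  have h1 : el 0 1 (ee n 0) = el 0 1 (ee m 0) := congrArg (fun g : Lam => (g : R3ˣ)) h
  have h2 : ((el 0 1 (ee n 0) : R3ˣ) : R3) = ((el 0 1 (ee m 0) : R3ˣ) : R3) := by rw [h1]
  rw [el_val 0 1 (by decide), el_val 0 1 (by decide)] at h2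
  have h4 := congrFun (congrFun h2 0) 1
  rw [Matrix.add_apply, Matrix.add_apply, Matrix.single_apply_same, Matrix.single_apply_same,
    Matrix.one_apply_ne (by decide), zero_add, zero_add] at h4
  have h5 : ee n 0 (Finsupp.single 0 1) = ee m 0 (Finsupp.single 0 1) := by rw [h4]
  have h6 : (Finsupp.single n (1 : F) : ℕ →₀ F) = Finsupp.single m 1 := by
    simpa [ee] using h5
  exact (Finsupp.single_left_injective (one_ne_zero)) h6



end J6

end Pool.Agent.Helper463.EX
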