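import Mathlib
import Pool.Agent.Helper463.EXJ2
import Pool.Agent.Helper278.TB.PropT

set_option autoImplicit false

open scoped InnerProductSpace

namespace Pool.Agent.Helper463.EX

open Pool.Agent.Helper278.TB

theorem propT_Gam (U : Ultrafilter ℕ) :
    ∃ S : Finset (Gam U), ∃ ε : ℝ, 0 < ε ∧
      ∀ (H : Type) [NormedAddCommGroup H] [InnerProductSpace ℂ H] [CompleteSpace H]
        (ρ : Gam U →* unitary (H →L[ℂ] H)),
        (∃ x : H, ‖x‖ = 1 ∧ ∀ s ∈ S, ‖(ρ s : H →L[ℂ] H) x - x‖ < ε) →
          ∃ x : H, x ≠ 0 ∧ ∀ g : Gam U, (ρ g : H →L[ℂ] H) x = x := by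
  have hmem : ∀ (n : Fin 6) (t : F), line U n t ∈ GamS U := fun n t =>
    Subgroup.subset_closure ⟨n, t, rfl⟩
  let u : Fin 6 → F → Gam U := fun n t => ⟨line U n t, hmem n t⟩
  have hK : 256 ≤ Fintype.card F := by
    rw [ZMod.card]; norm_num
  refine propT_lines hK (n := 6) (by norm_num) (by norm_num) u ?_ ?_ ?_
  · intro i a b
    exact Subtype.ext (J2.line_add U i a b)
  · have key : ∀ m n : Fin 6, J2.HPx (line U m) (line U n) → HP (u m) (u n) := by
      rintro m n ⟨z, hz, hrel, h1, h2⟩
      have hzG : ∀ a, z a ∈ GamS U := by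
        intro a
        have h := hrel a 1
        rw [mul_one] at h
        have e : z a = (line U m a)⁻¹ * (line U n 1)⁻¹ * (line U m a * line U n 1) := by
          rw [h]; group
        rw [e]
        exact mul_mem (mul_mem (inv_mem (hmem m a)) (inv_mem (hmem n 1)))
          (mul_mem (hmem m a) (hmem n 1))
      refine ⟨fun a => ⟨z a, hzG a⟩, ?_, ?_, ?_, ?_⟩
      · intro a b; exact Subtype.ext (hz a b)
      · intro a b
        apply Subtype.ext
        show line U m a * line U n b = line U n b * (line U m a * z (a * b))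
        rw [hrel a b, mul_assoc]
      · intro a b; exact Subtype.ext (h1 a b)
      · intro a b; exact Subtype.ext (h2 a b)
    intro i j hij
    rcases J2.hp_lines U i j hij with h | h
    · exact Or.inl (key _ _ h)
    · exact Or.inr (key _ _ h)
  · rw [eq_top_iff]
    rintro ⟨g, hg⟩ -
    refine Subgroup.closure_induction (p := fun x hx => (⟨x, hx⟩ : Gam U) ∈
      Subgroup.closure {g | ∃ i t, g = u i t}) ?_ ?_ ?_ ?_ hg
    · rintro x ⟨n, t, rfl⟩
      exact Subgroup.subset_closure ⟨n, t, rfl⟩
    · exact one_mem _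
    · intro x y hx hy h1 h2
      exact mul_mem h1 h2
    · intro x hx h1
      exact inv_mem h1

end Pool.Agent.Helper463.EX
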