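import Mathlib
import Pool.Agent.Helper463.EXH
import Pool.Agent.Helper463.EXT
import Pool.Agent.Helper463.EXJ3
import Pool.Agent.Helper463.EXJ4
import Pool.Agent.Helper463.EXJ12
import Pool.Agent.Helper278.CEIter
import Pool.Agent.Helper278.Model

set_option autoImplicit false
set_option linter.unusedSectionVars false
set_option linter.unusedVariables false

open scoped InnerProductSpace ComplexOrder Topology BoundedContinuousFunction
open Filter

namespace Pool.Agent.Helper463.EXV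

open Pool.Agent.Helper278 Pool.Agent.Helper278.CE Pool.Agent.Helper436.SM Pool.Agent.Helper278.RG
open Pool.Agent.Helper436.SM.Sub Pool.Agent.Helper436.SN

section ultra

variable {G : Type} [Group G] {K : Type} [NormedAddCommGroup K] [InnerProductSpace ℂ K]
  [CompleteSpace K] (b : HilbertBasis G ℂ K)
variable {Q : Type} [Ring Q] [StarRing Q] [Algebra ℂ Q] [StarModule ℂ Q]
variable {U : Ultrafilter ℕ} {π : (ℕ →ᵇ Elt (LK b)) →⋆ₐ[ℂ] Q} {φ : Q → ℂ}

/-- canonical unitaries as unitaries -/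
noncomputable def uLa (g : G) : unitary (Elt (LK b)) :=
  ⟨RG.La b g, by
    rw [Unitary.mem_iff, RG.star_La, RG.La_mul, RG.La_mul, inv_mul_cancel, mul_inv_cancel,
      RG.La_one]
    exact ⟨rfl, rfl⟩⟩

/-- sequences of canonical unitaries -/
noncomputable def sq (g : ℕ → G) : ℕ →ᵇ Elt (LK b) := mkB fun n => uLa b (g n)

theorem sq_apply (g : ℕ → G) (n : ℕ) : sq b g n = RG.La b (g n) := rfl

theorem sq_mul (g h : ℕ → G) : sq b (fun n => g n * h n) = sq b g * sq b h := by
  ext1 n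
  show RG.La b (g n * h n) = RG.La b (g n) * RG.La b (h n)
  rw [RG.La_mul]

theorem sq_star (g : ℕ → G) : star (sq b g) = sq b fun n => (g n)⁻¹ := by
  ext1 n
  show star (RG.La b (g n)) = RG.La b (g n)⁻¹
  rw [RG.star_La]

theorem sq_one : sq b (fun _ => (1 : G)) = 1 := by
  ext1 n
  exact RG.La_one b

theorem pi_sq (hπ : Helper278.IsTracialUltrapower (TL b).τ U π φ) (g h : ℕ → G)
    (hgh : ∀ᶠ n in (U : Filter ℕ), g n = h n) : π (sq b g) = π (sq b h) := by
  rw [pi_eq_iff hπ]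
  refine Tendsto.congr' (f₁ := fun _ => (0 : ℝ)) ?_ tendsto_const_nhds
  filter_upwards [hgh] with n hn
  rw [sq_apply, sq_apply, hn, sub_self]
  unfold n2
  rw [mul_zero, map_zero, Complex.zero_re, Real.sqrt_zero]

theorem phi_sq (hπ : Helper278.IsTracialUltrapower (TL b).τ U π φ) (g : ℕ → G)
    (hg : ∀ᶠ n in (U : Filter ℕ), g n ≠ 1) : φ (π (sq b g)) = 0 := by
  refine tendsto_nhds_unique (hπ.trace (sq b g)) ?_
  refine Tendsto.congr' (f₁ := fun _ => (0 : ℂ)) ?_ tendsto_const_nhds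
  filter_upwards [hg] with n hn
  rw [sq_apply, TL_apply, trG_apply]
  show 0 = ⟪b 1, lamK b (g n) (b 1)⟫_ℂ
  rw [lamK_basis, mul_one, inner_bb b 1 (g n) (Ne.symm hn)]

/-- The group ultrapower maps to the tracial ultrapower of `L(G)`. -/
theorem exists_q (hπ : Helper278.IsTracialUltrapower (TL b).τ U π φ) :
    ∃ q : Filter.Germ (U : Filter ℕ) G →* Q, (∀ γ, star (q γ) = q γ⁻¹) ∧
      (∀ γ, γ ≠ 1 → φ (q γ) = 0) ∧
      ∀ g : ℕ → G, q (g : Filter.Germ (U : Filter ℕ) G) = π (sq b g) := by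
  have hrep : ∀ γ : Filter.Germ (U : Filter ℕ) G, ∃ g : ℕ → G,
      (g : Filter.Germ (U : Filter ℕ) G) = γ := fun γ =>
    Filter.Germ.inductionOn γ fun f => ⟨f, rfl⟩
  choose rep hr using hrep
  have hq : ∀ g : ℕ → G, π (sq b (rep (g : Filter.Germ (U : Filter ℕ) G))) = π (sq b g) := by
    intro g
    apply pi_sq b hπ
    exact Filter.Germ.coe_eq.1 (hr _)
  refine ⟨{ toFun := fun γ => π (sq b (rep γ)), map_one' := ?_, map_mul' := ?_ }, ?_, ?_, hq⟩
  · have h1 : (1 : Filter.Germ (U : Filter ℕ) G) = ((fun _ => (1 : G) : ℕ → G) :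
        Filter.Germ (U : Filter ℕ) G) := rfl
    show π (sq b (rep 1)) = 1
    rw [h1, hq, sq_one, map_one]
  · intro γ δ
    show π (sq b (rep (γ * δ))) = π (sq b (rep γ)) * π (sq b (rep δ))
    rw [← map_mul, ← sq_mul]
    refine pi_sq b hπ _ _ (Filter.Germ.coe_eq.1 ?_)
    rw [hr]
    conv_lhs => rw [← hr γ, ← hr δ]
    rfl
  · intro γ
    show star (π (sq b (rep γ))) = π (sq b (rep γ⁻¹))
    rw [← map_star, sq_star]
    refine pi_sq b hπ _ _ (Filter.Germ.coe_eq.1 ?_)
    rw [hr]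
    conv_rhs => rw [← hr γ]
    rfl
  · intro γ hγ
    show φ (π (sq b (rep γ))) = 0
    apply phi_sq b hπ
    refine Ultrafilter.eventually_not.2 fun h1 => ?_
    apply hγ
    rw [← hr γ]
    exact Filter.Germ.coe_eq.2 h1

end ultra

/-- the diagonal embedding -/
theorem exists_diag {H : Type} [NormedAddCommGroup H] [InnerProductSpace ℂ H] [CompleteSpace H]
    {N : VonNeumannAlgebra H} {P : Type} [Ring P] [StarRing P] [Algebra ℂ P]
    (π : (ℕ →ᵇ Elt N) →⋆ₐ[ℂ] P) :
    ∃ D : Elt N →⋆ₐ[ℂ] P, ∀ x, D x = π (BoundedContinuousFunction.const ℕ x) := by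
  have h1 : BoundedContinuousFunction.const ℕ (1 : Elt N) = 1 := by ext1 n; rfl
  have hm : ∀ x y : Elt N, BoundedContinuousFunction.const ℕ (x * y) =
      BoundedContinuousFunction.const ℕ x * BoundedContinuousFunction.const ℕ y := by
    intro x y; ext1 n; rfl
  have h0 : BoundedContinuousFunction.const ℕ (0 : Elt N) = 0 := by ext1 n; rfl
  have ha : ∀ x y : Elt N, BoundedContinuousFunction.const ℕ (x + y) =
      BoundedContinuousFunction.const ℕ x + BoundedContinuousFunction.const ℕ y := by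
    intro x y; ext1 n; rfl
  have hs : ∀ x : Elt N, BoundedContinuousFunction.const ℕ (star x) =
      star (BoundedContinuousFunction.const ℕ x) := by
    intro x; ext1 n; rfl
  have hc : ∀ (r : ℂ), BoundedContinuousFunction.const ℕ (algebraMap ℂ (Elt N) r) =
      r • (1 : ℕ →ᵇ Elt N) := by
    intro r; ext1 n
    show algebraMap ℂ (Elt N) r = r • (1 : Elt N)
    rw [Algebra.algebraMap_eq_smul_one]
  let f : Elt N →+* P :=
    { toFun := fun x => π (BoundedContinuousFunction.const ℕ x)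
      map_one' := by rw [h1, map_one]
      map_mul' := fun x y => by rw [hm, map_mul]
      map_zero' := by rw [h0, map_zero]
      map_add' := fun x y => by rw [ha, map_add] }
  have hf : ∀ x, f x = π (BoundedContinuousFunction.const ℕ x) := fun x => rfl
  let g : Elt N →ₐ[ℂ] P :=
    { f with
      commutes' := fun r => by
        show f _ = _
        rw [hf, hc, map_smul, map_one, Algebra.algebraMap_eq_smul_one] }
  have hg : ∀ x, g x = π (BoundedContinuousFunction.const ℕ x) := fun x => rfl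
  refine ⟨{ g with map_star' := fun x => ?_ }, fun x => rfl⟩
  show g (star x) = star (g x)
  rw [hg, hg, hs, map_star]

/-- The general construction: `G ≤ Γ ≤ G^U`. -/
theorem main_aux (U : Ultrafilter ℕ) (hU : ∀ n, {n} ∉ U) {G : Type} [Group G]
    (Γ : Subgroup (Filter.Germ (U : Filter ℕ) G)) (c : G →* Γ)
    (hcv : ∀ g, (c g : Filter.Germ (U : Filter ℕ) G) = ((fun _ => g : ℕ → G) :
      Filter.Germ (U : Filter ℕ) G)) :
    ∃ ι : Elt (LK (sb G)) →⋆ₐ[ℂ] Elt (LK (sb Γ)),
      IsExistential U (fun x => (TL (sb G)).τ x) (fun x => (TL (sb Γ)).τ x) ι := by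
  obtain ⟨Q, _, _, _, _, π, φ, hπ⟩ := exists_ultrapower (TL (sb G)) U
  obtain ⟨q, hqs, hq0, hqv⟩ := exists_q (sb G) hπ
  obtain ⟨θ, hθ, hθv⟩ := exists_ext (sigma_trAlg hπ) (ball_ultra hU hπ)
    (G := Γ) (q.comp Γ.subtype) (fun g => hqs _)
    (fun g hg => hq0 _ (fun h => hg (Subtype.ext h)))
  have hc : ∀ g, g ≠ 1 → c g ≠ 1 := by
    intro g hg h
    have h1 : (c g : Filter.Germ (U : Filter ℕ) G) = 1 := congrArg Subtype.val h
    rw [hcv] at h1
    have h2 : ∀ᶠ n in (U : Filter ℕ), g = 1 := Filter.Germ.coe_eq.1 h1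
    obtain ⟨n, hn⟩ := h2.exists
    exact hg hn
  obtain ⟨ι, hι, hιv⟩ := exists_ext (trAlg (TL (sb Γ))) (ball_elt (TL (sb Γ)))
    (G := G) ((LaHom (sb Γ)).comp c) (fun g => by
      show star (RG.La _ (c g)) = RG.La _ (c g⁻¹)
      rw [RG.star_La, map_inv])
    (fun g hg => by
      show (TL (sb Γ)).τ (RG.La _ (c g)) = 0
      rw [TL_apply, trG_apply]
      show ⟪sb Γ 1, lamK (sb Γ) (c g) (sb Γ 1)⟫_ℂ = 0
      rw [lamK_basis, mul_one, inner_bb _ _ _ (Ne.symm (hc g hg))])
  obtain ⟨D, hD⟩ := exists_diag (P := Q) π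
  have hDt : ∀ x, φ (D x) = (TL (sb G)).τ x := by
    intro x
    rw [hD]
    exact tendsto_nhds_unique (hπ.trace (BoundedContinuousFunction.const ℕ x)) tendsto_const_nhds
  have hcomp : ∀ x, θ (ι x) = D x := by
    intro x
    refine hom_uniq (sb G) (sigma_trAlg hπ) (θ.comp ι) D (fun y => ?_) hDt (fun g => ?_) x
    · show sigmaL hπ (θ (ι y)) = _
      rw [hθ, hι]
    · show θ (ι (RG.La (sb G) g)) = D (RG.La (sb G) g)
      rw [hιv]
      show θ (RG.La (sb Γ) (c g)) = _
      rw [hθv]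
      show q (c g : Filter.Germ (U : Filter ℕ) G) = _
      rw [hcv, hqv, hD]
      rfl
  refine ⟨ι, hι, Q, inferInstance, inferInstance, inferInstance, inferInstance, plain π, φ, θ,
    plain_tracial hπ, fun y => hθ y, fun x => ?_⟩
  rw [hcomp, hD]
  exact (plain_of π _ (BoundedContinuousFunction.const ℕ x) (fun n => rfl)).symm

section

open Pool.Agent.Helper463.EX

/-- the diagonal embedding of `Λ` in `Γ` -/
noncomputable def cH (U : Ultrafilter ℕ) (hU : ∀ n, {n} ∉ U) : Lam →* GamS U where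
  toFun g := ⟨cst U g, cst_mem U hU g⟩
  map_one' := Subtype.ext rfl
  map_mul' g h := Subtype.ext rfl

theorem main (U : Ultrafilter ℕ) (hU : ∀ n, {n} ∉ U) :
    ∃ ι : Elt (LK (sb Lam)) →⋆ₐ[ℂ] Elt (LK (sb (GamS U))),
      Example U (LK (sb Lam)) (fun x => (TL (sb Lam)).τ x) (LK (sb (GamS U)))
        (fun x => (TL (sb (GamS U))).τ x) ι := by
  obtain ⟨ι, hι⟩ := main_aux U hU (GamS U) (cH U hU) (fun g => rfl)
  have := J6.lam_infinite
  have := J12.lam_countable
  obtain ⟨P, hP1, hP2, hP3⟩ := J5.lam_exhaust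
  exact ⟨ι, isIIOne_LK (sb Lam) J4.lam_icc, haagerup_LK (sb Lam) P hP1 hP2 hP3,
    normal_trG _, faithful_trG _, propT_LK (sb (GamS U)) (propT_Gam U), hι⟩

end

end Pool.Agent.Helper463.EXV
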