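import Mathlib
import Pool.Agent.Helper278.DefsG
import Pool.Agent.Helper278.CEStmt

set_option autoImplicit false

open scoped InnerProductSpace ComplexOrder Topology
open Filter

namespace Pool.Agent.Helper463.ST

open Pool.Agent.Helper278

section

variable {H : Type} [NormedAddCommGroup H] [InnerProductSpace ℂ H] [CompleteSpace H]

/-- The elements of a von Neumann algebra `N`, with their C*-algebra structure. -/
def VA (N : VonNeumannAlgebra H) : Type := Elt N

noncomputable instance (N : VonNeumannAlgebra H) : CStarAlgebra (VA N) := CE.cstarElt N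

/-- The operator `x ∈ N` applied to the vector `ξ`. -/
def ap {N : VonNeumannAlgebra H} (x : VA N) (ξ : H) : H := (show Elt N from x : H →L[ℂ] H) ξ

/-- `a x ξ` is a unital, bilinear, contractive and normal action of the elements `x` of `M` on the
Hilbert space `L` that respects the adjoint. -/
structure IsAct (M : VonNeumannAlgebra H) (L : Type) [NormedAddCommGroup L]
    [InnerProductSpace ℂ L] (a : VA M → L → L) : Prop where
  one : ∀ ξ, a 1 ξ = ξ
  add : ∀ x y ξ, a (x + y) ξ = a x ξ + a y ξ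
  smul : ∀ (c : ℂ) x ξ, a (c • x) ξ = c • a x ξ
  vadd : ∀ x ξ η, a x (ξ + η) = a x ξ + a x η
  vsmul : ∀ (c : ℂ) x ξ, a x (c • ξ) = c • a x ξ
  star : ∀ x ξ η, ⟪a (star x) ξ, η⟫_ℂ = ⟪ξ, a x η⟫_ℂ
  norm : ∀ x ξ, ‖a x ξ‖ ≤ ‖x‖ * ‖ξ‖
  normal : ∀ ξ, IsNormalPositive M fun x => ⟪ξ, a x ξ⟫_ℂ

/-- The Hilbert space `L` is a Hilbert `M`-`M` bimodule with the left action `l x ξ = x ξ` and the
right action `r x ξ = ξ x`. -/
structure IsBimod (M : VonNeumannAlgebra H) (L : Type) [NormedAddCommGroup L]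
    [InnerProductSpace ℂ L] (l r : VA M → L → L) : Prop where
  left : IsAct M L l
  right : IsAct M L r
  l_mul : ∀ x y ξ, l (x * y) ξ = l x (l y ξ)
  r_mul : ∀ x y ξ, r (x * y) ξ = r y (r x ξ)
  comm : ∀ x y ξ, l x (r y ξ) = r y (l x ξ)

/-- Property (T) of a von Neumann algebra: for every `ε > 0` there are a finite set `F ⊆ M` and
`δ > 0` such that for every Hilbert `M`-`M` bimodule and every unit vector `ξ` in it with
`‖x ξ - ξ x‖ < δ` for all `x ∈ F` there is a nonzero central vector `η` with `‖η - ξ‖ ≤ ε`. -/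
def PropT (M : VonNeumannAlgebra H) : Prop :=
  ∀ ε : ℝ, 0 < ε → ∃ (F : Finset (VA M)) (δ : ℝ), 0 < δ ∧
    ∀ (L : Type) [NormedAddCommGroup L] [InnerProductSpace ℂ L] [CompleteSpace L]
      (l r : VA M → L → L), IsBimod M L l r → ∀ ξ : L, ‖ξ‖ = 1 →
      (∀ x ∈ F, ‖l x ξ - r x ξ‖ < δ) → ∃ η : L, η ≠ 0 ∧ ‖η - ξ‖ ≤ ε ∧ ∀ x, l x η = r x η

/-- `φ` is completely positive: for all `x₁, …, xₙ` in `N` the matrix `(φ(x_i* x_j))` is
positive. -/
def IsCP (N : VonNeumannAlgebra H) (φ : VA N → VA N) : Prop :=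
  ∀ (n : ℕ) (x : Fin n → VA N) (ξ : Fin n → H),
    0 ≤ ∑ i, ∑ j, ⟪ξ i, ap (φ (star (x i) * x j)) (ξ j)⟫_ℂ

/-- The positive map `φ` is normal: its composition with every vector functional is a normal
positive functional. -/
def IsNormalMap (N : VonNeumannAlgebra H) (φ : VA N → VA N) : Prop :=
  ∀ ζ : H, IsNormalPositive N fun x => ⟪ζ, ap (φ x) ζ⟫_ℂ

/-- `φ` induces a compact operator on `L²(N, τ)`: the image of the unit ball of the 2-norm is
totally bounded in the 2-norm. -/
def IsL2Compact (N : VonNeumannAlgebra H) (τ : VA N → ℂ) (φ : VA N → VA N) : Prop :=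
  ∀ ε : ℝ, 0 < ε → ∃ F : Finset (VA N), ∀ x, norm2 τ x ≤ 1 → ∃ y ∈ F, norm2 τ (φ x - y) ≤ ε

/-- `φ` is a normal, unital, trace preserving, completely positive linear map `N → N` that is
compact on `L²(N, τ)`. -/
structure IsHMap (N : VonNeumannAlgebra H) (τ : VA N → ℂ) (φ : VA N → VA N) : Prop where
  add : ∀ x y, φ (x + y) = φ x + φ y
  smul : ∀ (c : ℂ) x, φ (c • x) = c • φ x
  normal : IsNormalMap N φ
  cp : IsCP N φ
  one : φ 1 = 1
  trace : ∀ x, τ (φ x) = τ x
  compact : IsL2Compact N τ φ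

/-- The Haagerup property of `(N, τ)`: there are normal, unital, trace preserving, completely
positive maps `φ_k : N → N` that are compact on `L²(N, τ)`, with `‖φ_k(x) - x‖₂ → 0` for all
`x`. -/
def HaagerupProp (N : VonNeumannAlgebra H) (τ : VA N → ℂ) : Prop :=
  ∃ φ : ℕ → VA N → VA N, (∀ k, IsHMap N τ (φ k)) ∧
    ∀ x, Tendsto (fun k => norm2 τ (φ k x - x)) atTop (𝓝 0)

/-- `f` is a unital star homomorphism of complex star algebras. -/
structure IsHom {A B : Type} [Ring A] [StarRing A] [Algebra ℂ A] [Ring B] [StarRing B]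
    [Algebra ℂ B] (f : A → B) : Prop where
  one : f 1 = 1
  add : ∀ x y, f (x + y) = f x + f y
  mul : ∀ x y, f (x * y) = f x * f y
  smul : ∀ (c : ℂ) x, f (c • x) = c • f x
  star : ∀ x, f (star x) = star (f x)

variable {K : Type} [NormedAddCommGroup K] [InnerProductSpace ℂ K] [CompleteSpace K]

/-- `θ` is a trace preserving embedding of `(M, σ)` in the tracial ultrapower `(Q, φ) = N^U`, with
quotient map `π`, such that `θ ∘ ι` is the diagonal embedding of `N`. -/
structure IsLift (U : Ultrafilter ℕ) {N : VonNeumannAlgebra H} (τ : VA N → ℂ)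
    {M : VonNeumannAlgebra K} (σ : VA M → ℂ) (ι : VA N → VA M) {Q : Type} [Ring Q] [StarRing Q]
    [Algebra ℂ Q] (π : (ℕ → VA N) → Q) (φ : Q → ℂ) (θ : VA M → Q) : Prop where
  ultra : CE.IsTracialUltrapower τ U π φ
  hom : IsHom θ
  trace : ∀ y, φ (θ y) = σ y
  diag : ∀ x, θ (ι x) = π fun _ => x

/-- The embedding `ι : (N, τ) → (M, σ)` is existential for the ultrafilter `U`: it preserves the
trace and `M` has a trace preserving embedding `θ` in the tracial ultrapower `N^U` such that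
`θ ∘ ι` is the diagonal embedding of `N`. -/
def IsExistential (U : Ultrafilter ℕ) {N : VonNeumannAlgebra H} (τ : VA N → ℂ)
    {M : VonNeumannAlgebra K} (σ : VA M → ℂ) (ι : VA N → VA M) : Prop :=
  IsHom ι ∧ (∀ x, σ (ι x) = τ x) ∧
    ∃ (Q : Type) (_ : Ring Q) (_ : StarRing Q) (_ : Algebra ℂ Q) (π : (ℕ → VA N) → Q)
      (φ : Q → ℂ) (θ : VA M → Q), IsLift U τ σ ι π φ θ

/-- `N` is a II₁ factor with trace `τ` and the Haagerup property, `σ` is a faithful normal tracial
state on `M`, `M` has property (T), and `ι : N → M` is existential for `U`. -/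
structure IsExample (U : Ultrafilter ℕ) (N : VonNeumannAlgebra H) (τ : VA N → ℂ)
    (M : VonNeumannAlgebra K) (σ : VA M → ℂ) (ι : VA N → VA M) : Prop where
  factor : IsIIOneFactor N τ
  haagerup : HaagerupProp N τ
  normal : IsNormalPositive M σ
  trace : IsFaithfulTrace σ
  propT : PropT M
  existential : IsExistential U τ σ ι

end

end Pool.Agent.Helper463.ST
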