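import Mathlib
import Pool.Agent.Helper463.EXS
import Pool.Agent.Helper463.EXM

set_option autoImplicit false

open scoped InnerProductSpace ComplexOrder Topology
open Filter

namespace Pool.Agent.Helper463.ST

open Pool.Agent.Helper278

section

variable {H : Type} [NormedAddCommGroup H] [InnerProductSpace ℂ H] [CompleteSpace H]

theorem star_aux {L : Type} [NormedAddCommGroup L] [InnerProductSpace ℂ L] [CompleteSpace L]
    (S T : L →L[ℂ] L) (h : ∀ ξ η, ⟪S ξ, η⟫_ℂ = ⟪ξ, T η⟫_ℂ) : S = star T := by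
  rw [ContinuousLinearMap.star_eq_adjoint]
  exact (ContinuousLinearMap.eq_adjoint_iff _ _).2 h

theorem exists_bimod (M : VonNeumannAlgebra H) (L : Type) [NormedAddCommGroup L]
    [InnerProductSpace ℂ L] [CompleteSpace L] (l r : VA M → L → L) (h : IsBimod M L l r) :
    ∃ B : EXV.Bimod M L, (∀ (x : VA M) ξ, B.l x ξ = l x ξ) ∧
      ∀ (x : VA M) ξ, B.r (MulOpposite.op (show Elt M from x)) ξ = r x ξ := by
  let ll : VA M → L →ₗ[ℂ] L := fun x =>
    { toFun := l x, map_add' := h.left.vadd x, map_smul' := fun c ξ => h.left.vsmul c x ξ }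
  let rl : VA M → L →ₗ[ℂ] L := fun x =>
    { toFun := r x, map_add' := h.right.vadd x, map_smul' := fun c ξ => h.right.vsmul c x ξ }
  let lc : Elt M → (L →L[ℂ] L) := fun x =>
    (ll x).mkContinuous ‖(show VA M from x)‖ (h.left.norm x)
  let rc : Elt M → (L →L[ℂ] L) := fun x =>
    (rl x).mkContinuous ‖(show VA M from x)‖ (h.right.norm x)
  have hl : ∀ (x : Elt M) ξ, lc x ξ = l x ξ := fun x ξ => rfl
  have hr : ∀ (x : Elt M) ξ, rc x ξ = r x ξ := fun x ξ => rfl
  have l1 : lc 1 = 1 := by ext ξ; exact h.left.one ξ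
  have lm : ∀ x y, lc (x * y) = lc x * lc y := by intro x y; ext ξ; exact h.l_mul x y ξ
  have la : ∀ x y, lc (x + y) = lc x + lc y := by intro x y; ext ξ; exact h.left.add x y ξ
  have lsm : ∀ (c : ℂ) x, lc (c • x) = c • lc x := by intro c x; ext ξ; exact h.left.smul c x ξ
  have ls : ∀ x, lc (star x) = star (lc x) := fun x => star_aux _ _ fun ξ η => h.left.star x ξ η
  have r1 : rc 1 = 1 := by ext ξ; exact h.right.one ξ
  have rm : ∀ x y, rc (x * y) = rc y * rc x := by intro x y; ext ξ; exact h.r_mul x y ξ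
  have ra : ∀ x y, rc (x + y) = rc x + rc y := by intro x y; ext ξ; exact h.right.add x y ξ
  have rsm : ∀ (c : ℂ) x, rc (c • x) = c • rc x := by intro c x; ext ξ; exact h.right.smul c x ξ
  have rs : ∀ x, rc (star x) = star (rc x) := fun x => star_aux _ _ fun ξ η => h.right.star x ξ η
  have l0 : lc 0 = 0 := by have := la 0 0; rwa [add_zero, left_eq_add] at this
  have r0 : rc 0 = 0 := by have := ra 0 0; rwa [add_zero, left_eq_add] at this
  let lh : Elt M →⋆ₐ[ℂ] (L →L[ℂ] L) :=
    { toFun := lc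
      map_one' := l1
      map_mul' := lm
      map_zero' := l0
      map_add' := la
      commutes' := fun c => by
        show lc _ = _
        rw [Algebra.algebraMap_eq_smul_one, lsm, l1, Algebra.algebraMap_eq_smul_one]
      map_star' := ls }
  let rh : (Elt M)ᵐᵒᵖ →⋆ₐ[ℂ] (L →L[ℂ] L) :=
    { toFun := fun x => rc (MulOpposite.unop x)
      map_one' := r1
      map_mul' := fun x y => by rw [MulOpposite.unop_mul, rm]
      map_zero' := r0
      map_add' := fun x y => by rw [MulOpposite.unop_add, ra]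
      commutes' := fun c => by
        show rc (MulOpposite.unop (algebraMap ℂ (Elt M)ᵐᵒᵖ c)) = _
        rw [MulOpposite.algebraMap_apply, MulOpposite.unop_op, Algebra.algebraMap_eq_smul_one, rsm,
          r1, Algebra.algebraMap_eq_smul_one]
      map_star' := fun x => by rw [MulOpposite.unop_star, rs] }
  exact ⟨{ l := lh, r := rh
           comm := fun x y => by ext ξ; exact h.comm x (MulOpposite.unop y) ξ
           normal_l := fun ξ => h.left.normal ξ
           normal_r := fun ξ => h.right.normal ξ }, fun x ξ => rfl, fun x ξ => rfl⟩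

theorem propT_of (M : VonNeumannAlgebra H) (hM : EXV.PropT M) : PropT M := by
  intro ε hε
  obtain ⟨F, δ, hδ, h⟩ := hM ε hε
  refine ⟨F, δ, hδ, ?_⟩
  intro L _ _ _ l r hB ξ hξ hF
  obtain ⟨B, h1, h2⟩ := exists_bimod M L l r hB
  obtain ⟨η, hη, hc, hz⟩ := h L B ξ hξ (fun x hx => by
    have e1 : B.l x ξ = l x ξ := h1 x ξ
    have e2 : B.r (MulOpposite.op x) ξ = r x ξ := h2 x ξ
    rw [e1, e2]
    exact hF x hx)
  refine ⟨η, hη, hc, fun x => ?_⟩
  have e1 : B.l x η = l x η := h1 x η
  have e2 : B.r (MulOpposite.op (show Elt M from x)) η = r x η := h2 x η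
  rw [← e1, ← e2]
  exact hz x

theorem haagerup_of (N : VonNeumannAlgebra H) (τ : Elt N → ℂ) (h : EXV.HaagerupProp N τ) :
    HaagerupProp N τ := by
  obtain ⟨φ, h1, h2, h3, h4, h5, h6⟩ := h
  exact ⟨fun k x => φ k x, fun k => ⟨fun x y => map_add (φ k) x y, fun c x => map_smul (φ k) c x,
    h1 k, h2 k, h3 k, fun x => h4 k x, h5 k⟩, fun x => h6 x⟩

variable {K : Type} [NormedAddCommGroup K] [InnerProductSpace ℂ K] [CompleteSpace K]

theorem existential_of (U : Ultrafilter ℕ) {N : VonNeumannAlgebra H} (τ : Elt N → ℂ)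
    {M : VonNeumannAlgebra K} (σ : Elt M → ℂ) (ι : Elt N →⋆ₐ[ℂ] Elt M)
    (h : EXV.IsExistential U τ σ ι) :
    IsExistential (N := N) (M := M) U τ σ (fun x => ι x) := by
  obtain ⟨h1, Q, i1, i2, i3, i4, π, φ, θ, h2, h3, h4⟩ := h
  exact ⟨⟨map_one ι, fun x y => map_add ι x y, fun x y => map_mul ι x y,
    fun c x => map_smul ι c x, fun x => map_star ι x⟩, fun x => h1 x, Q, i1, i2, i3, π, φ,
    fun x => θ x, h2, ⟨map_one θ, fun x y => map_add θ x y, fun x y => map_mul θ x y,
    fun c x => map_smul θ c x, fun x => map_star θ x⟩, fun y => h3 y, fun x => h4 x⟩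

theorem exists_example (U : Ultrafilter ℕ) (hU : ∀ n, {n} ∉ U) :
    ∃ (H : Type) (_ : NormedAddCommGroup H) (_ : InnerProductSpace ℂ H) (_ : CompleteSpace H)
      (K : Type) (_ : NormedAddCommGroup K) (_ : InnerProductSpace ℂ K) (_ : CompleteSpace K)
      (N : VonNeumannAlgebra H) (τ : VA N → ℂ) (M : VonNeumannAlgebra K) (σ : VA M → ℂ)
      (ι : VA N → VA M), IsExample U N τ M σ ι := by
  obtain ⟨ι, h⟩ := EXV.main U hU
  exact ⟨_, _, _, _, _, _, _, _, _, _, _, _, _, h.factor, haagerup_of _ _ h.haagerup, h.normal,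
    h.trace, propT_of _ h.propT, existential_of U _ _ ι h.existential⟩

end

end Pool.Agent.Helper463.ST
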