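import Mathlib

set_option autoImplicit false

open scoped InnerProductSpace Topology BoundedContinuousFunction
open Filter

namespace Pool.Agent.Helper463.UB

universe u w

/-- `φ` is unital, tracial and faithful. -/
structure IsFaithfulTrace {A : Type u} [Ring A] [StarRing A] (φ : A → ℂ) : Prop where
  one : φ 1 = 1
  tracial : ∀ x y, φ (x * y) = φ (y * x)
  faithful : ∀ x, φ (star x * x) = 0 → x = 0

/-- The 2-norm `‖x‖₂ = φ(x* x)^{1/2}`. -/
noncomputable def norm2 {A : Type u} [Mul A] [Star A] (φ : A → ℂ) (x : A) : ℝ :=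
  Real.sqrt (φ (star x * x)).re

/-- `(M, τ)` is hyperfinite: an increasing sequence of finite dimensional unital star subalgebras
of `M` has a union that is dense in the 2-norm. -/
def IsHyperfinite (M : Type u) [Ring M] [StarRing M] [Algebra ℂ M] [StarModule ℂ M]
    (τ : M → ℂ) : Prop :=
  ∃ A : ℕ → StarSubalgebra ℂ M, Monotone A ∧ (∀ n, FiniteDimensional ℂ (A n)) ∧
    ∀ (x : M) (ε : ℝ), 0 < ε → ∃ n, ∃ y ∈ A n, norm2 τ (x - y) < ε

/-- `A` and `B` are isomorphic as unital complex star algebras. -/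
def Isomorphic (A : Type u) (B : Type w) [Ring A] [StarRing A] [Algebra ℂ A] [Ring B] [StarRing B]
    [Algebra ℂ B] : Prop :=
  Nonempty (A ≃⋆ₐ[ℂ] B)

section ultrapower

variable {M : Type u} [NormedRing M] [StarRing M] [CStarRing M] [NormedAlgebra ℂ M]
  [StarModule ℂ M]

/-- `Q` with the quotient map `π` is the tracial ultrapower `M^U` of `(M, τ)`: `π` maps the star
algebra `ℓ^∞(ℕ, M)` of norm bounded sequences in `M` onto `Q`, and its kernel consists of the
sequences with `lim τ(x_n* x_n) = 0` along `U`. -/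
structure IsUltrapower (τ : M → ℂ) (U : Ultrafilter ℕ) {Q : Type u} [Ring Q] [StarRing Q]
    [Algebra ℂ Q] (π : (ℕ →ᵇ M) →⋆ₐ[ℂ] Q) : Prop where
  surj : Function.Surjective π
  ker : ∀ x, π x = 0 ↔ Tendsto (fun n => τ (star (x n) * x n)) U (𝓝 0)

/-- The tracial ultrapower `M^U` exists for every nonprincipal ultrafilter `U` on `ℕ`. -/
def UltrapowersExist (τ : M → ℂ) : Prop :=
  ∀ U : Ultrafilter ℕ, (∀ n, {n} ∉ U) → ∃ (Q : Type u) (_ : Ring Q) (_ : StarRing Q)
    (_ : Algebra ℂ Q) (_ : StarModule ℂ Q) (π : (ℕ →ᵇ M) →⋆ₐ[ℂ] Q), IsUltrapower τ U π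

/-- The image of `M` in its ultrapower under the diagonal embedding, which sends `x` to the class
of the constant sequence `(x, x, …)`. -/
def diagonal {Q : Type u} [Ring Q] [StarRing Q] [Algebra ℂ Q] (π : (ℕ →ᵇ M) →⋆ₐ[ℂ] Q) : Set Q :=
  Set.range fun x : M => π (BoundedContinuousFunction.const ℕ x)

/-- For every nonprincipal ultrafilter `U` on `ℕ` and every model `Q` of the tracial ultrapower
`M^U`, the relative commutant in `Q` of the relative commutant in `Q` of `M` is `M`, that is,
`(M' ∩ M^U)' ∩ M^U = M`, where `M` is embedded diagonally. -/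
def UltrapowerBicommutantEq (τ : M → ℂ) : Prop :=
  ∀ U : Ultrafilter ℕ, (∀ n, {n} ∉ U) → ∀ (Q : Type u) [Ring Q] [StarRing Q] [Algebra ℂ Q]
    [StarModule ℂ Q] (π : (ℕ →ᵇ M) →⋆ₐ[ℂ] Q), IsUltrapower τ U π →
    Set.centralizer (Set.centralizer (diagonal π)) = diagonal π

end ultrapower

section vN

variable {H : Type u} [NormedAddCommGroup H] [InnerProductSpace ℂ H] [CompleteSpace H]

/-- The star algebra of all elements of a von Neumann algebra `N` acting on `H`. -/
abbrev Elt (N : VonNeumannAlgebra H) : Type u := N.toStarSubalgebra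

/-- `τ` is a normal positive functional on `N`: a countable sum of vector functionals. -/
def IsNormalPositive (N : VonNeumannAlgebra H) (τ : Elt N → ℂ) : Prop :=
  ∃ ξ : ℕ → H, Summable (fun k => ‖ξ k‖ ^ 2) ∧
    ∀ x : Elt N, τ x = ∑' k, ⟪ξ k, (x : H →L[ℂ] H) (ξ k)⟫_ℂ

/-- `N` is a factor: its center consists of the scalars. -/
def HasTrivialCenter (N : VonNeumannAlgebra H) : Prop :=
  ∀ z ∈ N, (∀ x ∈ N, z * x = x * z) → ∃ c : ℂ, z = c • (1 : H →L[ℂ] H)

/-- `N` is a II₁ factor with trace `τ`: an infinite dimensional factor, and `τ` is a faithful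
normal tracial state on it. -/
structure IsIIOneFactor (N : VonNeumannAlgebra H) (τ : Elt N → ℂ) : Prop where
  center : HasTrivialCenter N
  infinite : ¬ FiniteDimensional ℂ (Elt N)
  trace : IsFaithfulTrace τ
  normal : IsNormalPositive N τ

/-- The von Neumann algebra `N` with trace `τ` is hyperfinite. -/
def Hyperfinite (N : VonNeumannAlgebra H) (τ : Elt N → ℂ) : Prop :=
  IsHyperfinite (Elt N) τ

/-- The tracial ultrapower `N^U` exists for every nonprincipal ultrafilter on `ℕ`. -/
def HasUltrapowers (N : VonNeumannAlgebra H) (τ : Elt N → ℂ) : Prop :=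
  UltrapowersExist (M := Elt N) τ

/-- `(N' ∩ N^U)' ∩ N^U = N` for every nonprincipal ultrafilter `U` on `ℕ`. -/
def BicommutantEq (N : VonNeumannAlgebra H) (τ : Elt N → ℂ) : Prop :=
  UltrapowerBicommutantEq (M := Elt N) τ

/-- `N` is isomorphic (as a star algebra) to no hyperfinite II₁ factor `R`. -/
def NotIsoHyperfinite (N : VonNeumannAlgebra H) : Prop :=
  ∀ (H' : Type w) [NormedAddCommGroup H'] [InnerProductSpace ℂ H'] [CompleteSpace H']
    (R : VonNeumannAlgebra H') (τ' : Elt R → ℂ), IsIIOneFactor R τ' → Hyperfinite R τ' →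
    ¬ Isomorphic (Elt N) (Elt R)

end vN

end Pool.Agent.Helper463.UB
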