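import Mathlib
import Pool.Agent.Helper463.UBStmt
import Pool.Agent.Helper278.Model
import Pool.Agent.Helper278.DefsG

set_option autoImplicit false
set_option linter.unusedSectionVars false

open scoped InnerProductSpace ComplexOrder BoundedContinuousFunction ComplexConjugate
open Filter Topology

namespace Pool.Agent.Helper463.UB

open Pool.Agent.Helper278

universe u v w

variable {H : Type u} [NormedAddCommGroup H] [InnerProductSpace ℂ H] [CompleteSpace H]
variable {N : VonNeumannAlgebra H}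

theorem toFactor {τ : Elt N → ℂ} (h : IsIIOneFactor N τ) :
    Pool.Agent.Helper278.IsIIOneFactor N τ :=
  ⟨h.center, h.infinite, ⟨h.trace.one, h.trace.tracial, h.trace.faithful⟩, h.normal⟩

theorem ofFactor {τ : Elt N → ℂ} (h : Pool.Agent.Helper278.IsIIOneFactor N τ) :
    IsIIOneFactor N τ :=
  ⟨h.center, h.infinite, ⟨h.trace.one, h.trace.tracial, h.trace.faithful⟩, h.normal⟩

theorem toHyp {τ : Elt N → ℂ} (h : Hyperfinite N τ) :
    Pool.Agent.Helper278.IsHyperfinite (Elt N) τ := h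

theorem ofHyp {τ : Elt N → ℂ} (h : Pool.Agent.Helper278.IsHyperfinite (Elt N) τ) :
    Hyperfinite N τ := h

theorem toUlt (T : TracialState N) {U : Ultrafilter ℕ} {Q : Type u} [Ring Q] [StarRing Q]
    [Algebra ℂ Q] [StarModule ℂ Q] {π : (ℕ →ᵇ Elt N) →⋆ₐ[ℂ] Q} (h : IsUltrapower T.τ U π) :
    ∃ σ : Q → ℂ, IsTracialUltrapower T.τ U π σ := by
  have hA := trAlg T
  choose lift hlift using h.surj
  choose σ hσ using fun x : ℕ →ᵇ Elt N => exists_lim T U x
  refine ⟨fun q => σ (lift q), h.surj, h.ker, fun x => ?_⟩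
  have h1 : π (x - lift (π x)) = 0 := by rw [map_sub, hlift, sub_self]
  rw [h.ker, hA.tendsto_iff] at h1
  have h2 : Tendsto (fun n => T.τ ((x - lift (π x)) n)) U (𝓝 0) :=
    squeeze_zero_norm (fun n => hA.norm_le _) h1
  have h3 := (hσ (lift (π x))).add h2
  rw [add_zero] at h3
  refine h3.congr fun n => ?_
  show T.τ (lift (π x) n) + T.τ (x n - lift (π x) n) = T.τ (x n)
  rw [map_sub]
  ring

theorem hasUltrapowers (T : TracialState N) : HasUltrapowers N T.τ := by
  intro U _
  obtain ⟨Q, h1, h2, h3, h4, π, σ, hπ⟩ := exists_ultrapower T U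
  exact ⟨Q, h1, h2, h3, h4, π, ⟨hπ.surj, hπ.ker⟩⟩

theorem bicommutantEq (T : TracialState N)
    (h : ∀ U : Ultrafilter ℕ, (∀ n, {n} ∉ U) → ∀ (Q : Type u) [Ring Q] [StarRing Q] [Algebra ℂ Q]
      [StarModule ℂ Q] (π : (ℕ →ᵇ Pool.Agent.Helper278.Elt N) →⋆ₐ[ℂ] Q) (σ : Q → ℂ),
      IsTracialUltrapower T.τ U π σ →
      Set.centralizer (Set.centralizer (Set.range fun x : Pool.Agent.Helper278.Elt N =>
        π (BoundedContinuousFunction.const ℕ x))) =
        Set.range fun x : Pool.Agent.Helper278.Elt N => π (BoundedContinuousFunction.const ℕ x)) :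
    BicommutantEq N T.τ := by
  intro U hU Q _ _ _ _ π hπ
  obtain ⟨σ, hσ⟩ := toUlt T hπ
  exact h U hU Q π σ hσ

end Pool.Agent.Helper463.UB
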