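import Mathlib
import Pool.Agent.Helper463.UBBridge
import Pool.Agent.Helper463.BCFinal

set_option autoImplicit false
set_option linter.unusedSectionVars false

open scoped InnerProductSpace ComplexOrder BoundedContinuousFunction ComplexConjugate
open Filter Topology

namespace Pool.Agent.Helper463.UB

open Pool.Agent.Helper278 (LK trG)
open Pool.Agent.Helper278

universe u v w

/-- The ultrapower bicommutant problem has a negative answer. -/
theorem final : ∃ (H : Type) (_ : NormedAddCommGroup H) (_ : InnerProductSpace ℂ H)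
    (_ : CompleteSpace H) (N : VonNeumannAlgebra H) (τ : Elt N → ℂ),
    TopologicalSpace.SeparableSpace H ∧ IsIIOneFactor N τ ∧ HasUltrapowers N τ ∧
    BicommutantEq N τ ∧ ¬ Hyperfinite N τ ∧ NotIsoHyperfinite.{0, w} N := by
  obtain ⟨d⟩ := BC.nonempty_WD
  have hc : Countable (BC.GG d) := BC.countable_GG d
  have hi : Infinite (BC.GG d) := BC.infinite_GG d
  let b : HilbertBasis (BC.GG d) ℂ (lp (fun _ : BC.GG d => ℂ) 2) := default
  have hfac : Pool.Agent.Helper278.IsIIOneFactor (LK b) (RG.TL b).τ :=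
    RG.isIIOne_LK b (BC.icc_GG d)
  have hD : BC.Dich b := BC.dich b (BC.typeI d) (BC.typeII d)
  have hnh : ¬ Pool.Agent.Helper278.IsHyperfinite (Pool.Agent.Helper278.Elt (LK b)) (RG.TL b).τ := by
    refine BC.not_hyperfinite b
      ((MonoidHom.snd (Equiv.Perm (BC.Om d)) (FreeGroup Bool)).comp (BC.GG d).subtype)
      (fun i => ⟨(BC.act d (FreeGroup.of i), FreeGroup.of i), ?_⟩) (fun i => rfl)
    show {x | BC.act d (FreeGroup.of i) x ≠ BC.act d (FreeGroup.of i) x}.Finite
    simp
  refine ⟨lp (fun _ : BC.GG d => ℂ) 2, inferInstance, inferInstance, inferInstance, LK b,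
    (RG.TL b).τ, BC.separable_of_basis b, ofFactor hfac, hasUltrapowers (RG.TL b),
    bicommutantEq (RG.TL b) ?_, fun h => hnh (toHyp h), ?_⟩
  · intro U hU Q _ _ _ _ π σ hσ
    exact BC.bicommutant b hD hU hσ
  · intro H' _ _ _ R τ' hR hyp
    exact fun ⟨Φ⟩ => hnh (BC.hyperfinite_of_equiv hfac R τ' (toFactor hR) (toHyp hyp) Φ)

end Pool.Agent.Helper463.UB
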